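import Pool.Agent.Lib.MP_8dbd20_lc.Hi.Spec1

set_option linter.unusedVariables false

namespace B8d

theorem L0_ext {f g : (ℕ → ℕ) → (ℕ → Set ℕ) → ℕ} (hf : AN f) (hg : AN g) :
    Ar (fun v V => Ext (f v V) (g v V)) := by
  refine Ar.s20 (R := fun w w' => Ext w w') ?_ hf hg
  show Ar (fun v (_ : ℕ → Set ℕ) => (v 0).unpair.1 ≤ (v 1).unpair.1 ∧
    ∀ i, i < (v 0).unpair.1 → ((v 0).unpair.2.testBit i = true ↔ (v 1).unpair.2.testBit i = true))
  aesop (config := { enableSimp := false })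

theorem L0_gstep : AN (fun v V => gstep (V 0) (v 0) (v 1)) := by
  unfold gstep
  refine @AN.ite (fun v V => ∃ w', w' ∈ sec (sec (V 0) 0) (v 0) ∧ Ext (v 1) w')
    (fun v V => Classical.propDecidable _) _ _ ?_ ?_ (AN.var 1)
  · refine Ar.exN (R := fun w' v V => w' ∈ sec (sec (V 0) 0) (v 0) ∧ Ext (v 1) w') ?_
    refine Ar.and ?_ (L0_ext (AN.var 2) (AN.var 0))
    aesop (config := { enableSimp := false })
  · refine AN.sInf (R := fun w' v V => w' ∈ sec (sec (V 0) 0) (v 0) ∧ Ext (v 1) w') ?_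
    refine Ar.and ?_ (L0_ext (AN.var 2) (AN.var 0))
    aesop (config := { enableSimp := false })

theorem L0_gseq : AN (fun v V => gseq (V 0) (v 0)) := by
  unfold gseq
  refine AN.natRec (a := fun _ _ => 0) (h := fun n w v V => gstep (V 0) n w) (AN.const 0) ?_
    (AN.var 0)
  exact L0_gstep

theorem pL0b : S_L0b := by
  refine ⟨?_, ?_, ?_, ?_, ?_, ?_⟩
  · show Ar (fun _ V => ∃ a, V 0 = sec (sec (V 1) 0) a)
    aesop (config := { enableSimp := false })
  · show Ar (fun _ V => ∃ i, Nat.pair i i ∈ sec (V 1) 0 ∧ V 0 = sec (V 1) (i + 1))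
    aesop (config := { enableSimp := false })
  · show Ar (fun _ V => (∀ k, ∃ x, Nat.pair k x ∈ V 0) ∧
      ∀ k x y, Nat.pair k x ∈ V 0 → Nat.pair (k + 1) y ∈ V 0 → Nat.pair y x ∈ V 1 ∧ y ≠ x)
    aesop (config := { enableSimp := false })
  · unfold LinO
    aesop (config := { enableSimp := false })
  · unfold cst
    aesop (config := { enableSimp := false })
  · show AS (fun _ V => {i | ∃ n, i < (gseq (V 0) n).unpair.1 ∧
      (gseq (V 0) n).unpair.2.testBit i = true})
    refine AS.setOf (R := fun i _ V => ∃ n, i < (gseq (V 0) n).unpair.1 ∧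
      (gseq (V 0) n).unpair.2.testBit i = true) ?_
    refine Ar.exN (R := fun n v V => v 0 < (gseq (V 0) n).unpair.1 ∧
      (gseq (V 0) n).unpair.2.testBit (v 0) = true) ?_
    exact Ar.and (Ar.lt (AN.var 1) (AN.fst L0_gseq)) (Ar.testBit (AN.snd L0_gseq) (AN.var 1))

end B8d
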