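import Pool.Agent.Lib.MP_8dbd20_lc.Hi.Spec2

set_option linter.unusedVariables false

namespace B8d

/-- ω-models of `Z_2` are arithmetically closed -/
theorem C1_arc {M : Set (Set ℕ)} (h : Mod2 M) : ArClosed M := by
  rintro R ⟨φ, ha, hφ⟩ v V hV
  have h1 := h.2 φ v V hV
  have e : {n | R (nc n v) V} = {n | eval M ∅ φ (nc n v) V} := by
    ext n
    exact (hφ _ _).trans (eval_arith ha _ _ _ _ _ _)
  rw [e]
  exact h1

theorem C1_secM {M : Set (Set ℕ)} (h : Mod2 M) {Z : Set ℕ} (hZ : Z ∈ M) (i : ℕ) :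
    sec Z i ∈ M := by
  have h1 : AS (fun v V => sec (V 0) (v 0)) := by aesop (config := { enableSimp := false })
  exact AS.closed h1 (C1_arc h) (fun _ => i) (fun _ => Z) (fun _ => hZ)

theorem C1_prd {Z : Set ℕ} (hl : LinO (sec Z 0)) (i : ℕ) : Prd Z i ⊆ Ent Z := by
  rintro X ⟨j, hj, rfl⟩
  exact ⟨j, (hl.1 j i hj.1).1, rfl⟩

theorem C1_lin (l2 : S_L2) {Z c d : Set ℕ} (hZ : Local Z) (hc : c ∈ Ent Z) (hd : d ∈ Ent Z) :
    c = d ∨ c ∈ Ss d ∨ d ∈ Ss c := by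
  obtain ⟨i, hi, rfl⟩ := hc
  obtain ⟨j, hj, rfl⟩ := hd
  by_cases hij : i = j
  · exact Or.inl (by rw [hij])
  obtain ⟨h1, h2⟩ := l2 Z hZ
  rcases hZ.1.2.2.2 i j hi hj with h | h
  · exact Or.inr (Or.inl ((h2 i hi j hj).1.1 ⟨h, hij⟩))
  · exact Or.inr (Or.inr ((h2 j hj i hi).1.1 ⟨h, fun e => hij e.symm⟩))

theorem pC1 (l2 : S_L2) (l3 : S_L3) (l4 : S_L4) : S_C1 := by
  intro M hM
  have hA := C1_arc hM
  have h1 : ∀ c ∈ CM M, IsCmp c ∧ c ∈ M := by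
    rintro c ⟨Z, hZ, hH, i, hi, rfl⟩
    exact ⟨(l2 Z hH.1).1 i hi, C1_secM hM hZ _⟩
  have h4 : ∀ Z ∈ M, HCin M Z → ∀ i ∈ fld Z, Prd Z i = Lseg (CM M) (sec Z (i + 1)) := by
    intro Z hZ hH i hi
    apply Set.Subset.antisymm
    · rintro X ⟨j, hj, rfl⟩
      have hjf : j ∈ fld Z := (hH.1.1.1 j i hj.1).1
      exact ⟨⟨Z, hZ, hH, j, hjf, rfl⟩, ((l2 Z hH.1).2 j hjf i hi).1.1 hj⟩
    · rintro d ⟨⟨Z', hZ', hH', hd⟩, hdi⟩
      by_cases hdZ : d ∈ Ent Z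
      · obtain ⟨j, hj, rfl⟩ := hdZ
        exact ⟨j, ((l2 Z hH.1).2 j hj i hi).1.2 hdi, rfl⟩
      · rcases l4 M hA Z hZ Z' hZ' hH hH' with h | ⟨i', hi', h⟩ | ⟨i', hi', h⟩
        · rw [h] at hdZ
          exact absurd hd hdZ
        · have hiE : sec Z (i + 1) ∈ Ent Z' := by
            have h0 : sec Z (i + 1) ∈ Ent Z := ⟨i, hi, rfl⟩
            rw [h] at h0
            exact C1_prd hH'.1.1 i' h0
          obtain ⟨k, hk, e⟩ := hiE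
          obtain ⟨j, hj, rfl⟩ := hd
          have h5 : sec Z' (j + 1) ∈ Prd Z' k := by
            refine ⟨j, ((l2 Z' hH'.1).2 j hj k hk).1.2 ?_, rfl⟩
            rw [← e]
            exact hdi
          rw [l3 M hA Z hZ Z' hZ' hH hH' i hi k hk e]
          exact h5
        · rw [h] at hd
          exact absurd (C1_prd hH.1.1 i' hd) hdZ
  refine ⟨h1, ?_, ?_, h4, ?_⟩
  · rintro c ⟨Z, hZ, hH, hc⟩ d ⟨Z', hZ', hH', hd⟩
    rcases l4 M hA Z hZ Z' hZ' hH hH' with h | ⟨i', hi', h⟩ | ⟨i', hi', h⟩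
    · rw [h] at hc
      exact C1_lin l2 hH'.1 hc hd
    · rw [h] at hc
      exact C1_lin l2 hH'.1 (C1_prd hH'.1.1 i' hc) hd
    · rw [h] at hd
      exact C1_lin l2 hH.1 hc (C1_prd hH.1.1 i' hd)
  · rintro X ⟨c, hc, a, rfl⟩
    exact C1_secM hM (C1_secM hM (h1 c hc).2 0) a
  · rintro c ⟨Z, hZ, hH, i, hi, rfl⟩
    have h5 := hH.1.2 i hi
    rw [h4 Z hZ hH i hi] at h5
    exact h5

end B8d
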