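import Pool.Agent.Lib.MP_8dbd20_lc.Hi.Spec2

/-!
# MP_8dbd20_lc, `Hi/C10`: limits closed under a definable relation
-/

set_option linter.unusedVariables false

namespace B8d

private theorem C10_ss : Ar (fun _ V => V 0 ∈ Ss (V 1)) := by
  have h : Ar (fun v V => ∃ a, V 0 = sec (sec (V 1) 0) a) := by
    aesop (config := { enableSimp := false })
  exact h

private theorem C10_P (φ : F) (ρ ρ' : ℕ → ℕ) {s t : (ℕ → ℕ) → (ℕ → Set ℕ) → Set ℕ}
    (hs : AS s) (ht : AS t) :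
    UD (fun U C v V => eval U C φ (fun i => v (ρ i)) (sc (s v V) (sc (t v V)
      (fun j => V (ρ' j))))) := by
  have h0 : UD (fun U C v V => eval U C φ v V) := ⟨φ, fun _ _ _ _ _ _ => Iff.rfl⟩
  have h1 := h0.subst (f := fun i v _ => v (ρ i)) (t := fc s (fc t (fun j _ V => V (ρ' j))))
    (fun i => AN.var _) (fc_all (p := AS) hs (fc_all (p := AS) ht (fun j => AS.var _)))
  refine h1.congr fun U C _ v V _ => ?_
  have e : (sc (s v V) (sc (t v V) (fun j => V (ρ' j)))) =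
      fun j => fc s (fc t (fun j _ V => V (ρ' j))) j v V := by
    funext j
    rcases j with _ | _ | j <;> rfl
  rw [e]

/-- the next code -/
private def C10_Nx (φ : F) (U C : Set (Set ℕ)) (c c' : Set ℕ) (v : ℕ → ℕ) (V : ℕ → Set ℕ) : Prop :=
  (c ∈ Ss c' ∧ eval U C φ v (sc c (sc c' V))) ∧
    ∀ e ∈ C, c ∈ Ss e ∧ eval U C φ v (sc c (sc e V)) → e = c' ∨ c' ∈ Ss e

private theorem C10_Nx_ud (φ : F) (ρ ρ' : ℕ → ℕ) {s t : (ℕ → ℕ) → (ℕ → Set ℕ) → Set ℕ}
    (hs : AS s) (ht : AS t) :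
    UD (fun U C v V => C10_Nx φ U C (s v V) (t v V) (fun i => v (ρ i)) (fun j => V (ρ' j))) := by
  have hs' : AS (fun v V => s v (fun j => V (j + 1))) := hs.ren (fun i => i) (fun j => j + 1)
  have ht' : AS (fun v V => t v (fun j => V (j + 1))) := ht.ren (fun i => i) (fun j => j + 1)
  unfold C10_Nx
  refine UD.and (UD.and (Ar.s02 (R := fun X Y => X ∈ Ss Y) C10_ss hs ht).ud (C10_P φ ρ ρ' hs ht)) ?_
  refine UD.allC (R := fun U C e v V => s v V ∈ Ss e ∧ eval U C φ (fun i => v (ρ i)) (sc (s v V)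
    (sc e (fun j => V (ρ' j)))) → e = t v V ∨ t v V ∈ Ss e) ?_
  refine UD.imp (UD.and (Ar.s02 (R := fun X Y => X ∈ Ss Y) C10_ss hs' (AS.var 0)).ud ?_) ?_
  · exact C10_P φ ρ (fun j => ρ' j + 1) hs' (AS.var 0)
  · exact (UD.eqS (AS.var 0) ht').or
      (Ar.s02 (R := fun X Y => X ∈ Ss Y) C10_ss ht' (AS.var 0)).ud

/-- iteration of the next code -/
private def C10_It (φ : F) (U C : Set (Set ℕ)) (n : ℕ) (c c₀ : Set ℕ) (v : ℕ → ℕ)
    (V : ℕ → Set ℕ) : Prop :=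
  ∃ Z ∈ U, sec Z 0 = c₀ ∧ sec Z n = c ∧
    ∀ i, i < n → sec Z i ∈ C ∧ sec Z (i + 1) ∈ C ∧ C10_Nx φ U C (sec Z i) (sec Z (i + 1)) v V

private theorem C10_It_ud (φ : F) (a b : ℕ) :
    UD (fun U C v V => C10_It φ U C (v 0) (V 0) (V a) (fun i => v (i + 1))
      (fun j => V (j + b))) := by
  unfold C10_It
  refine UD.exS (R := fun U C Z v V => sec Z 0 = V a ∧ sec Z (v 0) = V 0 ∧
    ∀ i, i < v 0 → sec Z i ∈ C ∧ sec Z (i + 1) ∈ C ∧
      C10_Nx φ U C (sec Z i) (sec Z (i + 1)) (fun i => v (i + 1)) (fun j => V (j + b))) ?_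
  refine UD.and (by aesop (config := { enableSimp := false })) (UD.and
    (by aesop (config := { enableSimp := false })) ?_)
  refine UD.allN (R := fun U C i v V => i < v 0 → sec (V 0) i ∈ C ∧ sec (V 0) (i + 1) ∈ C ∧
      C10_Nx φ U C (sec (V 0) i) (sec (V 0) (i + 1)) (fun i => v (i + 1))
        (fun j => V (j + b + 1))) ?_
  refine UD.imp (by aesop (config := { enableSimp := false })) (UD.and
    (by aesop (config := { enableSimp := false })) (UD.and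
    (by aesop (config := { enableSimp := false })) ?_))
  exact C10_Nx_ud φ (fun i => i + 2) (fun j => j + b + 1)
    (s := fun v V => sec (V 0) (v 0)) (t := fun v V => sec (V 0) (v 0 + 1))
    (by aesop (config := { enableSimp := false })) (by aesop (config := { enableSimp := false }))

private theorem C10_Up_ud (φ : F) :
    UD (fun U C v V => ∀ n, ∀ c ∈ C, C10_It φ U C n c (V 1) v (fun j => V (j + 2)) →
      c ∈ Ss (V 0)) := by
  refine UD.allN (R := fun U C n v V => ∀ c ∈ C, C10_It φ U C n c (V 1) v (fun j => V (j + 2)) →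
      c ∈ Ss (V 0)) ?_
  refine UD.allC (R := fun U C c v V => C10_It φ U C (v 0) c (V 1) (fun i => v (i + 1))
    (fun j => V (j + 2)) → c ∈ Ss (V 0)) ?_
  exact UD.imp (C10_It_ud φ 2 3)
    (Ar.s02 (R := fun X Y => X ∈ Ss Y) C10_ss (AS.var 0) (AS.var 1)).ud

private theorem C10_As1 : AS (fun v V => {x | (x.unpair.1 = v 0 ∧ x.unpair.2 ∈ V 1) ∨
    (x.unpair.1 ≠ v 0 ∧ x ∈ V 0)}) := by
  aesop (config := { enableSimp := false })

private theorem C10_As0 : AS (fun v V => {x | x.unpair.2 ∈ V 0}) := by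
  aesop (config := { enableSimp := false })

theorem pC10 (t9 : S_T9) (t10 : S_T10) (c1 : S_C1) (c3 : S_C3) (c4 : S_C4) (c5b : S_C5b)
    (c8 : S_C8) : S_C10 := by
  intro M hM φ v V hV hex hmono c₀ hc₀
  obtain ⟨c1a, c1b, -, -, -⟩ := c1 M hM
  obtain ⟨c3a, c3b⟩ := c3 M hM
  have hgood : Good (UM M) (CM M) :=
    (c4 M hM (CM M) (fun _ h => h) c3a (fun c hc => ⟨_, (c3b c hc).1, (c3b c hc).2⟩)).1
  have hir : ∀ c ∈ CM M, c ∉ Ss c := by
    intro c hc
    obtain ⟨E, K, rfl⟩ := (c1a c hc).1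
    exact (t9 E K).1
  have htr : ∀ a, ∀ b, ∀ c ∈ CM M, a ∈ Ss b → b ∈ Ss c → a ∈ Ss c := fun a b c hc hab hbc =>
    t10 b c (c1a c hc).1 hbc hab
  -- existence and uniqueness of the next code
  have hNex : ∀ c ∈ CM M, ∃ c' ∈ CM M, C10_Nx φ (UM M) (CM M) c c' v V := by
    intro c hc
    have hud : UD (fun U C v V => V 1 ∈ Ss (V 0) ∧
        eval U C φ (fun i => v (id i)) (sc (V 1) (sc (V 0) (fun j => V (j + 2))))) :=
      UD.and (Ar.s02 (R := fun X Y => X ∈ Ss Y) C10_ss (AS.var 1) (AS.var 0)).ud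
        (C10_P φ id (fun j => j + 2) (AS.var 1) (AS.var 0))
    obtain ⟨ψ, hψ⟩ := hud
    have hW : ∀ i, sc c V i ∈ UM M := by
      intro i
      rcases i with _ | i
      · exact hgood.1 hc
      · exact hV i
    have hψ' : ∀ e ∈ CM M, ((c ∈ Ss e ∧ eval (UM M) (CM M) φ v (sc c (sc e V))) ↔
        eval (UM M) (CM M) ψ v (sc e (sc c V))) := by
      intro e he
      refine hψ (UM M) (CM M) hgood v (sc e (sc c V)) ?_
      intro i
      rcases i with _ | i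
      · exact hgood.1 he
      · exact hW i
    obtain ⟨c', hc', h1, h2⟩ := (c5b M hM ψ v (sc c V) hW).2 (by
      obtain ⟨e, he, h⟩ := hex c hc
      exact ⟨e, he, (hψ' e he).1 h⟩)
    exact ⟨c', hc', (hψ' c' hc').2 h1, fun e he h => h2 e he ((hψ' e he).1 h)⟩
  have hNun : ∀ c, ∀ c' ∈ CM M, ∀ c'' ∈ CM M, C10_Nx φ (UM M) (CM M) c c' v V →
      C10_Nx φ (UM M) (CM M) c c'' v V → c' = c'' := by
    intro c c' hc' c'' hc'' h1 h2
    rcases h1.2 c'' hc'' h2.1 with h | h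
    · exact h.symm
    rcases h2.2 c' hc' h1.1 with h' | h'
    · exact h'
    exact absurd (htr _ _ _ hc' h h') (hir c' hc')
  -- the iteration
  have hIun : ∀ n c d, C10_It φ (UM M) (CM M) n c c₀ v V → C10_It φ (UM M) (CM M) n d c₀ v V →
      c = d := by
    rintro n c d ⟨Z, hZ, hZ0, hZn, hZs⟩ ⟨Y, hY, hY0, hYn, hYs⟩
    have key : ∀ i, i ≤ n → sec Z i = sec Y i := by
      intro i
      induction i with
      | zero => intro _; rw [hZ0, hY0]
      | succ i ih =>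
        intro hi
        have e := ih (by omega)
        obtain ⟨-, z2, z3⟩ := hZs i (by omega)
        obtain ⟨-, y2, y3⟩ := hYs i (by omega)
        rw [e] at z3
        exact hNun _ _ z2 _ y2 z3 y3
    rw [← hZn, ← hYn, key n le_rfl]
  have hIex : ∀ n, ∃ c ∈ CM M, C10_It φ (UM M) (CM M) n c c₀ v V := by
    intro n
    induction n with
    | zero =>
      refine ⟨c₀, hc₀, {x | x.unpair.2 ∈ c₀}, ?_, ?_, ?_, ?_⟩
      · exact AS.closed C10_As0 hgood.2.2 (fun _ => 0) (fun _ => c₀) (fun _ => hgood.1 hc₀)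
      · ext x; simp
      · ext x; simp
      · intro i hi; omega
    | succ n ih =>
      obtain ⟨c, hc, Z, hZ, hZ0, hZn, hZs⟩ := ih
      obtain ⟨c', hc', hN⟩ := hNex c hc
      have e1 : sec {x : ℕ | (x.unpair.1 = n + 1 ∧ x.unpair.2 ∈ c') ∨
          (x.unpair.1 ≠ n + 1 ∧ x ∈ Z)} (n + 1) = c' := by
        ext x; simp
      have e2 : ∀ i, i ≠ n + 1 → sec {x : ℕ | (x.unpair.1 = n + 1 ∧ x.unpair.2 ∈ c') ∨
          (x.unpair.1 ≠ n + 1 ∧ x ∈ Z)} i = sec Z i := by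
        intro i hi
        ext x; simp [hi]
      refine ⟨c', hc', {x | (x.unpair.1 = n + 1 ∧ x.unpair.2 ∈ c') ∨
          (x.unpair.1 ≠ n + 1 ∧ x ∈ Z)}, ?_, ?_, e1, ?_⟩
      · refine AS.closed C10_As1 hgood.2.2 (fun _ => n + 1) (sc Z (fun _ => c')) ?_
        intro i
        rcases i with _ | i
        · exact hZ
        · exact hgood.1 hc'
      · rw [e2 0 (by omega), hZ0]
      · intro i hi
        rw [e2 i (by omega)]
        rcases Nat.lt_or_ge i n with h | h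
        · rw [e2 (i + 1) (by omega)]
          exact hZs i h
        · have : i = n := by omega
          subst this
          rw [e1, hZn]
          exact ⟨hc, hc', hN⟩
  have hIsucc : ∀ n c e, e ∈ CM M → C10_It φ (UM M) (CM M) n c c₀ v V →
      C10_It φ (UM M) (CM M) (n + 1) e c₀ v V → C10_Nx φ (UM M) (CM M) c e v V := by
    rintro n c e he hI ⟨Z, hZ, hZ0, hZn, hZs⟩
    have h1 : C10_It φ (UM M) (CM M) n (sec Z n) c₀ v V :=
      ⟨Z, hZ, hZ0, rfl, fun i hi => hZs i (by omega)⟩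
    have h2 := hIun n _ _ hI h1
    obtain ⟨-, -, h3⟩ := hZs n (by omega)
    rw [h2, ← hZn]
    exact h3
  have hI0 : C10_It φ (UM M) (CM M) 0 c₀ c₀ v V := by
    obtain ⟨c, hc, Z, hZ, hZ0, hZn, hZs⟩ := hIex 0
    exact ⟨Z, hZ, hZ0, hZ0, hZs⟩
  have hW : ∀ i, sc c₀ V i ∈ UM M := by
    intro i
    rcases i with _ | i
    · exact hgood.1 hc₀
    · exact hV i
  have hW2 : ∀ e ∈ CM M, ∀ i, sc e (sc c₀ V) i ∈ UM M := by
    intro e he i
    rcases i with _ | i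
    · exact hgood.1 he
    · exact hW i
  -- a bound
  have hbd : ∃ d ∈ CM M, ∀ n, ∀ c ∈ CM M, C10_It φ (UM M) (CM M) n c c₀ v V → c ∈ Ss d := by
    obtain ⟨ψ, hψ⟩ := C10_It_ud φ 1 2
    have hψ' : ∀ n, ∀ e ∈ CM M, (C10_It φ (UM M) (CM M) n e c₀ v V ↔
        eval (UM M) (CM M) ψ (nc n v) (sc e (sc c₀ V))) := by
      intro n e he
      exact hψ (UM M) (CM M) hgood (nc n v) (sc e (sc c₀ V)) (hW2 e he)
    obtain ⟨d, hd, h⟩ := c8 M hM ψ v (sc c₀ V) hW (by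
      intro n c hc d hd h1 h2
      exact hIun n c d ((hψ' n c hc).2 h1) ((hψ' n d hd).2 h2))
    exact ⟨d, hd, fun n c hc hI => h n c hc ((hψ' n c hc).1 hI)⟩
  -- the least bound
  obtain ⟨d, hd, hUp, hleast⟩ : ∃ d ∈ CM M,
      (∀ n, ∀ c ∈ CM M, C10_It φ (UM M) (CM M) n c c₀ v V → c ∈ Ss d) ∧
      ∀ e ∈ CM M, (∀ n, ∀ c ∈ CM M, C10_It φ (UM M) (CM M) n c c₀ v V → c ∈ Ss e) →
        e = d ∨ d ∈ Ss e := by
    obtain ⟨ψ, hψ⟩ := C10_Up_ud φ
    have hψ' : ∀ e ∈ CM M,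
        ((∀ n, ∀ c ∈ CM M, C10_It φ (UM M) (CM M) n c c₀ v V → c ∈ Ss e) ↔
        eval (UM M) (CM M) ψ v (sc e (sc c₀ V))) := by
      intro e he
      exact hψ (UM M) (CM M) hgood v (sc e (sc c₀ V)) (hW2 e he)
    obtain ⟨d, hd, h1, h2⟩ := (c5b M hM ψ v (sc c₀ V) hW).2 (by
      obtain ⟨e, he, h⟩ := hbd
      exact ⟨e, he, (hψ' e he).1 h⟩)
    exact ⟨d, hd, (hψ' d hd).2 h1, fun e he h => h2 e he ((hψ' e he).1 h)⟩
  have hmain : ∀ c ∈ CM M, c ∈ Ss d → ∃ c' ∈ CM M, c' ∈ Ss d ∧ c ∈ Ss c' ∧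
      eval (UM M) (CM M) φ v (sc c (sc c' V)) := by
    intro c hc hcd
    have h1 : ¬ (∀ n, ∀ e ∈ CM M, C10_It φ (UM M) (CM M) n e c₀ v V → e ∈ Ss c) := by
      intro h
      rcases hleast c hc h with h' | h'
      · rw [← h'] at hcd
        exact hir c hc hcd
      · exact hir c hc (htr _ _ _ hc hcd h')
    push Not at h1
    obtain ⟨n, e, he, hI, hne⟩ := h1
    obtain ⟨c', hc', hI'⟩ := hIex (n + 1)
    have hN := hIsucc n e c' hc' hI hI'
    refine ⟨c', hc', hUp _ _ hc' hI', ?_⟩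
    rcases c1b c hc e he with h | h | h
    · rw [h]
      exact hN.1
    · exact ⟨htr _ _ _ hc' h hN.1.1, hmono c hc e he c' hc' h hN.1.2⟩
    · exact absurd h hne
  refine ⟨d, ⟨hd, ⟨c₀, hc₀, hUp 0 c₀ hc₀ hI0⟩, ?_⟩, hUp 0 c₀ hc₀ hI0, hmain⟩
  rintro c ⟨hc, hcd⟩
  obtain ⟨c', hc', h1, h2, -⟩ := hmain c hc hcd
  exact ⟨c', ⟨hc', h1⟩, h2⟩

end B8d
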