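import Pool.Agent.Lib.MP_8dbd20_lc.Hi.Spec2

namespace B8d

theorem pC11 (c3 : S_C3) (c4 : S_C4) (c10 : S_C10) (c11a : S_C11a) : S_C11 := by
  intro M hM φ X hX
  obtain ⟨χ, hχ⟩ := c11a φ
  have hgood : Good (UM M) (CM M) :=
    (c4 M hM (CM M) subset_rfl (c3 M hM).1 (fun c hc => ⟨_, (c3 M hM).2 c hc⟩)).1
  have hemp : ∅ ∈ UM M := by
    obtain ⟨X, hX⟩ := hgood.2.1
    exact AS.closed AS.empty hgood.2.2 (fun _ => 0) (fun _ => X) (fun _ => hX)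
  obtain ⟨p1, p2, -, p4⟩ := hχ M hM
    (fun c c' => eval (UM M) (CM M) χ (fun _ => 0) (sc c (sc c' fun _ => ∅)))
    (fun _ _ => Iff.rfl)
  obtain ⟨c₀, hc₀, hX₀⟩ := hX
  obtain ⟨d, hd, hcd, h⟩ := c10 M hM χ (fun _ => 0) (fun _ => ∅) (fun _ => hemp) p1 p2 c₀ hc₀
  refine ⟨d, hd, ⟨c₀, ⟨hc₀, hcd⟩, hX₀⟩, p4 d hd (fun c hc hcd => ?_)⟩
  obtain ⟨c', h1, h2, -, h4⟩ := h c hc hcd
  exact ⟨c', h1, h2, h4⟩

end B8d
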