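import Pool.Agent.Lib.MP_8dbd20_lc.Hi.Spec2

namespace B8d

/-- the value of `φ` at the numbers coded by `x.1`, the set `X` and the sections coded by `x.2` -/
private def C11a_ev (φ : F) (U C : Set (Set ℕ)) (c : Set ℕ) (x : ℕ) (X : Set ℕ) : Prop :=
  eval U C φ (fun i => get i x.unpair.1) (sc X (fun j => sec (sec c 0) (get j x.unpair.2)))

private theorem C11a_evUD (φ : F) {N : (ℕ → ℕ) → (ℕ → Set ℕ) → ℕ} (hN : AN N)
    {s t : (ℕ → ℕ) → (ℕ → Set ℕ) → Set ℕ} (hs : AS s) (ht : AS t) :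
    UD (fun U C v V => C11a_ev φ U C (s v V) (N v V) (t v V)) := by
  refine UD.subst (R := fun U C v V => eval U C φ v V) ⟨φ, fun _ _ _ _ _ _ => Iff.rfl⟩
    (f := fun i v V => get i (N v V).unpair.1)
    (t := fun j v V => sc (t v V) (fun j => sec (sec (s v V) 0) (get j (N v V).unpair.2)) j)
    (fun i => AN.get (AN.const i) (AN.fst hN)) (fun j => ?_)
  cases j with
  | zero => exact ht
  | succ j => exact AS.sec (AS.sec hs (AN.const 0)) (AN.get (AN.const j) (AN.snd hN))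

private def C11a_K : F → Set (Set ℕ) → Set (Set ℕ) → Set ℕ → Set ℕ → Prop
  | .fls, _, _, _, _ => True
  | .add _ _ _, _, _, _, _ => True
  | .mul _ _ _, _, _, _, _ => True
  | .mem _ _, _, _, _, _ => True
  | .cc _, _, _, _, _ => True
  | .neg φ, U, C, c, c' => C11a_K φ U C c c'
  | .and φ ψ, U, C, c, c' => C11a_K φ U C c c' ∧ C11a_K ψ U C c c'
  | .allN φ, U, C, c, c' => C11a_K φ U C c c'
  | .allS φ, U, C, c, c' => C11a_K φ U C c c' ∧
      ∀ x, (∃ X ∈ U, ¬ C11a_ev φ U C c x X) → ∃ a, ¬ C11a_ev φ U C c x (sec (sec c' 0) a)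

private theorem C11a_UD (φ : F) : UD (fun U C _ V => C11a_K φ U C (V 0) (V 1)) := by
  induction φ with
  | fls => exact UD.tru
  | add i j k => exact UD.tru
  | mul i j k => exact UD.tru
  | mem i j => exact UD.tru
  | cc j => exact UD.tru
  | neg φ ih => exact ih
  | and φ ψ ih1 ih2 => exact UD.and ih1 ih2
  | allN φ ih => exact ih
  | allS φ ih =>
    refine UD.and ih ?_
    refine UD.allN (R := fun U C x _ V => (∃ X ∈ U, ¬ C11a_ev φ U C (V 0) x X) →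
      ∃ a, ¬ C11a_ev φ U C (V 0) x (sec (sec (V 1) 0) a)) ?_
    refine UD.imp ?_ ?_
    · refine UD.exS (R := fun U C X v V => ¬ C11a_ev φ U C (V 0) (v 0) X) ?_
      exact (C11a_evUD φ (AN.var 0) (AS.var 1) (AS.var 0)).not
    · refine UD.exN (R := fun U C a v V => ¬ C11a_ev φ U C (V 0) (v 0) (sec (sec (V 1) 0) a)) ?_
      exact (C11a_evUD φ (AN.var 1) (AS.var 0)
        (AS.sec (AS.sec (AS.var 1) (AN.const 0)) (AN.var 0))).not

private def C11a_P (M : Set (Set ℕ)) (φ : F) (W : Set ℕ → Set ℕ → Prop) : Prop :=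
  (∀ c ∈ CM M, ∃ c' ∈ CM M, c ∈ Ss c' ∧ W c c') ∧
  (∀ b ∈ CM M, ∀ c ∈ CM M, ∀ c' ∈ CM M, b ∈ Ss c → W c c' → W b c') ∧
  (∀ c ∈ CM M, ∀ c' ∈ CM M, ∀ c'' ∈ CM M, c' ∈ Ss c'' → W c c' → W c c'') ∧
  (∀ d, Lim (CM M) d → (∀ c ∈ CM M, c ∈ Ss d → ∃ c' ∈ CM M, c' ∈ Ss d ∧ W c c') →
    ∀ v V, (∀ i, V i ∈ UU (Lseg (CM M) d)) →
      (eval (UM M) (CM M) φ v V ↔ eval (UU (Lseg (CM M) d)) (Lseg (CM M) d) φ v V))

private theorem C11a_triv (M : Set (Set ℕ)) (φ : F) (htot : ∀ c ∈ CM M, ∃ c' ∈ CM M, c ∈ Ss c')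
    (h : ∀ d, Lim (CM M) d → ∀ v V, (∀ i, V i ∈ UU (Lseg (CM M) d)) →
      (eval (UM M) (CM M) φ v V ↔ eval (UU (Lseg (CM M) d)) (Lseg (CM M) d) φ v V)) :
    C11a_P M φ (fun _ _ => True) :=
  ⟨fun c hc => by
    obtain ⟨c', h1, h2⟩ := htot c hc
    exact ⟨c', h1, h2, trivial⟩,
    fun _ _ _ _ _ _ _ _ => trivial, fun _ _ _ _ _ _ _ _ => trivial, fun d hd _ => h d hd⟩

private theorem C11a_main (t2 : S_T2) (t3 : S_T3) (t10 : S_T10) (c1 : S_C1)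
    (c3 : S_C3) (c4 : S_C4) (c9 : S_C9) (M : Set (Set ℕ)) (hM : Mod2 M) (φ : F) :
    C11a_P M φ (C11a_K φ (UM M) (CM M)) := by
  classical
  have htot : ∀ c ∈ CM M, ∃ c' ∈ CM M, c ∈ Ss c' := fun c hc => ⟨_, (c3 M hM).2 c hc⟩
  have hsub : ∀ c ∈ CM M, ∀ d ∈ CM M, c ∈ Ss d → Ss c ⊆ Ss d := fun c hc d hd h =>
    t10 c d ((c1 M hM).1 d hd).1 h
  have hmax : ∀ c ∈ CM M, ∀ d ∈ CM M, ∃ e ∈ CM M, (c = e ∨ c ∈ Ss e) ∧ (d = e ∨ d ∈ Ss e) := by
    intro c hc d hd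
    rcases (c1 M hM).2.1 c hc d hd with h | h | h
    · exact ⟨d, hd, Or.inl h, Or.inl rfl⟩
    · exact ⟨d, hd, Or.inr h, Or.inl rfl⟩
    · exact ⟨c, hc, Or.inl rfl, Or.inr h⟩
  have hsub' : ∀ c ∈ CM M, ∀ d ∈ CM M, (c = d ∨ c ∈ Ss d) → Ss c ⊆ Ss d := by
    rintro c hc d hd (h | h)
    · rw [h]
    · exact hsub c hc d hd h
  -- recoding of parameters
  have hrec : ∀ (φ : F) (b : ℕ), (∀ (U C : Set (Set ℕ)) (v v' : ℕ → ℕ) (V V' : ℕ → Set ℕ),
      (∀ i < b, v i = v' i) → (∀ i < b, V i = V' i) → (eval U C φ v V ↔ eval U C φ v' V')) →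
      ∀ (c : Set ℕ) (v : ℕ → ℕ) (V : ℕ → Set ℕ), (∀ i < b, V i ∈ Ss c) → ∃ x, ∀ X,
        (C11a_ev φ (UM M) (CM M) c x X ↔ eval (UM M) (CM M) φ v (sc X V)) := by
    intro φ b hb c v V hV
    have hV' : ∀ i, ∃ a, i < b → V i = sec (sec c 0) a := by
      intro i
      by_cases hi : i < b
      · obtain ⟨a, ha⟩ := hV i hi
        exact ⟨a, fun _ => ha⟩
      · exact ⟨0, fun h => absurd h hi⟩
    choose a ha using hV'
    obtain ⟨m, hm⟩ := t3 v b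
    obtain ⟨s, hs⟩ := t3 a b
    refine ⟨Nat.pair m s, fun X => ?_⟩
    unfold C11a_ev
    rw [Nat.unpair_pair]
    refine hb _ _ _ _ _ _ (fun i hi => hm i hi) (fun i hi => ?_)
    cases i with
    | zero => rfl
    | succ i =>
      rw [sc_succ, sc_succ]
      dsimp only
      rw [hs i (by omega), ha i (by omega)]
  induction φ with
  | fls => exact C11a_triv M _ htot fun d hd v V hV => Iff.rfl
  | add i j k => exact C11a_triv M _ htot fun d hd v V hV => Iff.rfl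
  | mul i j k => exact C11a_triv M _ htot fun d hd v V hV => Iff.rfl
  | mem i j => exact C11a_triv M _ htot fun d hd v V hV => Iff.rfl
  | cc j =>
    refine C11a_triv M _ htot fun d hd v V hV => ?_
    constructor
    · intro h
      obtain ⟨c, hc, hc'⟩ := hV j
      exact ⟨h, hsub c hc.1 d hd.1 hc.2 hc'⟩
    · intro h
      exact h.1
  | neg φ ih =>
    exact ⟨ih.1, ih.2.1, ih.2.2.1, fun d hd h v V hV => not_congr (ih.2.2.2 d hd h v V hV)⟩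
  | allN φ ih =>
    exact ⟨ih.1, ih.2.1, ih.2.2.1, fun d hd h v V hV =>
      forall_congr' fun n => ih.2.2.2 d hd h (nc n v) V hV⟩
  | and φ ψ ih1 ih2 =>
    refine ⟨fun c hc => ?_, fun b hb c hc c' hc' h h' => ⟨ih1.2.1 b hb c hc c' hc' h h'.1,
      ih2.2.1 b hb c hc c' hc' h h'.2⟩, fun c hc c' hc' c'' hc'' h h' =>
      ⟨ih1.2.2.1 c hc c' hc' c'' hc'' h h'.1, ih2.2.2.1 c hc c' hc' c'' hc'' h h'.2⟩,
      fun d hd h v V hV => and_congr (ih1.2.2.2 d hd (fun c hc hcd => ?_) v V hV)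
        (ih2.2.2.2 d hd (fun c hc hcd => ?_) v V hV)⟩
    · obtain ⟨d1, hd1, h1, h1'⟩ := ih1.1 c hc
      obtain ⟨d2, hd2, h2, h2'⟩ := ih2.1 c hc
      obtain ⟨e, he, h3, h4⟩ := hmax d1 hd1 d2 hd2
      refine ⟨e, he, hsub' d1 hd1 e he h3 h1, ?_, ?_⟩
      · rcases h3 with h3 | h3
        · rw [← h3]; exact h1'
        · exact ih1.2.2.1 c hc d1 hd1 e he h3 h1'
      · rcases h4 with h4 | h4
        · rw [← h4]; exact h2'
        · exact ih2.2.2.1 c hc d2 hd2 e he h4 h2'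
    · obtain ⟨c', hc', h1, h2⟩ := h c hc hcd
      exact ⟨c', hc', h1, h2.1⟩
    · obtain ⟨c', hc', h1, h2⟩ := h c hc hcd
      exact ⟨c', hc', h1, h2.2⟩
  | allS φ ih =>
    obtain ⟨b, hb⟩ := t2 φ
    refine ⟨fun c hc => ?_, fun b' hb' c hc c' hc' h h' => ⟨ih.2.1 b' hb' c hc c' hc' h h'.1,
      fun x hx => ?_⟩, fun c hc c' hc' c'' hc'' h h' =>
      ⟨ih.2.2.1 c hc c' hc' c'' hc'' h h'.1, fun x hx => ?_⟩, fun d hd h v V hV => ?_⟩
    · -- totality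
      obtain ⟨d1, hd1, h1, h1'⟩ := ih.1 c hc
      obtain ⟨d2, hd2, h2, h2'⟩ := c9 M hM φ c hc
      obtain ⟨e, he, h3, h4⟩ := hmax d1 hd1 d2 hd2
      refine ⟨e, he, hsub' d1 hd1 e he h3 h1, ?_, fun x hx => ?_⟩
      · rcases h3 with h3 | h3
        · rw [← h3]; exact h1'
        · exact ih.2.2.1 c hc d1 hd1 e he h3 h1'
      · obtain ⟨X, hX, hX'⟩ := h2' (fun i => get i x.unpair.1)
          (fun j => sec (sec c 0) (get j x.unpair.2)) (fun i => ⟨_, rfl⟩) hx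
        obtain ⟨a, rfl⟩ := hsub' d2 hd2 e he h4 hX
        exact ⟨a, hX'⟩
    · -- monotonicity
      obtain ⟨y, hy⟩ := hrec φ b hb c (fun i => get i x.unpair.1)
        (fun j => sec (sec b' 0) (get j x.unpair.2)) (fun i _ => hsub b' hb' c hc h ⟨_, rfl⟩)
      obtain ⟨X, hX, hX'⟩ := hx
      obtain ⟨a, ha⟩ := h'.2 y ⟨X, hX, fun h1 => hX' ((hy X).1 h1)⟩
      exact ⟨a, fun h1 => ha ((hy _).2 h1)⟩
    · -- upward
      obtain ⟨a, ha⟩ := h'.2 x hx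
      obtain ⟨a', ha'⟩ := hsub c' hc' c'' hc'' h (show sec (sec c' 0) a ∈ Ss c' from ⟨a, rfl⟩)
      refine ⟨a', ?_⟩
      rw [← ha']
      exact ha
    · -- elementarity
      have hih := ih.2.2.2 d hd (fun c hc hcd => by
        obtain ⟨c', hc', h1, h2⟩ := h c hc hcd
        exact ⟨c', hc', h1, h2.1⟩)
      have hsc : ∀ X ∈ UU (Lseg (CM M) d), ∀ i, sc X V i ∈ UU (Lseg (CM M) d) := by
        intro X hX i
        cases i with
        | zero => exact hX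
        | succ i => exact hV i
      have hUd : UU (Lseg (CM M) d) ⊆ UM M := fun X ⟨c, hc, hX⟩ => ⟨c, hc.1, hX⟩
      constructor
      · intro h1 X hX
        exact (hih v (sc X V) (hsc X hX)).1 (h1 X (hUd hX))
      · intro h1
        by_contra hcon
        have hcon' : ∃ X ∈ UM M, ¬ eval (UM M) (CM M) φ v (sc X V) := by
          by_contra h2
          push Not at h2
          exact hcon h2
        obtain ⟨c, hc, hcV⟩ := (c4 M hM (Lseg (CM M) d) (fun c hc => hc.1) hd.2.1 hd.2.2).2 b V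
          (fun i _ => hV i)
        obtain ⟨x, hx⟩ := hrec φ b hb c v V hcV
        obtain ⟨c', hc', hcd', hK⟩ := h c hc.1 hc.2
        obtain ⟨X, hX, hX'⟩ := hcon'
        obtain ⟨a, ha⟩ := hK.2 x ⟨X, hX, fun h2 => hX' ((hx X).1 h2)⟩
        have hXd : sec (sec c' 0) a ∈ UU (Lseg (CM M) d) := ⟨c', ⟨hc', hcd'⟩, a, rfl⟩
        exact ha ((hx _).2 ((hih v _ (hsc _ hXd)).2 (h1 _ hXd)))

theorem pC11a (t2 : S_T2) (t3 : S_T3) (t10 : S_T10) (c1 : S_C1) (c3 : S_C3) (c4 : S_C4)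
    (c9 : S_C9) : S_C11a := by
  intro φ
  obtain ⟨χ, hχ⟩ := C11a_UD φ
  refine ⟨χ, fun M hM W hW => ?_⟩
  have hgood : Good (UM M) (CM M) :=
    (c4 M hM (CM M) subset_rfl (c3 M hM).1 (fun c hc => ⟨_, (c3 M hM).2 c hc⟩)).1
  have hemp : ∅ ∈ UM M := by
    obtain ⟨X, hX⟩ := hgood.2.1
    exact AS.closed AS.empty hgood.2.2 (fun _ => 0) (fun _ => X) (fun _ => hX)
  have hWK : ∀ c ∈ CM M, ∀ c' ∈ CM M, (W c c' ↔ C11a_K φ (UM M) (CM M) c c') := by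
    intro c hc c' hc'
    rw [hW, ← hχ (UM M) (CM M) hgood (fun _ => 0) (sc c (sc c' fun _ => ∅)) (fun i => ?_)]
    · rfl
    · rcases i with _ | _ | i
      · exact hgood.1 hc
      · exact hgood.1 hc'
      · exact hemp
  obtain ⟨p1, p2, p3, p4⟩ := C11a_main t2 t3 t10 c1 c3 c4 c9 M hM φ
  refine ⟨fun c hc => ?_, fun b hb c hc c' hc' h h' => ?_, fun c hc c' hc' c'' hc'' h h' => ?_,
    fun d hd h => p4 d hd (fun c hc hcd => ?_)⟩
  · obtain ⟨c', hc', h1, h2⟩ := p1 c hc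
    exact ⟨c', hc', h1, (hWK c hc c' hc').2 h2⟩
  · exact (hWK b hb c' hc').2 (p2 b hb c hc c' hc' h ((hWK c hc c' hc').1 h'))
  · exact (hWK c hc c'' hc'').2 (p3 c hc c' hc' c'' hc'' h ((hWK c hc c' hc').1 h'))
  · obtain ⟨c', hc', h1, h2⟩ := h c hc hcd
    exact ⟨c', hc', h1, (hWK c hc c' hc').1 h2⟩

end B8d
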