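import Pool.Agent.Lib.MP_8dbd20_lc.Hi.Spec2

/-!
# MP_8dbd20_lc, `Hi/C12`: limit codes
-/

namespace B8d

private theorem C12_as : AS (fun _ _ => (∅ : Set ℕ)) := AS.empty

theorem pC12 (t9 : S_T9) (t10 : S_T10) (t11 : S_T11) (c1 : S_C1) (c4 : S_C4) : S_C12 := by
  intro M hM d hd
  obtain ⟨c1a, -, -, -, c1e⟩ := c1 M hM
  obtain ⟨hdC, hne, hlim⟩ := hd
  have hsub : Lseg (CM M) d ⊆ CM M := fun c hc => hc.1
  obtain ⟨hgood, -⟩ := c4 M hM (Lseg (CM M) d) hsub hne hlim
  rcases c1e d hdC with ⟨h1, -⟩ | ⟨e, he, hmax, -⟩ | ⟨-, -, k, hk, -, hdk⟩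
  · rw [h1] at hne
    exact absurd hne Set.not_nonempty_empty
  · exfalso
    obtain ⟨e', he', hee⟩ := hlim e he
    obtain ⟨E, K, hEK⟩ := (c1a e (hsub he)).1
    have hirr : e ∉ Ss e := by
      rw [hEK]
      exact (t9 E K).1
    rcases hmax e' he' with h2 | h2
    · rw [h2] at hee
      exact hirr hee
    · exact hirr (t10 e' e (c1a e (hsub he)).1 h2 hee)
  · obtain ⟨-, p2, p3, p4, -⟩ := t9 (pf (Lseg (CM M) d) k)
      {a | sec (pf (Lseg (CM M) d) k) a ∈ Lseg (CM M) d}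
    rw [← hdk] at p2 p3 p4
    have hU : Ud d = UU (Lseg (CM M) d) := by
      show Secs (sec d 1) = _
      rw [p3]
      exact hk
    have hemp : (∅ : Set ℕ) ∈ UU (Lseg (CM M) d) := by
      obtain ⟨X, hX⟩ := hgood.2.1
      exact AS.closed C12_as hgood.2.2 (fun _ => 0) (fun _ => X) (fun _ => hX)
    have hS := t11 (Lseg (CM M) d) k hk hgood.1 hemp
    rw [← hdk] at hS
    have hUS : Ud d ⊆ Ss d := by
      show Secs (sec d 1) ⊆ _
      rw [p3]
      exact p2
    refine ⟨hU, by rw [hU]; exact hgood, by rw [hU]; exact hS, hUS, ?_, ?_⟩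
    · intro X
      rw [p3, p4]
      constructor
      · intro hX
        have hX' : X ∈ Secs (pf (Lseg (CM M) d) k) := by
          rw [show Secs (pf (Lseg (CM M) d) k) = UU (Lseg (CM M) d) from hk]
          exact hgood.1 hX
        obtain ⟨a, ha⟩ := hX'
        refine ⟨a, ?_, ha⟩
        show sec (pf (Lseg (CM M) d) k) a ∈ Lseg (CM M) d
        rw [← ha]
        exact hX
      · rintro ⟨a, ha, rfl⟩
        exact ha
    · intro c hc
      constructor
      · intro h
        exact hUS h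
      · intro h
        rw [hU]
        exact hgood.1 ⟨hc, h⟩

end B8d
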