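import Pool.Agent.Lib.MP_8dbd20_lc.Hi.Spec2

/-!
# MP_8dbd20_lc, `Hi/C13`: Claim A
-/

namespace B8d

private theorem C13_as : AS (fun v V => {x | x ∈ V 0 ∨ (x.unpair.1 = v 0 ∧ x.unpair.2 ∈ V 1)}) := by
  aesop (config := { enableSimp := false })

private theorem C13_as0 : AS (fun _ _ => (∅ : Set ℕ)) := AS.empty

private theorem C13_as1 : AS (fun v V => sec (V 0) (v 0)) := by
  aesop (config := { enableSimp := false })

private theorem C13_join {U : Set (Set ℕ)} (hne : U.Nonempty) (hU : ArClosed U) (V : ℕ → Set ℕ)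
    (hV : ∀ i, V i ∈ U) (b : ℕ) :
    {x : ℕ | x.unpair.1 < b ∧ x.unpair.2 ∈ V x.unpair.1} ∈ U := by
  induction b with
  | zero =>
    obtain ⟨X, hX⟩ := hne
    have h := AS.closed C13_as0 hU (fun _ => 0) (fun _ => X) (fun _ => hX)
    have e : {x : ℕ | x.unpair.1 < 0 ∧ x.unpair.2 ∈ V x.unpair.1} = ∅ := by
      apply Set.eq_empty_of_forall_notMem
      intro x hx
      exact Nat.not_lt_zero _ hx.1
    rw [e]
    exact h
  | succ b ih =>
    have h := AS.closed C13_as hU (fun _ => b)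
      (sc {x : ℕ | x.unpair.1 < b ∧ x.unpair.2 ∈ V x.unpair.1} (fun _ => V b)) (by
        intro i
        cases i with
        | zero => exact ih
        | succ i => exact hV b)
    have e : {x : ℕ | x.unpair.1 < b + 1 ∧ x.unpair.2 ∈ V x.unpair.1} =
        {x | x ∈ sc {x : ℕ | x.unpair.1 < b ∧ x.unpair.2 ∈ V x.unpair.1} (fun _ => V b) 0 ∨
          (x.unpair.1 = (fun _ => b) 0 ∧
            x.unpair.2 ∈ sc {x : ℕ | x.unpair.1 < b ∧ x.unpair.2 ∈ V x.unpair.1}
              (fun _ => V b) 1)} := by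
      apply Set.ext
      intro x
      show (x.unpair.1 < b + 1 ∧ x.unpair.2 ∈ V x.unpair.1) ↔
        ((x.unpair.1 < b ∧ x.unpair.2 ∈ V x.unpair.1) ∨ (x.unpair.1 = b ∧ x.unpair.2 ∈ V b))
      constructor
      · rintro ⟨h1, h2⟩
        rcases Nat.lt_succ_iff_lt_or_eq.1 h1 with h3 | h3
        · exact Or.inl ⟨h3, h2⟩
        · right
          rw [h3] at h2
          exact ⟨h3, h2⟩
      · rintro (⟨h1, h2⟩ | ⟨h1, h2⟩)
        · exact ⟨Nat.lt_succ_of_lt h1, h2⟩
        · rw [h1]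
          exact ⟨Nat.lt_succ_self b, h2⟩
    rw [e]
    exact h

theorem pC13 (t2 : S_T2) (c1 : S_C1) (c3 : S_C3) (c4 : S_C4) (c11 : S_C11) (c12 : S_C12) :
    S_C13 := by
  intro M hM φ v V hV
  obtain ⟨c3a, c3b⟩ := c3 M hM
  obtain ⟨hgood, -⟩ := c4 M hM (CM M) (fun _ h => h) c3a
    (fun c hc => ⟨_, (c3b c hc).1, (c3b c hc).2⟩)
  obtain ⟨b, hb⟩ := t2 φ
  have hW := C13_join hgood.2.1 hgood.2.2 V hV b
  obtain ⟨d, hd, hWd, href⟩ := c11 M hM φ _ hW
  obtain ⟨q1, q2, q3, -, -, -⟩ := c12 M hM d hd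
  rw [q1] at q2 q3
  let W : Set ℕ := {x : ℕ | x.unpair.1 < b ∧ x.unpair.2 ∈ V x.unpair.1}
  have hWs : ∀ i < b, sec W i = V i := by
    intro i hi
    apply Set.ext
    intro m
    show ((Nat.pair i m).unpair.1 < b ∧ (Nat.pair i m).unpair.2 ∈ V (Nat.pair i m).unpair.1) ↔ _
    rw [Nat.unpair_pair]
    exact ⟨fun h => h.2, fun h => ⟨hi, h⟩⟩
  let V' : ℕ → Set ℕ := fun i => if i < b then V i else W
  have hV' : ∀ i, V' i ∈ UU (Lseg (CM M) d) := by
    intro i
    by_cases hi : i < b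
    · simp only [V', if_pos hi]
      rw [← hWs i hi]
      exact AS.closed C13_as1 q2.2.2 (fun _ => i) (fun _ => W) (fun _ => hWd)
    · simp only [V', if_neg hi]
      exact hWd
  have h2 : {n | eval (UM M) (CM M) φ (nc n v) V} =
      {n | eval (UU (Lseg (CM M) d)) (Lseg (CM M) d) φ (nc n v) V'} := by
    apply Set.ext
    intro n
    show eval (UM M) (CM M) φ (nc n v) V ↔
      eval (UU (Lseg (CM M) d)) (Lseg (CM M) d) φ (nc n v) V'
    rw [← href (nc n v) V' hV']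
    apply hb
    · intro i _
      rfl
    · intro i hi
      simp only [V', if_pos hi]
  rw [h2]
  refine ⟨d, hd.1, ?_⟩
  rw [q3]
  exact ⟨φ, v, V', hV', rfl⟩

end B8d
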