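import Pool.Agent.Lib.MP_8dbd20_lc.Hi.Spec2

/-!
# Every code is an entry of a hierarchy code of the universe
-/

namespace B8d

private theorem C14_as (h : AS (fun _ V => Zof (V 0) (V 1))) :
    AS (fun _ V => Zof (sec (V 0) 1) (sec (V 0) 2)) := by
  have h1 : AS (fun _ V => sec (V 0) 1) := AS.sec (AS.var 0) (AN.const 1)
  have h2 : AS (fun _ V => sec (V 0) 2) := AS.sec (AS.var 0) (AN.const 2)
  have h3 : ∀ j, AS ((fun j _ V => if j = 0 then sec (V 0) 1 else sec (V 0) 2 :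
      ℕ → (ℕ → ℕ) → (ℕ → Set ℕ) → Set ℕ) j) := by
    intro j
    by_cases hj : j = 0
    · subst hj
      exact h1
    · simp only [if_neg hj]
      exact h2
  have h4 := Ar.subst (R := fun v V => v 0 ∈ Zof (V 0) (V 1)) h
    (f := fun i v _ => v i) (t := fun j _ V => if j = 0 then sec (V 0) 1 else sec (V 0) 2)
    (fun i => AN.var i) h3
  exact h4

theorem pC14 (t10 : S_T10) (c1 : S_C1) (c3 : S_C3) (c4 : S_C4) (c6a : S_C6a) (c11 : S_C11)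
    (c12 : S_C12) : S_C14 := by
  intro M hM c hc
  obtain ⟨c1a, -, c1c, -, -⟩ := c1 M hM
  obtain ⟨hne, hnl⟩ := c3 M hM
  obtain ⟨⟨hCU, -, hU⟩, -⟩ := c4 M hM (CM M) (fun _ h => h) hne
    (fun e he => ⟨_, (hnl e he).1, (hnl e he).2⟩)
  have hCU' : CM M ⊆ UM M := hCU
  have hU' : ArClosed (UM M) := hU
  obtain ⟨d, hd, hcd, -⟩ := c11 M hM F.fls c (hCU' hc)
  obtain ⟨e1, -, -, -, e5, e6⟩ := c12 M hM d hd
  have hcd' : c ∈ Ss d := (e6 c hc).1 (by rw [e1]; exact hcd)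
  have hdU : d ∈ UM M := hCU' hd.1
  have s1 : sec d 1 ∈ UM M :=
    (AS.sec (AS.var 0) (AN.const 1)).closed hU' (fun _ => 0) (fun _ => d) (fun _ => hdU)
  have s2 : sec d 2 ∈ UM M :=
    (AS.sec (AS.var 0) (AN.const 2)).closed hU' (fun _ => 0) (fun _ => d) (fun _ => hdU)
  have sZ : Zof (sec d 1) (sec d 2) ∈ UM M :=
    (C14_as c6a.1).closed hU' (fun _ => 0) (fun _ => d) (fun _ => hdU)
  obtain ⟨-, hH, hE⟩ := c6a.2 M hM (sec d 1) (c1c s1) (sec d 2) (c1c s2) (Lseg (CM M) d)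
    (fun x hx => hx.1) (fun x hx y hy hyx => ⟨hy, t10 x d (c1a d hd.1).1 hx.2 hyx⟩) e5
  refine ⟨_, sZ, hH, ?_⟩
  rw [hE]
  exact ⟨hc, hcd'⟩

end B8d
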