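import Pool.Agent.Lib.MP_8dbd20_lc.Hi.Spec2

/-!
# MP_8dbd20_lc, `Hi/C15`: definable choice in `U`
-/

namespace B8d

private theorem C15_ud (θ : F) : UD (fun U C v V => ∃ X ∈ U,
    eval U C θ (nc (v 0).unpair.1 (fun i => v (i + 1))) (sc X V) ∧ (v 0).unpair.2 ∈ X) := by
  refine UD.exS (R := fun U C X v V =>
    eval U C θ (nc (v 0).unpair.1 (fun i => v (i + 1))) (sc X V) ∧ (v 0).unpair.2 ∈ X) ?_
  refine UD.and ?_ ?_
  · have h0 : UD (fun U C v V => eval U C θ v V) := ⟨θ, fun _ _ _ _ _ _ => Iff.rfl⟩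
    have h1 := UD.subst h0 (f := fun i v _ => nc (v 0).unpair.1 (fun i => v (i + 1)) i)
      (t := fun j _ V => V j) (by
        intro i
        cases i with
        | zero => exact AN.fst (AN.var 0)
        | succ i => exact AN.var (i + 1)) (fun j => AS.var j)
    refine h1.congr fun U C _ v V _ => ?_
    rw [sc_eta]
  · exact UD.mem (AN.snd (AN.var 0)) (AS.var 0)

theorem pC15 (c1 : S_C1) (c3 : S_C3) (c4 : S_C4) (c7 : S_C7) (c13 : S_C13) : S_C15 := by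
  intro M hM φ v V hV hex
  obtain ⟨c3a, c3b⟩ := c3 M hM
  obtain ⟨hgood, -⟩ := c4 M hM (CM M) (fun _ h => h) c3a
    (fun c hc => ⟨_, (c3b c hc).1, (c3b c hc).2⟩)
  obtain ⟨θ, hθ⟩ := c7 φ
  obtain ⟨ψ, hψ⟩ := C15_ud θ
  have hZ := c13 M hM ψ v V hV
  refine ⟨_, hZ, ?_⟩
  intro n
  obtain ⟨t1, t2, t3⟩ := hθ M hM (nc n v) V hV
  obtain ⟨X, hX, hX'⟩ := t3 (hex n)
  have e : sec {n | eval (UM M) (CM M) ψ (nc n v) V} n = X := by
    apply Set.ext
    intro m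
    show eval (UM M) (CM M) ψ (nc (Nat.pair n m) v) V ↔ m ∈ X
    rw [← hψ (UM M) (CM M) hgood (nc (Nat.pair n m) v) V hV]
    show (∃ Y ∈ UM M, eval (UM M) (CM M) θ (nc (Nat.pair n m).unpair.1 (fun i => v i)) (sc Y V) ∧
      (Nat.pair n m).unpair.2 ∈ Y) ↔ m ∈ X
    rw [Nat.unpair_pair]
    constructor
    · rintro ⟨Y, hY, hY', hm⟩
      rw [t2 X hX Y hY hX' hY']
      exact hm
    · intro hm
      exact ⟨X, hX, hX', hm⟩
  rw [e]
  exact t1 X hX hX'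

end B8d
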