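import Pool.Agent.Lib.MP_8dbd20_lc.Hi.Spec2

set_option linter.unusedVariables false

namespace B8d

open Classical in
theorem C16_prim (br1 : S_Br1) (p : ℕ → Prop) (hp : PrimrecPred p) :
    Ar (fun v _ => p (v 0)) := by
  obtain ⟨hd, hp⟩ := hp
  have hf : Primrec (fun n => if p n then 1 else 0) :=
    Primrec.ite (PrimrecPred.of_eq ⟨hd, hp⟩ (fun _ => Iff.rfl)) (Primrec.const 1) (Primrec.const 0)
  obtain ⟨c, hc⟩ := Pool.Agent.Lib.Z2.exists_code_nat hf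
  have h1 := Ar.s20 (R := fun x n => x ∈ c.eval n) (br1 c) (AN.const 1) (AN.var 0)
  refine h1.congr fun v V => ?_
  rw [hc, Part.mem_some_iff]
  by_cases h : p (v 0)
  · simp [h]
  · simp [h]

theorem pC16 (t8 : S_T8) (t9 : S_T9) (t10 : S_T10) (g4 : S_G4) (br1 : S_Br1) (c1 : S_C1)
    (c11 : S_C11) (c12 : S_C12) : S_C16 := by
  intro M hM
  obtain ⟨hcmp, hlin, -, -, -⟩ := c1 M hM
  have hirr : ∀ c ∈ CM M, c ∉ Ss c := by
    intro c hc
    obtain ⟨⟨E, K, rfl⟩, -⟩ := hcmp c hc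
    exact (t9 E K).1
  have htr : ∀ c ∈ CM M, ∀ d ∈ CM M, c ∈ Ss d → Ss c ⊆ Ss d := fun c _ d hd h =>
    t10 c d (hcmp d hd).1 h
  have har : ∀ c ∈ CM M, ArClosed (Ss c) := by
    intro c hc
    obtain ⟨⟨E, K, rfl⟩, -⟩ := hcmp c hc
    exact (t8 E K).1
  refine ⟨hirr, htr, ?_, har, ?_, ?_⟩
  · intro X hX
    obtain ⟨d, hd, hXd, -⟩ := c11 M hM F.fls X hX
    refine ⟨d, hd, ?_⟩
    rw [(c12 M hM d hd).1]
    exact hXd
  · intro c hc p hp
    obtain ⟨⟨E, K, e⟩, -⟩ := hcmp c hc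
    obtain ⟨A, hA⟩ := (t8 E K).2
    rw [← e] at hA
    exact har c hc _ (C16_prim br1 p hp) (fun _ => 0) (fun _ => A) (fun _ => hA)
  · intro d hd F hF hFC hle
    have hsub : ∀ c ∈ F ∪ {d}, c ∈ CM M := by
      rintro c (h | h)
      · exact hFC h
      · rw [Set.mem_singleton_iff.1 h]
        exact hd
    exact g4 F d hF (fun c hc => har c (hsub c hc))
      (fun c hc c' hc' => hlin c (hsub c hc) c' (hsub c' hc'))
      (fun c hc => hirr c (hsub c hc))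
      (fun c hc c' hc' h => htr c (hsub c hc) c' (hsub c' hc') h) hle

end B8d
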