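import Pool.Agent.Lib.MP_8dbd20_lc.Hi.Spec2

set_option linter.unusedVariables false

namespace B8d

open Pool.Agent.Lib.Z2 (Str Dfn DF)

theorem pC17 (br5 : S_Br5) (br6 : S_Br6) (c1 : S_C1) (c3 : S_C3) (c4 : S_C4) (c5b : S_C5b)
    (c8 : S_C8) (c12 : S_C12) (c13 : S_C13) (c14 : S_C14) (c15 : S_C15) (c16 : S_C16) : S_C17 := by
  intro M hM
  obtain ⟨hcmp, hlin, hUM, hprd, hstep⟩ := c1 M hM
  obtain ⟨hne, hnext⟩ := c3 M hM
  have hlast : ∀ c ∈ CM M, ∃ e ∈ CM M, c ∈ Ss e := fun c hc => ⟨_, (hnext c hc).1, (hnext c hc).2⟩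
  obtain ⟨hgood, -⟩ := c4 M hM (CM M) (fun c hc => hc) hne hlast
  have hgood' : Good (UM M) (CM M) := hgood
  obtain ⟨hirr, htr, hlimX, har, hprim, hmg⟩ := c16 M hM
  obtain ⟨b1, b2, b3⟩ := br6 (UM M) (CM M) hgood'
  have hCU : CM M ⊆ UM M := hgood'.1
  refine
    { um := hUM
      good := br5 _ _ hgood'
      comp := ?_
      ac := ?_
      noSurj := ?_
      inh := hne
      lin := hlin
      irr := hirr
      trans := htr
      ssU := ?_
      uSs := ?_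
      least := ?_
      limX := hlimX
      limGood := ?_
      limComp := ?_
      limSub := ?_
      limC := ?_
      mg1 := ?_
      mg2 := ?_
      hc := c14 M hM
      entM := ?_
      ssAr := har
      ssPrim := hprim }
  · intro P hP
    obtain ⟨ψ, A, hA, h⟩ := b1 P hP
    have h1 := c13 M hM ψ (fun _ => 0) (fun _ => A) (fun _ => hA)
    have e : {n | P n} = {n | eval (UM M) (CM M) ψ (nc n fun _ => 0) (fun _ => A)} :=
      Set.ext fun n => h n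
    rw [e]
    exact h1
  · intro P hP hex
    obtain ⟨ψ, A, hA, h⟩ := b2 P hP
    obtain ⟨Z, hZ, hZ'⟩ := c15 M hM ψ (fun _ => 0) (fun _ => A) (fun _ => hA) (by
      intro n
      obtain ⟨X, hX, hPX⟩ := hex n
      exact ⟨X, hX, (h n X hX).1 hPX⟩)
    refine ⟨Z, hZ, fun n => (h n _ ?_).2 (hZ' n)⟩
    have h1 : AS (fun v V => sec (V 0) (v 0)) := by aesop (config := { enableSimp := false })
    exact AS.closed h1 hgood'.2.2 (fun _ => n) (fun _ => Z) (fun _ => hZ)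
  · intro P hP hfun hsur
    obtain ⟨ψ, A, hA, h⟩ := b2 P hP
    obtain ⟨d, hd, hbd⟩ := c8 M hM ψ (fun _ => 0) (fun _ => A) (fun _ => hA) (by
      intro n c hc d hd h1 h2
      exact hfun n c hc d hd ((h n c (hCU hc)).2 h1) ((h n d (hCU hd)).2 h2))
    obtain ⟨h1, h2⟩ := hnext d hd
    obtain ⟨n, hn⟩ := hsur _ h1
    have h3 := hbd n _ h1 ((h n _ (hCU h1)).1 hn)
    exact hirr d hd (htr _ h1 d hd h3 h2)
  · intro c hc X hX
    exact ⟨c, hc, hX⟩
  · rintro X ⟨c, hc, hX⟩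
    exact ⟨c, hc, hX⟩
  · intro P hP hex
    obtain ⟨ψ, A, hA, h⟩ := b3 P hP
    obtain ⟨c, hc, hPc⟩ := hex
    obtain ⟨c', hc', h1, h2⟩ := (c5b M hM ψ (fun _ => 0) (fun _ => A) (fun _ => hA)).2
      ⟨c, hc, (h c (hCU hc)).1 hPc⟩
    exact ⟨c', hc', (h c' (hCU hc')).2 h1, fun d hd hPd => h2 d hd ((h d (hCU hd)).1 hPd)⟩
  · intro d hd
    exact br5 _ _ (c12 M hM d hd).2.1
  · intro d hd P hP
    obtain ⟨e1, hg, e2, hsub, -, -⟩ := c12 M hM d hd
    obtain ⟨ψ, A, hA, h⟩ := (br6 (Ud d) (Lseg (CM M) d) hg).1 P hP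
    rw [e2]
    exact ⟨ψ, fun _ => 0, fun _ => A, fun _ => hA, Set.ext fun n => h n⟩
  · intro d hd
    exact (c12 M hM d hd).2.2.2.1
  · intro d hd
    exact (c12 M hM d hd).2.2.2.2.2
  · intro d hd F hF hFC hle
    exact (hmg d hd F hF hFC hle).1
  · intro d hd F hF hFC hle
    exact (hmg d hd F hF hFC hle).2
  · intro Z hZ hH X hX
    exact ⟨Z, hZ, hH, hX⟩

end B8d
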