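import Pool.Agent.Lib.MP_8dbd20_lc.Hi.Spec2

set_option linter.unusedVariables false

namespace B8d

theorem C2_arc {M : Set (Set ℕ)} (h : Mod2 M) : ArClosed M := by
  rintro R ⟨φ, ha, hφ⟩ v V hV
  have h1 := h.2 φ v V hV
  have e : {n | R (nc n v) V} = {n | eval M ∅ φ (nc n v) V} := by
    ext n
    exact (hφ _ _).trans (eval_arith ha _ _ _ _ _ _)
  rw [e]
  exact h1

theorem pC2 (l1 : S_L1) (c1 : S_C1) : S_C2 := by
  intro M hM A hA hne hdef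
  obtain ⟨-, hlin, -, hprd, -⟩ := c1 M hM
  obtain ⟨c0, hc0⟩ := hne
  obtain ⟨Z, hZ, hH, i0, hi0, rfl⟩ := hA hc0
  have hRM : sec Z 0 ∈ M := by
    have h : AS (fun _ V => sec (V 0) 0) := by aesop (config := { enableSimp := false })
    exact AS.closed h (C2_arc hM) (fun _ => 0) (fun _ => Z) (fun _ => hZ)
  obtain ⟨i, hi, hmin⟩ := l1 M (C2_arc hM) (sec Z 0) hRM hH.1.1 hH.2 _ (hdef Z hZ)
    ⟨i0, hi0, hc0⟩ (fun i hi => hi.1)
  refine ⟨sec Z (i + 1), hi.2, fun d hd => ?_⟩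
  rcases hlin d (hA hd) (sec Z (i + 1)) (hA hi.2) with h | h | h
  · exact Or.inl h
  · exfalso
    have h1 : d ∈ Prd Z i := by
      rw [hprd Z hZ hH i hi.1]
      exact ⟨hA hd, h⟩
    obtain ⟨j, hj, rfl⟩ := h1
    exact hj.2 (hH.1.1.2.1 j i hj.1 (hmin j ⟨(hH.1.1.1 j i hj.1).1, hd⟩))
  · exact Or.inr h

end B8d
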