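import Pool.Agent.Lib.MP_8dbd20_lc.Hi.Spec2

set_option linter.unusedVariables false

namespace B8d

theorem C3_arc {M : Set (Set ℕ)} (h : Mod2 M) : ArClosed M := by
  rintro R ⟨φ, ha, hφ⟩ v V hV
  have h1 := h.2 φ v V hV
  have e : {n | R (nc n v) V} = {n | eval M ∅ φ (nc n v) V} := by
    ext n
    exact (hφ _ _).trans (eval_arith ha _ _ _ _ _ _)
  rw [e]
  exact h1

theorem pC3 (t9 : S_T9) (l2 : S_L2) (l5 : S_L5) (l6 : S_L6) (l7 : S_L7) : S_C3 := by
  intro M hM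
  have hA := C3_arc hM
  obtain ⟨X0, hX0⟩ := hM.1
  have he : (∅ : Set ℕ) ∈ M := AS.closed AS.empty hA (fun _ => 0) (fun _ => X0) (fun _ => hX0)
  constructor
  · have hE : Ent (∅ : Set ℕ) = ∅ := by
      ext X
      constructor
      · rintro ⟨i, hi, -⟩
        exact (Set.notMem_empty _ hi).elim
      · exact fun h => (Set.notMem_empty _ h).elim
    have hH : HCin M (∅ : Set ℕ) := by
      refine ⟨⟨⟨?_, ?_, ?_, ?_⟩, ?_⟩, ?_⟩
      · exact fun i j h => (Set.notMem_empty _ h).elim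
      · exact fun i j h => (Set.notMem_empty _ h).elim
      · exact fun i j k h => (Set.notMem_empty _ h).elim
      · exact fun i j h => (Set.notMem_empty _ h).elim
      · exact fun i h => (Set.notMem_empty _ h).elim
      · rintro f hf ⟨h1, h2⟩
        obtain ⟨x, hx⟩ := h1 0
        obtain ⟨y, hy⟩ := h1 (0 + 1)
        exact (Set.notMem_empty _ (h2 0 x y hx hy).1).elim
    obtain ⟨Z', hZ', hH', hE'⟩ := l5 M hA ∅ he hH (Cmp ∅ ∅) (l7 M hM ∅ he ∅ he)
      (Or.inl ⟨hE, rfl⟩)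
    refine ⟨Cmp ∅ ∅, Z', hZ', hH', ?_⟩
    rw [hE']
    exact Or.inr rfl
  · rintro c ⟨Z, hZ, hH, i, hi, rfl⟩
    have hcM : sec Z (i + 1) ∈ M := by
      have h1 : AS (fun v V => sec (V 0) (v 0)) := by aesop (config := { enableSimp := false })
      exact AS.closed h1 hA (fun _ => i + 1) (fun _ => Z) (fun _ => hZ)
    have hcst : cst (sec Z (i + 1)) ∈ M := by
      have h1 : AS (fun _ V => cst (V 0)) := by
        unfold cst
        aesop (config := { enableSimp := false })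
      exact AS.closed h1 hA (fun _ => 0) (fun _ => sec Z (i + 1)) (fun _ => hcM)
    obtain ⟨⟨Z₁, hZ₁, hH₁, hE₁⟩, -⟩ := l6 M hA Z hZ hH i hi
    have hst : Step (Ent Z₁) (Cmp (cst (sec Z (i + 1))) ∅) := by
      refine Or.inr (Or.inl ⟨sec Z (i + 1), ?_, ?_, rfl⟩)
      · rw [hE₁]
        exact Or.inr rfl
      · intro e he
        rw [hE₁] at he
        rcases he with ⟨j, hj, rfl⟩ | he
        · exact Or.inr (((l2 Z hH.1).2 j (hH.1.1.1 j i hj.1).1 i hi).1.1 hj)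
        · exact Or.inl he
    obtain ⟨Z', hZ', hH', hE'⟩ := l5 M hA Z₁ hZ₁ hH₁ _ (l7 M hM _ hcst ∅ he) hst
    refine ⟨⟨Z', hZ', hH', ?_⟩, ?_⟩
    · rw [hE']
      exact Or.inr rfl
    · apply (t9 (cst (sec Z (i + 1))) ∅).2.1
      refine ⟨0, ?_⟩
      ext m
      show m ∈ sec Z (i + 1) ↔ (Nat.pair 0 m).unpair.2 ∈ sec Z (i + 1)
      rw [Nat.unpair_pair]

end B8d
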