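import Pool.Agent.Lib.MP_8dbd20_lc.Hi.Spec2

set_option linter.unusedVariables false

namespace B8d

open Classical in
theorem pC4 (t2 : S_T2) (t8 : S_T8) (t10 : S_T10) (c1 : S_C1) : S_C4 := by
  intro M hM S hS hne hlast
  obtain ⟨hcmp, hlin, -, -, -⟩ := c1 M hM
  have hfin : ∀ (b : ℕ) (W : ℕ → Set ℕ), (∀ i < b, W i ∈ UU S) →
      ∃ c ∈ S, ∀ i < b, W i ∈ Ss c := by
    intro b W
    induction b with
    | zero =>
      intro _
      obtain ⟨c, hc⟩ := hne
      exact ⟨c, hc, fun i hi => absurd hi (Nat.not_lt_zero i)⟩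
    | succ b ih =>
      intro hW
      obtain ⟨c, hc, h⟩ := ih (fun i hi => hW i (Nat.lt_succ_of_lt hi))
      obtain ⟨c', hc', h'⟩ := hW b (Nat.lt_succ_self b)
      rcases hlin c (hS hc) c' (hS hc') with e | e | e
      · subst e
        refine ⟨c, hc, fun i hi => ?_⟩
        rcases Nat.lt_succ_iff_lt_or_eq.1 hi with h1 | h1
        · exact h i h1
        · rw [h1]
          exact h'
      · refine ⟨c', hc', fun i hi => ?_⟩
        rcases Nat.lt_succ_iff_lt_or_eq.1 hi with h1 | h1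
        · exact t10 c c' (hcmp c' (hS hc')).1 e (h i h1)
        · rw [h1]
          exact h'
      · refine ⟨c, hc, fun i hi => ?_⟩
        rcases Nat.lt_succ_iff_lt_or_eq.1 hi with h1 | h1
        · exact h i h1
        · rw [h1]
          exact t10 c' c (hcmp c (hS hc)).1 e h'
  refine ⟨⟨?_, ?_, ?_⟩, hfin⟩
  · intro c hc
    obtain ⟨e, he, hce⟩ := hlast c hc
    exact ⟨e, he, hce⟩
  · obtain ⟨c, hc⟩ := hne
    obtain ⟨e, he, hce⟩ := hlast c hc
    exact ⟨c, e, he, hce⟩
  · rintro R ⟨φ, ha, hφ⟩ v V hV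
    obtain ⟨b, hb⟩ := t2 φ
    obtain ⟨c, hc, hVc⟩ := hfin b V (fun i _ => hV i)
    obtain ⟨⟨E, K, e⟩, -⟩ := hcmp c (hS hc)
    obtain ⟨hAr, ⟨A, hAc⟩⟩ := t8 E K
    rw [← e] at hAr hAc
    have h1 := hAr R ⟨φ, ha, hφ⟩ v (fun i => if i < b then V i else A) (by
      intro i
      show (if i < b then V i else A) ∈ Ss c
      by_cases hi : i < b
      · rw [if_pos hi]
        exact hVc i hi
      · rw [if_neg hi]
        exact hAc)
    refine ⟨c, hc, ?_⟩
    have h2 : {n | R (nc n v) V} = {n | R (nc n v) (fun i => if i < b then V i else A)} := by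
      ext n
      refine (hφ _ _).trans (Iff.trans ?_ (hφ _ _).symm)
      refine hb ∅ ∅ _ _ _ _ (fun i _ => rfl) (fun i hi => ?_)
      show V i = (if i < b then V i else A)
      rw [if_pos hi]
    rw [h2]
    exact h1

end B8d
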