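import Pool.Agent.Lib.MP_8dbd20_lc.Hi.Spec2

set_option linter.unusedVariables false

namespace B8d

theorem C5_arc {M : Set (Set ℕ)} (h : Mod2 M) : ArClosed M := by
  rintro R ⟨φ, ha, hφ⟩ v V hV
  have h1 := h.2 φ v V hV
  have e : {n | R (nc n v) V} = {n | eval M ∅ φ (nc n v) V} := by
    ext n
    exact (hφ _ _).trans (eval_arith ha _ _ _ _ _ _)
  rw [e]
  exact h1

theorem C5_good {M : Set (Set ℕ)} (h : Mod2 M) : Good M ∅ :=
  ⟨Set.empty_subset _, h.1, C5_arc h⟩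

/-- the class of codes, as a relation -/
def C5_R (U : Set (Set ℕ)) (X : Set ℕ) : Prop :=
  ∃ Z ∈ U, (Local Z ∧ ∀ f ∈ U, ¬ Desc f (sec Z 0)) ∧ X ∈ Ent Z

theorem C5_ud (l0 : S_L0) (l0b : S_L0b) : UD (fun U C v V => C5_R U (V 0)) := by
  obtain ⟨h1, h2, h3, -, -, -⟩ := l0b
  refine UD.exS (R := fun U C Z v V => (Local Z ∧ ∀ f ∈ U, ¬ Desc f (sec Z 0)) ∧ V 0 ∈ Ent Z) ?_
  refine UD.and (UD.and l0.ud ?_) ?_
  · refine UD.allS (R := fun U C f v V => ¬ Desc f (sec (V 0) 0)) ?_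
    refine UD.not (Ar.ud ?_)
    exact Ar.s02 (R := fun f R => Desc f R) h3 (AS.var 0) (AS.sec (AS.var 1) (AN.const 0))
  · exact Ar.ud (Ar.s02 (R := fun X Z => X ∈ Ent Z) h2 (AS.var 1) (AS.var 0))

theorem pC5 (l0 : S_L0) (l0b : S_L0b) (c1 : S_C1) : S_C5 := by
  have hC : ∃ ψ : F, ∀ M, Mod2 M → ∀ v V, (∀ i, V i ∈ M) → (V 0 ∈ CM M ↔ eval M ∅ ψ v V) := by
    obtain ⟨ψ, hψ⟩ := C5_ud l0 l0b
    exact ⟨ψ, fun M hM v V hV => hψ M ∅ (C5_good hM) v V hV⟩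
  have hU : ∃ ψ : F, ∀ M, Mod2 M → ∀ v V, (∀ i, V i ∈ M) → (V 0 ∈ UM M ↔ eval M ∅ ψ v V) := by
    have h : UD (fun U C v V => ∃ c ∈ U, C5_R U c ∧ V 0 ∈ Ss c) := by
      refine UD.exS (R := fun U C c v V => C5_R U c ∧ V 0 ∈ Ss c) ?_
      refine UD.and (C5_ud l0 l0b) (Ar.ud ?_)
      exact Ar.s02 (R := fun X c => X ∈ Ss c) l0b.1 (AS.var 1) (AS.var 0)
    obtain ⟨ψ, hψ⟩ := h
    refine ⟨ψ, fun M hM v V hV => ?_⟩
    rw [← hψ M ∅ (C5_good hM) v V hV]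
    constructor
    · rintro ⟨c, hc, hX⟩
      exact ⟨c, ((c1 M hM).1 c hc).2, hc, hX⟩
    · rintro ⟨c, -, hc, hX⟩
      exact ⟨c, hc, hX⟩
  refine ⟨hC, hU, ?_⟩
  obtain ⟨ψC, hψC⟩ := hC
  obtain ⟨ψU, hψU⟩ := hU
  intro φ
  induction φ with
  | fls => exact ⟨.fls, fun _ _ _ _ _ => Iff.rfl⟩
  | add i j k => exact ⟨.add i j k, fun _ _ _ _ _ => Iff.rfl⟩
  | mul i j k => exact ⟨.mul i j k, fun _ _ _ _ _ => Iff.rfl⟩
  | mem i j => exact ⟨.mem i j, fun _ _ _ _ _ => Iff.rfl⟩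
  | cc j =>
    refine ⟨ψC.ren (fun i => i) (fun _ => j), fun M hM v V hV => ?_⟩
    rw [eval_ren]
    exact hψC M hM _ (fun _ => V j) (fun _ => (c1 M hM).2.2.1 (hV j))
  | neg φ ih =>
    obtain ⟨ψ, hψ⟩ := ih
    exact ⟨.neg ψ, fun M hM v V hV => not_congr (hψ M hM v V hV)⟩
  | and φ₁ φ₂ ih1 ih2 =>
    obtain ⟨ψ₁, hψ₁⟩ := ih1
    obtain ⟨ψ₂, hψ₂⟩ := ih2
    exact ⟨.and ψ₁ ψ₂, fun M hM v V hV => and_congr (hψ₁ M hM v V hV) (hψ₂ M hM v V hV)⟩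
  | allN φ ih =>
    obtain ⟨ψ, hψ⟩ := ih
    exact ⟨.allN ψ, fun M hM v V hV => forall_congr' fun n => hψ M hM (nc n v) V hV⟩
  | allS φ ih =>
    obtain ⟨ψ, hψ⟩ := ih
    refine ⟨.allS (.neg (.and ψU (.neg ψ))), fun M hM v V hV => ?_⟩
    have hUM := (c1 M hM).2.2.1
    constructor
    · intro H X hX
      have h1 := hψU M hM v (sc X V) (by
        intro i
        cases i
        · exact hX
        · exact hUM (hV _))
      rintro ⟨h2, h3⟩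
      have h4 : X ∈ UM M := h1.2 h2
      refine h3 ((hψ M hM v (sc X V) ?_).1 (H X h4))
      intro i
      cases i
      · exact h4
      · exact hV _
    · intro H X hX
      have h1 := hψU M hM v (sc X V) (by
        intro i
        cases i
        · exact hUM hX
        · exact hUM (hV _))
      refine (hψ M hM v (sc X V) ?_).2 ?_
      · intro i
        cases i
        · exact hX
        · exact hV _
      · by_contra h3
        exact H X (hUM hX) ⟨h1.1 hX, h3⟩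

end B8d
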