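import Pool.Agent.Lib.MP_8dbd20_lc.Hi.Spec2

set_option linter.unusedVariables false

namespace B8d

theorem C5b_arc {M : Set (Set ℕ)} (h : Mod2 M) : ArClosed M := by
  rintro R ⟨φ, ha, hφ⟩ v V hV
  have h1 := h.2 φ v V hV
  have e : {n | R (nc n v) V} = {n | eval M ∅ φ (nc n v) V} := by
    ext n
    exact (hφ _ _).trans (eval_arith ha _ _ _ _ _ _)
  rw [e]
  exact h1

theorem C5b_ud (ψC ψ : F) : UD (fun U C v V => Nat.pair (v 0) (v 0) ∈ sec (V 0) 0 ∧
    eval U C ψC (fun i => v (i + 1)) (sc (sec (V 0) (v 0 + 1)) (fun i => V (i + 1))) ∧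
    eval U C ψ (fun i => v (i + 1)) (sc (sec (V 0) (v 0 + 1)) (fun i => V (i + 1)))) := by
  have hsec : AS (fun v V => sec (V 0) (v 0 + 1)) := by aesop (config := { enableSimp := false })
  have key : ∀ θ : F, UD (fun U C v V =>
      eval U C θ (fun i => v (i + 1)) (sc (sec (V 0) (v 0 + 1)) (fun i => V (i + 1)))) := by
    intro θ
    have h0 : UD (fun U C v V => eval U C θ v V) := ⟨θ, fun _ _ _ _ _ _ => Iff.rfl⟩
    have h1 := UD.subst h0 (f := fun i v _ => v (i + 1))
      (t := fun j v V => sc (sec (V 0) (v 0 + 1)) (fun i => V (i + 1)) j)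
      (fun i => AN.var _) (by
        intro j
        cases j
        · exact hsec
        · exact AS.var _)
    exact h1
  refine UD.and (Ar.ud ?_) (UD.and (key ψC) (key ψ))
  aesop (config := { enableSimp := false })

theorem pC5b (c1 : S_C1) (c2 : S_C2) (c3 : S_C3) (c5 : S_C5) : S_C5b := by
  intro M hM φ v V hV
  obtain ⟨h1, hlin, hUM, hprd, hstep⟩ := c1 M hM
  obtain ⟨⟨ψC, hψC⟩, -, hform⟩ := c5
  obtain ⟨ψ, hψ⟩ := hform φ
  have hVM : ∀ i, V i ∈ M := fun i => hUM (hV i)
  have hCU : ∀ c ∈ CM M, c ∈ UM M := by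
    intro c hc
    obtain ⟨h2, h3⟩ := (c3 M hM).2 c hc
    exact ⟨_, h2, h3⟩
  constructor
  · have e : {n | eval (UM M) (CM M) φ (nc n v) V} = {n | eval M ∅ ψ (nc n v) V} := by
      ext n
      exact hψ M hM (nc n v) V hV
    rw [e]
    exact hM.2 ψ v V hVM
  · rintro ⟨c0, hc0, hφ0⟩
    set A : Set (Set ℕ) := {c | c ∈ CM M ∧ eval (UM M) (CM M) φ v (sc c V)} with hA
    obtain ⟨θ, hθ⟩ := C5b_ud ψC ψ
    obtain ⟨c, hc, hmin⟩ := c2 M hM A (fun c hc => hc.1) ⟨c0, hc0, hφ0⟩ (by
      intro Z hZ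
      have h2 := hM.2 θ v (sc Z V) (by
        intro i
        cases i
        · exact hZ
        · exact hVM _)
      have e : {i | i ∈ fld Z ∧ sec Z (i + 1) ∈ A} = {n | eval M ∅ θ (nc n v) (sc Z V)} := by
        ext n
        have h3 := hθ M ∅ ⟨Set.empty_subset _, hM.1, C5b_arc hM⟩ (nc n v) (sc Z V) (by
          intro i
          cases i
          · exact hZ
          · exact hVM _)
        refine Iff.trans ?_ h3
        have hsM : sec Z (n + 1) ∈ M := by
          have h1 : AS (fun v V => sec (V 0) (v 0)) := by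
            aesop (config := { enableSimp := false })
          exact AS.closed h1 (C5b_arc hM) (fun _ => n + 1) (fun _ => Z) (fun _ => hZ)
        refine and_congr Iff.rfl ?_
        have h4 := hψC M hM v (sc (sec Z (n + 1)) V) (by
          intro i
          cases i
          · exact hsM
          · exact hVM _)
        constructor
        · rintro ⟨a1, a2⟩
          refine ⟨h4.1 a1, (hψ M hM v (sc (sec Z (n + 1)) V) ?_).1 a2⟩
          intro i
          cases i
          · exact hCU _ a1
          · exact hV _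
        · rintro ⟨a1, a2⟩
          have a3 : sec Z (n + 1) ∈ CM M := h4.2 a1
          refine ⟨a3, (hψ M hM v (sc (sec Z (n + 1)) V) ?_).2 a2⟩
          intro i
          cases i
          · exact hCU _ a3
          · exact hV _
      rw [e]
      exact h2)
    exact ⟨c, hc.1, hc.2, fun d hd hφd => hmin d ⟨hd, hφd⟩⟩

end B8d
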