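import Pool.Agent.Lib.MP_8dbd20_lc.Hi.Spec2

/-! C45, block Hi: C6 (MP_8dbd20_lc) -/

set_option linter.unusedVariables false

namespace B8d

private theorem C6_ar {M : Set (Set ℕ)} (hM : Mod2 M) : ArClosed M := by
  rintro R ⟨φ, ha, hφ⟩ v V hV
  have h := hM.2 φ v V hV
  have e : {n | R (nc n v) V} = {n | eval M ∅ φ (nc n v) V} := by
    ext n
    simp only [Set.mem_ofPred_eq]
    exact (hφ _ _).trans (eval_arith ha _ _ _ _ _ _)
  rw [e]; exact h

theorem pC6 (t9 : S_T9) (l5 : S_L5) (l7 : S_L7) (c3 : S_C3) (c4 : S_C4) (c5 : S_C5)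
    (c5b : S_C5b) (c6a : S_C6a) : S_C6 := by
  intro M hM hex
  classical
  have hArM := C6_ar hM
  have hGM : Good M ∅ := ⟨fun _ h => h.elim, hM.1, hArM⟩
  set k := Nat.find hex with hkdef
  have hk : Enu (CM M) k := Nat.find_spec hex
  have hkmin : ∀ k' < k, ¬ Enu (CM M) k' := fun k' h => Nat.find_min hex h
  clear_value k
  obtain ⟨hne, hlast⟩ := c3 M hM
  have hlim : ∀ c ∈ CM M, ∃ e ∈ CM M, c ∈ Ss e := fun c hc => ⟨_, (hlast c hc).1, (hlast c hc).2⟩
  obtain ⟨hG, -⟩ := c4 M hM (CM M) (fun _ h => h) hne hlim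
  obtain ⟨hCU, ⟨U0, hU0⟩, hArU⟩ := hG
  have hemp : (∅ : Set ℕ) ∈ UM M := by
    have h := hArU (fun _ _ => False) Ar.fls (fun _ => 0) (fun _ => U0) (fun _ => hU0)
    have e : {n : ℕ | False} = ∅ := by ext; simp
    rw [e] at h; exact h
  set E := pf (CM M) k with hE
  have hEM : E ∈ M := (c5b M hM (dec k) (fun _ => 0) (fun _ => ∅) (fun _ => hemp)).1
  have hK : {a | sec E a ∈ CM M} ∈ M := by
    obtain ⟨ψ, hψ⟩ := c5.1
    have hud : UD (fun U C v V => eval U C ψ v V) := ⟨ψ, fun _ _ _ _ _ _ => Iff.rfl⟩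
    have ht : ∀ j, AS (fc (fun v V => sec (V 0) (v 0)) (fun j _ V => V j) j) :=
      fc_all (p := AS) (AS.sec (AS.var 0) (AN.var 0)) (fun j => AS.var j)
    obtain ⟨χ, hχ⟩ := UD.subst hud (f := fun i v _ => v i) (fun i => AN.var i) ht
    have h := hM.2 χ (fun _ => 0) (fun _ => E) (fun _ => hEM)
    have e : {a | sec E a ∈ CM M} = {n | eval M ∅ χ (nc n (fun _ => 0)) (fun _ => E)} := by
      ext a
      simp only [Set.mem_ofPred_eq]
      have e1 := hχ M ∅ hGM (nc a (fun _ => 0)) (fun _ => E) (fun _ => hEM)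
      have e2 := hψ M hM (nc a (fun _ => 0))
        (fun j => fc (fun v V => sec (V 0) (v 0)) (fun j _ V => V j) j (nc a (fun _ => 0)) (fun _ => E))
        (fun j => (ht j).closed hArM _ _ (fun _ => hEM))
      exact e2.trans e1
    rw [e]; exact h
  set K : Set ℕ := {a | sec E a ∈ CM M} with hKdef
  have hc : Cmp E K ∈ M := l7 M hM E hEM K hK
  have hstep : Step (CM M) (Cmp E K) := Or.inr (Or.inr ⟨hne, hlim, k, hk, hkmin, rfl⟩)
  have hUE : Secs E = UU (CM M) := hk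
  obtain ⟨hZ, hHC, hEnt⟩ := c6a.2 M hM E hEM K hK (CM M) (fun _ h => h) (fun _ _ d hd _ => hd) (by
    intro X
    constructor
    · intro hX
      have h1 : X ∈ Secs E := by rw [hUE]; exact hCU hX
      obtain ⟨a, ha⟩ := h1
      refine ⟨a, ?_, ha⟩
      show sec E a ∈ CM M
      rw [← ha]; exact hX
    · rintro ⟨a, ha, rfl⟩
      exact ha)
  rw [← hEnt] at hstep
  obtain ⟨Z', hZ', hHC', hEnt'⟩ := l5 M hArM _ hZ hHC _ hc hstep
  have hcC : Cmp E K ∈ CM M := ⟨Z', hZ', hHC', by rw [hEnt']; exact Or.inr rfl⟩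
  have h1 : Cmp E K ∈ Secs E := by rw [hUE]; exact hCU hcC
  exact (t9 E K).1 ((t9 E K).2.1 h1)

end B8d
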