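import Pool.Agent.Lib.MP_8dbd20_lc.Hi.Spec2

/-!
# MP_8dbd20_lc, Hi/C6a: hierarchy codes from enumerations (helper7)
-/

set_option linter.unusedVariables false

namespace B8d

theorem C6a_arc {M : Set (Set ℕ)} (hM : Mod2 M) : ArClosed M := by
  rintro R ⟨φ, ha, hφ⟩ v V hV
  have h := hM.2 φ v V hV
  have e : {n | R (nc n v) V} = {n | eval M ∅ φ (nc n v) V} := by
    ext n
    show R (nc n v) V ↔ eval M ∅ φ (nc n v) V
    rw [hφ, eval_arith ha ∅ ∅ M ∅]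
  rw [e]
  exact h

theorem C6a_as : AS (fun _ V => Zof (V 0) (V 1)) := by
  have h : AS (fun _ V => {x | (x.unpair.1 = 0 ∧
      (x.unpair.2.unpair.1 ∈ V 1 ∧ ∀ b, b < x.unpair.2.unpair.1 → b ∈ V 1 →
        sec (V 0) b ≠ sec (V 0) x.unpair.2.unpair.1) ∧
      (x.unpair.2.unpair.2 ∈ V 1 ∧ ∀ b, b < x.unpair.2.unpair.2 → b ∈ V 1 →
        sec (V 0) b ≠ sec (V 0) x.unpair.2.unpair.2) ∧
      (x.unpair.2.unpair.1 = x.unpair.2.unpair.2 ∨
        ∃ n, sec (V 0) x.unpair.2.unpair.1 = sec (sec (sec (V 0) x.unpair.2.unpair.2) 0) n)) ∨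
    (0 < x.unpair.1 ∧ x.unpair.2 ∈ sec (V 0) (x.unpair.1 - 1))}) := by
    aesop (config := { enableSimp := false })
  exact h

theorem C6a_0 (E K : Set ℕ) (a b : ℕ) :
    Nat.pair a b ∈ sec (Zof E K) 0 ↔ a ∈ KL E K ∧ b ∈ KL E K ∧ (a = b ∨ sec E a ∈ Ss (sec E b)) := by
  show Nat.pair 0 (Nat.pair a b) ∈ Zof E K ↔ _
  simp only [Zof, Set.mem_ofPred_eq, Nat.unpair_pair]
  constructor
  · rintro (⟨-, h⟩ | ⟨h, -⟩)
    · exact h
    · omega
  · intro h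
    exact Or.inl ⟨trivial, h⟩

theorem C6a_1 (E K : Set ℕ) (i : ℕ) : sec (Zof E K) (i + 1) = sec E i := by
  ext m
  show Nat.pair (i + 1) m ∈ Zof E K ↔ _
  simp only [Zof, Set.mem_ofPred_eq, Nat.unpair_pair]
  constructor
  · rintro (⟨h, -⟩ | ⟨-, h⟩)
    · omega
    · exact h
  · intro h
    exact Or.inr ⟨by omega, h⟩

theorem C6a_uniq {E K : Set ℕ} {a b : ℕ} (ha : a ∈ KL E K) (hb : b ∈ KL E K)
    (h : sec E a = sec E b) : a = b := by
  rcases lt_trichotomy a b with h1 | h1 | h1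
  · exact absurd h (hb.2 a h1 ha.1)
  · exact h1
  · exact absurd h.symm (ha.2 b h1 hb.1)

theorem C6a_ex {E K : Set ℕ} {X : Set ℕ} (h : ∃ a ∈ K, X = sec E a) : ∃ a ∈ KL E K, X = sec E a := by
  classical
  refine ⟨Nat.find h, ⟨(Nat.find_spec h).1, fun b hb hbK he => ?_⟩, (Nat.find_spec h).2⟩
  exact Nat.find_min h hb ⟨hbK, (Nat.find_spec h).2.trans he.symm⟩

theorem pC6a (t9 : S_T9) (t10 : S_T10) (c1 : S_C1) (c2 : S_C2) : S_C6a := by
  refine ⟨C6a_as, fun M hM E hE K hK S hS hdown hSe => ?_⟩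
  have hAr := C6a_arc hM
  obtain ⟨hc, hlin, -, -, hstep⟩ := c1 M hM
  have hKLS : ∀ a ∈ KL E K, sec E a ∈ S := fun a ha => (hSe _).2 ⟨a, ha.1, rfl⟩
  have hirr : ∀ c ∈ S, c ∉ Ss c := by
    intro c hcS
    obtain ⟨E', K', e⟩ := (hc c (hS hcS)).1
    rw [e]
    exact (t9 E' K').1
  have htr : ∀ c, ∀ d ∈ S, c ∈ Ss d → Ss c ⊆ Ss d := fun c d hd h => t10 c d (hc d (hS hd)).1 h
  have hfld : ∀ i, i ∈ fld (Zof E K) ↔ i ∈ KL E K := by
    intro i
    show Nat.pair i i ∈ sec (Zof E K) 0 ↔ _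
    rw [C6a_0]
    exact ⟨fun h => h.1, fun h => ⟨h, h, Or.inl rfl⟩⟩
  have hZM : Zof E K ∈ M := AS.closed C6a_as hAr (fun _ => 0) (sc E (fun _ => K)) (by
    intro i
    cases i
    · exact hE
    · exact hK)
  refine ⟨hZM, ⟨⟨⟨?_, ?_, ?_, ?_⟩, ?_⟩, ?_⟩, ?_⟩
  · intro i j hij
    rw [C6a_0] at hij
    rw [C6a_0, C6a_0]
    exact ⟨⟨hij.1, hij.1, Or.inl rfl⟩, ⟨hij.2.1, hij.2.1, Or.inl rfl⟩⟩
  · intro i j hij hji
    rw [C6a_0] at hij hji
    by_contra hne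
    have h1 : sec E i ∈ Ss (sec E j) := hij.2.2.resolve_left hne
    have h2 : sec E j ∈ Ss (sec E i) := hji.2.2.resolve_left (fun h => hne h.symm)
    exact hirr _ (hKLS i hij.1) (htr _ _ (hKLS i hij.1) h2 h1)
  · intro i j k hij hjk
    rw [C6a_0] at hij hjk ⊢
    refine ⟨hij.1, hjk.2.1, ?_⟩
    rcases hij.2.2 with rfl | h1
    · exact hjk.2.2
    · rcases hjk.2.2 with rfl | h2
      · exact Or.inr h1
      · exact Or.inr (htr _ _ (hKLS k hjk.2.1) h2 h1)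
  · intro i j hi hj
    rw [C6a_0] at hi hj ⊢
    rw [C6a_0]
    rcases hlin _ (hS (hKLS i hi.1)) _ (hS (hKLS j hj.1)) with h | h | h
    · exact Or.inl ⟨hi.1, hj.1, Or.inl (C6a_uniq hi.1 hj.1 h)⟩
    · exact Or.inl ⟨hi.1, hj.1, Or.inr h⟩
    · exact Or.inr ⟨hj.1, hi.1, Or.inr h⟩
  · intro i hi
    rw [hfld] at hi
    have hP : Prd (Zof E K) i = Lseg (CM M) (sec E i) := by
      ext X
      constructor
      · rintro ⟨j, ⟨a1, a2⟩, rfl⟩
        rw [C6a_0] at a1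
        rw [C6a_1]
        exact ⟨hS (hKLS j a1.1), a1.2.2.resolve_left a2⟩
      · rintro ⟨b1, b2⟩
        have hX : X ∈ S := hdown _ (hKLS i hi) X b1 b2
        obtain ⟨j, hj, rfl⟩ := C6a_ex ((hSe X).1 hX)
        refine ⟨j, ⟨?_, ?_⟩, (C6a_1 E K j).symm⟩
        · rw [C6a_0]
          exact ⟨hj, hi, Or.inr b2⟩
        · rintro rfl
          exact hirr _ (hKLS j hj) b2
    rw [hP, C6a_1]
    exact hstep _ (hS (hKLS i hi))
  · intro f hf hd
    have hfK : ∀ k x, Nat.pair k x ∈ f → x ∈ KL E K := by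
      intro k x hx
      obtain ⟨y, hy⟩ := hd.1 (k + 1)
      have h := (hd.2 k x y hx hy).1
      rw [C6a_0] at h
      exact h.2.1
    obtain ⟨c, ⟨k, x, hx, rfl⟩, hmin⟩ := c2 M hM {X | ∃ k x, Nat.pair k x ∈ f ∧ X = sec E x}
      (by
        rintro X ⟨k, x, hx, rfl⟩
        exact hS (hKLS x (hfK k x hx)))
      (by
        obtain ⟨x, hx⟩ := hd.1 0
        exact ⟨_, 0, x, hx, rfl⟩)
      (by
        intro Z hZ
        have h : AS (fun v V => {i | Nat.pair i i ∈ sec (V 0) 0 ∧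
            ∃ k x, Nat.pair k x ∈ V 2 ∧ sec (V 0) (i + 1) = sec (V 1) x}) := by
          aesop (config := { enableSimp := false })
        exact AS.closed h hAr (fun _ => 0) (sc Z (sc E (fun _ => f))) (by
          intro i
          rcases i with _ | _ | i
          · exact hZ
          · exact hE
          · exact hf))
    obtain ⟨y, hy⟩ := hd.1 (k + 1)
    obtain ⟨a1, a2⟩ := hd.2 k x y hx hy
    rw [C6a_0] at a1
    have h1 : sec E y ∈ Ss (sec E x) := a1.2.2.resolve_left a2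
    have hxS := hKLS x a1.2.1
    rcases hmin (sec E y) ⟨k + 1, y, hy, rfl⟩ with h2 | h2
    · rw [h2] at h1
      exact hirr _ hxS h1
    · exact hirr _ hxS (htr _ _ hxS h1 h2)
  · ext X
    constructor
    · rintro ⟨i, hi, rfl⟩
      rw [C6a_1]
      exact hKLS i ((hfld i).1 hi)
    · intro hX
      obtain ⟨j, hj, rfl⟩ := C6a_ex ((hSe X).1 hX)
      exact ⟨j, (hfld j).2 hj, (C6a_1 E K j).symm⟩

end B8d
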