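import Pool.Agent.Lib.MP_8dbd20_lc.Hi.Spec2

namespace B8d

private theorem C7_phi (φ : F) (a b e k : ℕ) : UD (fun U C v V =>
    eval U C φ (fun i => v (i + a)) (sc (sec (sec (V b) 0) (v e)) (fun j => V (j + k)))) := by
  refine UD.subst (R := fun U C v V => eval U C φ v V) ⟨φ, fun _ _ _ _ _ _ => Iff.rfl⟩
    (f := fun i v _ => v (i + a))
    (t := fun j v V => sc (sec (sec (V b) 0) (v e)) (fun j => V (j + k)) j)
    (fun i => AN.var _) (fun j => ?_)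
  cases j with
  | zero => exact AS.sec (AS.sec (AS.var b) (AN.const 0)) (AN.var e)
  | succ j => exact AS.var _

private def C7_R (φ : F) (U C : Set (Set ℕ)) (X : Set ℕ) (v : ℕ → ℕ) (V : ℕ → Set ℕ) : Prop :=
  ∃ c ∈ C, (∀ d ∈ C, (∃ a, eval U C φ v (sc (sec (sec d 0) a) V)) →
      d = c ∨ ∃ a, c = sec (sec d 0) a) ∧
    ∃ n, X = sec (sec c 0) n ∧ eval U C φ v (sc (sec (sec c 0) n) V) ∧
      ∀ m, m < n → ¬ eval U C φ v (sc (sec (sec c 0) m) V)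

private theorem C7_ud (φ : F) :
    UD (fun U C v V => C7_R φ U C (V 0) v (fun j => V (j + 1))) := by
  refine UD.exC (R := fun U C c v V => (∀ d ∈ C, (∃ a, eval U C φ v
      (sc (sec (sec d 0) a) (fun j => V (j + 1)))) → d = c ∨ ∃ a, c = sec (sec d 0) a) ∧
    ∃ n, V 0 = sec (sec c 0) n ∧ eval U C φ v (sc (sec (sec c 0) n) (fun j => V (j + 1))) ∧
      ∀ m, m < n → ¬ eval U C φ v (sc (sec (sec c 0) m) (fun j => V (j + 1)))) ?_
  refine UD.and ?_ ?_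
  · refine UD.allC (R := fun U C d v V => (∃ a, eval U C φ v
      (sc (sec (sec d 0) a) (fun j => V (j + 2)))) → d = V 0 ∨ ∃ a, V 0 = sec (sec d 0) a) ?_
    refine UD.imp ?_ (UD.or (UD.eqS (AS.var 0) (AS.var 1)) ?_)
    · exact UD.exN (R := fun U C a v V => eval U C φ v
        (sc (sec (sec (V 0) 0) a) (fun j => V (j + 3)))) (C7_phi φ 1 0 0 3)
    · exact UD.exN (R := fun U C a v V => V 1 = sec (sec (V 0) 0) a)
        (UD.eqS (AS.var 1) (AS.sec (AS.sec (AS.var 0) (AN.const 0)) (AN.var 0)))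
  · refine UD.exN (R := fun U C n v V => V 1 = sec (sec (V 0) 0) n ∧
      eval U C φ v (sc (sec (sec (V 0) 0) n) (fun j => V (j + 2))) ∧
      ∀ m, m < n → ¬ eval U C φ v (sc (sec (sec (V 0) 0) m) (fun j => V (j + 2)))) ?_
    refine UD.and (UD.eqS (AS.var 1) (AS.sec (AS.sec (AS.var 0) (AN.const 0)) (AN.var 0)))
      (UD.and (C7_phi φ 1 0 0 2) ?_)
    exact UD.allN (R := fun U C m v V => m < v 0 → ¬ eval U C φ (fun i => v (i + 1))
      (sc (sec (sec (V 0) 0) m) (fun j => V (j + 2))))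
      (UD.imp (UD.lt (AN.var 0) (AN.var 1)) (C7_phi φ 2 0 0 2).not)

theorem pC7 (t9 : S_T9) (t10 : S_T10) (c1 : S_C1) (c3 : S_C3) (c4 : S_C4) (c5b : S_C5b) :
    S_C7 := by
  classical
  intro φ
  obtain ⟨θ, hθ⟩ := C7_ud φ
  obtain ⟨ψ, hψ⟩ : UD (fun U C v V => ∃ a, eval U C φ v
      (sc (sec (sec (V 0) 0) a) (fun j => V (j + 1)))) :=
    UD.exN (R := fun U C a v V => eval U C φ v
        (sc (sec (sec (V 0) 0) a) (fun j => V (j + 1)))) (C7_phi φ 1 0 0 1)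
  refine ⟨θ, fun M hM v V hV => ?_⟩
  have hgood : Good (UM M) (CM M) :=
    (c4 M hM (CM M) subset_rfl (c3 M hM).1 (fun c hc => ⟨_, (c3 M hM).2 c hc⟩)).1
  have hval : ∀ X ∈ UM M, ∀ i, sc X V i ∈ UM M := by
    intro X hX i
    cases i with
    | zero => exact hX
    | succ i => exact hV i
  have hθ' : ∀ X ∈ UM M, eval (UM M) (CM M) θ v (sc X V) ↔
      C7_R φ (UM M) (CM M) X v V := fun X hX =>
    (hθ (UM M) (CM M) hgood v (sc X V) (hval X hX)).symm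
  have hψ' : ∀ c ∈ CM M, eval (UM M) (CM M) ψ v (sc c V) ↔
      ∃ a, eval (UM M) (CM M) φ v (sc (sec (sec c 0) a) V) := fun c hc =>
    (hψ (UM M) (CM M) hgood v (sc c V) (hval c (hgood.1 hc))).symm
  have hanti : ∀ c ∈ CM M, ∀ d ∈ CM M, c ∈ Ss d → d ∈ Ss c → False := by
    intro c hc d hd h1 h2
    have h3 := t10 c d ((c1 M hM).1 d hd).1 h1 h2
    obtain ⟨E, K, hEK⟩ := ((c1 M hM).1 d hd).1
    rw [hEK] at h3
    exact (t9 E K).1 h3
  refine ⟨fun X hX h => ?_, fun X hX Y hY hx hy => ?_, fun h => ?_⟩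
  · obtain ⟨c, hc, -, n, hn, hφ, -⟩ := (hθ' X hX).1 h
    rw [hn]
    exact hφ
  · obtain ⟨c, hc, hcl, n, hn, hnφ, hnl⟩ := (hθ' X hX).1 hx
    obtain ⟨d, hd, hdl, m, hm, hmφ, hml⟩ := (hθ' Y hY).1 hy
    have hcd : c = d := by
      rcases hcl d hd ⟨m, hmφ⟩ with h1 | h1
      · exact h1.symm
      · rcases hdl c hc ⟨n, hnφ⟩ with h2 | h2
        · exact h2
        · exact (hanti c hc d hd h1 h2).elim
    subst hcd
    have hnm : n = m := by
      rcases Nat.lt_trichotomy n m with h1 | h1 | h1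
      · exact absurd hnφ (hml n h1)
      · exact h1
      · exact absurd hmφ (hnl m h1)
    subst hnm
    rw [hn, hm]
  · obtain ⟨X, hX, hφ⟩ := h
    obtain ⟨c₀, hc₀, a, rfl⟩ := hX
    obtain ⟨c, hc, hcψ, hcl⟩ := (c5b M hM ψ v V hV).2 ⟨c₀, hc₀, (hψ' c₀ hc₀).2 ⟨a, hφ⟩⟩
    have hex := (hψ' c hc).1 hcψ
    have hXU : sec (sec c 0) (Nat.find hex) ∈ UM M := ⟨c, hc, _, rfl⟩
    refine ⟨sec (sec c 0) (Nat.find hex), hXU, (hθ' _ hXU).2 ⟨c, hc, fun d hd h => ?_,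
      Nat.find hex, rfl, Nat.find_spec hex, fun m hm => Nat.find_min hex hm⟩⟩
    exact hcl d hd ((hψ' d hd).2 h)

end B8d
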