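import Pool.Agent.Lib.MP_8dbd20_lc.Hi.Spec2

namespace B8d

/-- the relation `φ` with the numbers and the sets coded by `W` -/
private def C8_ph (φ : F) (U C : Set (Set ℕ)) (W : Set ℕ) (n : ℕ) (c : Set ℕ) : Prop :=
  eval U C φ (nc n (fun i => get i (sInf {m | Nat.pair 0 m ∈ W}))) (sc c (fun j => sec W (j + 1)))

private theorem C8_phUD (φ : F) {N : (ℕ → ℕ) → (ℕ → Set ℕ) → ℕ} (hN : AN N) (a b : ℕ) :
    UD (fun U C v V => C8_ph φ U C (V a) (N v V) (V b)) := by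
  refine UD.subst (R := fun U C v V => eval U C φ v V) ⟨φ, fun _ _ _ _ _ _ => Iff.rfl⟩
    (f := fun i v V => nc (N v V) (fun i => get i (sInf {m | Nat.pair 0 m ∈ V a})) i)
    (t := fun j _ V => sc (V b) (fun j => sec (V a) (j + 1)) j) (fun i => ?_) (fun j => ?_)
  · cases i with
    | zero => exact hN
    | succ i =>
      refine AN.get (AN.const i) ?_
      exact AN.sInf (R := fun m _ V => Nat.pair 0 m ∈ V a)
        (Ar.mem (AN.pair (AN.const 0) (AN.var 0)) (AS.var a))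
  · cases j with
    | zero => exact AS.var b
    | succ j => exact AS.sec (AS.var a) (AN.const (j + 1))

private def C8_bad (φ : F) (U C : Set (Set ℕ)) (W : Set ℕ) : Prop :=
  (∀ n, ∀ c ∈ C, ∀ d ∈ C, C8_ph φ U C W n c → C8_ph φ U C W n d → c = d) ∧
    ∀ d ∈ C, ∃ n, ∃ c ∈ C, C8_ph φ U C W n c ∧ ¬ ∃ a, c = sec (sec d 0) a

private theorem C8_badUD (φ : F) : UD (fun U C v V => C8_bad φ U C (V 0)) := by
  refine UD.and ?_ ?_
  · refine UD.allN (R := fun U C n v V => ∀ c ∈ C, ∀ d ∈ C, C8_ph φ U C (V 0) n c →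
      C8_ph φ U C (V 0) n d → c = d) ?_
    refine UD.allC (R := fun U C c v V => ∀ d ∈ C, C8_ph φ U C (V 0) (v 0) c →
      C8_ph φ U C (V 0) (v 0) d → c = d) ?_
    refine UD.allC (R := fun U C d v V => C8_ph φ U C (V 1) (v 0) (V 0) →
      C8_ph φ U C (V 1) (v 0) d → V 0 = d) ?_
    exact UD.imp (C8_phUD φ (AN.var 0) 2 1) (UD.imp (C8_phUD φ (AN.var 0) 2 0)
      (UD.eqS (AS.var 1) (AS.var 0)))
  · refine UD.allC (R := fun U C d v V => ∃ n, ∃ c ∈ C, C8_ph φ U C (V 0) n c ∧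
      ¬ ∃ a, c = sec (sec d 0) a) ?_
    refine UD.exN (R := fun U C n v V => ∃ c ∈ C, C8_ph φ U C (V 1) n c ∧
      ¬ ∃ a, c = sec (sec (V 0) 0) a) ?_
    refine UD.exC (R := fun U C c v V => C8_ph φ U C (V 1) (v 0) c ∧
      ¬ ∃ a, c = sec (sec (V 0) 0) a) ?_
    exact UD.and (C8_phUD φ (AN.var 0) 2 0) (UD.not (UD.exN
      (R := fun U C a v V => V 0 = sec (sec (V 1) 0) a)
      (UD.eqS (AS.var 0) (AS.sec (AS.sec (AS.var 1) (AN.const 0)) (AN.var 0)))))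

/-- the enumeration -/
private def C8_E (φ θ : F) (U C : Set (Set ℕ)) (x : ℕ) : Prop :=
  ∃ W ∈ U, eval U C θ (fun _ => 0) (sc W (fun _ => ∅)) ∧
    ∃ c ∈ C, C8_ph φ U C W x.unpair.1.unpair.1 c ∧ x.unpair.2 ∈ sec (sec c 0) x.unpair.1.unpair.2

private theorem C8_EUD (φ θ : F) : UD (fun U C v V => C8_E φ θ U C (v 0)) := by
  refine UD.exS (R := fun U C W v V => eval U C θ (fun _ => 0) (sc W (fun _ => ∅)) ∧
    ∃ c ∈ C, C8_ph φ U C W (v 0).unpair.1.unpair.1 c ∧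
      (v 0).unpair.2 ∈ sec (sec c 0) (v 0).unpair.1.unpair.2) ?_
  refine UD.and ?_ ?_
  · refine UD.subst (R := fun U C v V => eval U C θ v V) ⟨θ, fun _ _ _ _ _ _ => Iff.rfl⟩
      (f := fun _ _ _ => 0) (t := fun j _ V => sc (V 0) (fun _ => ∅) j) (fun i => AN.const 0)
      (fun j => ?_)
    cases j with
    | zero => exact AS.var 0
    | succ j => exact AS.empty
  · refine UD.exC (R := fun U C c v V => C8_ph φ U C (V 0) (v 0).unpair.1.unpair.1 c ∧
      (v 0).unpair.2 ∈ sec (sec c 0) (v 0).unpair.1.unpair.2) ?_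
    exact UD.and (C8_phUD φ (AN.fst (AN.fst (AN.var 0))) 1 0) (UD.mem (AN.snd (AN.var 0))
      (AS.sec (AS.sec (AS.var 0) (AN.const 0)) (AN.snd (AN.fst (AN.var 0)))))

/-- codes of finitely many sets -/
private theorem C8_join (b : ℕ) : Ar (fun v V => ∃ j, j < b ∧ (v 0).unpair.1 = j + 1 ∧
    (v 0).unpair.2 ∈ V j) := by
  induction b with
  | zero => exact Ar.fls.congr fun v V => by simp
  | succ b ih =>
    have h : Ar (fun v V => (v 0).unpair.1 = b + 1 ∧ (v 0).unpair.2 ∈ V b) :=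
      Ar.and (Ar.eqN (AN.fst (AN.var 0)) (AN.const (b + 1))) (Ar.mem (AN.snd (AN.var 0)) (AS.var b))
    refine (ih.or h).congr fun v V => ?_
    constructor
    · rintro ⟨j, hj, h1, h2⟩
      rcases Nat.lt_or_ge j b with h3 | h3
      · exact Or.inl ⟨j, h3, h1, h2⟩
      · have : j = b := by omega
        subst this
        exact Or.inr ⟨h1, h2⟩
    · rintro (⟨j, hj, h1, h2⟩ | ⟨h1, h2⟩)
      · exact ⟨j, by omega, h1, h2⟩
      · exact ⟨b, by omega, h1, h2⟩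

private theorem C8_code {U : Set (Set ℕ)} (hU : ArClosed U) (V : ℕ → Set ℕ) (hV : ∀ i, V i ∈ U)
    (m b : ℕ) : ∃ W ∈ U, sInf {m | Nat.pair 0 m ∈ W} = m ∧ ∀ j < b, sec W (j + 1) = V j := by
  have h : Ar (fun v V => ((v 0).unpair.1 = 0 ∧ (v 0).unpair.2 = v 1) ∨
      ∃ j, j < b ∧ (v 0).unpair.1 = j + 1 ∧ (v 0).unpair.2 ∈ V j) :=
    Ar.or (Ar.and (Ar.eqN (AN.fst (AN.var 0)) (AN.const 0)) (Ar.eqN (AN.snd (AN.var 0)) (AN.var 1)))
      (C8_join b)
  refine ⟨_, hU _ h (fun _ => m) V hV, ?_, fun j hj => ?_⟩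
  · have he : {m' | Nat.pair 0 m' ∈ {n | (fun v V => ((v 0).unpair.1 = 0 ∧ (v 0).unpair.2 = v 1) ∨
        ∃ j, j < b ∧ (v 0).unpair.1 = j + 1 ∧ (v 0).unpair.2 ∈ V j) (nc n (fun _ => m)) V}} =
        {m' | m' = m} := by
      ext m'
      simp [Nat.unpair_pair]
    rw [he]
    have : ({m' | m' = m} : Set ℕ) = {m} := by ext; simp
    rw [this]
    exact csInf_singleton m
  · ext y
    rw [mem_sec']
    simp only [Set.mem_ofPred_eq, nc_zero, Nat.unpair_pair, nc_succ]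
    constructor
    · rintro (⟨h1, _⟩ | ⟨j', hj', h1, h2⟩)
      · exact absurd h1 (Nat.succ_ne_zero j)
      · have : j = j' := by omega
        subst this
        exact h2
    · intro h1
      exact Or.inr ⟨j, hj, rfl, h1⟩

theorem pC8 (t1 : S_T1) (t2 : S_T2) (t3 : S_T3) (t10 : S_T10) (c1 : S_C1) (c3 : S_C3)
    (c4 : S_C4) (c6 : S_C6) (c7 : S_C7) : S_C8 := by
  classical
  intro M hM φ v V hV hfun
  by_contra hcon
  push Not at hcon
  have hgood : Good (UM M) (CM M) :=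
    (c4 M hM (CM M) subset_rfl (c3 M hM).1 (fun c hc => ⟨_, (c3 M hM).2 c hc⟩)).1
  have hemp : ∅ ∈ UM M := AS.closed AS.empty hgood.2.2 v V hV
  -- the bad parameter
  obtain ⟨b, hb⟩ := t2 φ
  obtain ⟨m, hm⟩ := t3 v b
  obtain ⟨W, hWU, hWm, hWV⟩ := C8_code hgood.2.2 V hV m b
  have hph : ∀ n c, C8_ph φ (UM M) (CM M) W n c ↔ eval (UM M) (CM M) φ (nc n v) (sc c V) := by
    intro n c
    refine hb _ _ _ _ _ _ (fun i hi => ?_) (fun i hi => ?_)
    · cases i with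
      | zero => rfl
      | succ i =>
        rw [nc_succ, nc_succ, hWm]
        exact hm i (by omega)
    · cases i with
      | zero => rfl
      | succ i =>
        rw [sc_succ, sc_succ]
        exact hWV i (by omega)
  have hbad : C8_bad φ (UM M) (CM M) W := by
    refine ⟨fun n c hc d hd h1 h2 => hfun n c hc d hd ((hph n c).1 h1) ((hph n d).1 h2),
      fun d hd => ?_⟩
    obtain ⟨n, c, hc, h1, h2⟩ := hcon d hd
    exact ⟨n, c, hc, (hph n c).2 h1, h2⟩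
  obtain ⟨β, hβ⟩ := C8_badUD φ
  obtain ⟨θ, hθ⟩ := c7 β
  have hval : ∀ X ∈ UM M, ∀ i, sc X (fun _ => (∅ : Set ℕ)) i ∈ UM M := by
    intro X hX i
    cases i with
    | zero => exact hX
    | succ i => exact hemp
  have hβ' : ∀ X ∈ UM M, C8_bad φ (UM M) (CM M) X ↔
      eval (UM M) (CM M) β (fun _ => 0) (sc X (fun _ => ∅)) := fun X hX =>
    hβ (UM M) (CM M) hgood (fun _ => 0) (sc X (fun _ => ∅)) (hval X hX)
  obtain ⟨hθ1, hθ2, hθ3⟩ := hθ M hM (fun _ => 0) (fun _ => ∅) (fun _ => hemp)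
  obtain ⟨W₀, hW₀, hW₀θ⟩ := hθ3 ⟨W, hWU, (hβ' W hWU).1 hbad⟩
  have hbad₀ : C8_bad φ (UM M) (CM M) W₀ := (hβ' W₀ hW₀).2 (hθ1 W₀ hW₀ hW₀θ)
  -- the enumeration
  obtain ⟨γ, hγ⟩ := C8_EUD φ θ
  obtain ⟨k, hk⟩ := t1 γ
  refine c6 M hM ⟨k, ?_⟩
  have hE : ∀ x, x ∈ pf (CM M) k ↔ ∃ c ∈ CM M, C8_ph φ (UM M) (CM M) W₀ x.unpair.1.unpair.1 c ∧
      x.unpair.2 ∈ sec (sec c 0) x.unpair.1.unpair.2 := by
    intro x
    have h1 : x ∈ pf (CM M) k ↔
        eval (UM M) (CM M) γ (nc x (fun _ => 0)) (fun _ => ∅) := by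
      rw [← hk]
      exact Iff.rfl
    rw [h1, ← hγ (UM M) (CM M) hgood (nc x (fun _ => 0)) (fun _ => ∅) (fun _ => hemp)]
    constructor
    · rintro ⟨W', hW', h2, c, hc, h3, h4⟩
      have h5 : W' = W₀ := hθ2 W' hW' W₀ hW₀ h2 hW₀θ
      subst h5
      exact ⟨c, hc, h3, h4⟩
    · rintro ⟨c, hc, h3, h4⟩
      exact ⟨W₀, hW₀, hW₀θ, c, hc, h3, h4⟩
  show Secs (pf (CM M) k) = UU (CM M)
  ext X
  constructor
  · rintro ⟨a, rfl⟩
    by_cases hex : ∃ c ∈ CM M, C8_ph φ (UM M) (CM M) W₀ a.unpair.1 c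
    · obtain ⟨c, hc, h1⟩ := hex
      refine ⟨c, hc, a.unpair.2, ?_⟩
      ext y
      rw [mem_sec', hE]
      simp only [Nat.unpair_pair]
      constructor
      · rintro ⟨d, hd, h2, h3⟩
        have h4 := hbad₀.1 _ c hc d hd h1 h2
        subst h4
        exact h3
      · intro h2
        exact ⟨c, hc, h1, h2⟩
    · have h1 : sec (pf (CM M) k) a = ∅ := by
        ext y
        rw [mem_sec', hE]
        simp only [Nat.unpair_pair]
        constructor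
        · rintro ⟨d, hd, h2, -⟩
          exact (hex ⟨d, hd, h2⟩).elim
        · intro h2; exact h2.elim
      rw [h1]
      exact hemp
  · rintro ⟨d, hd, hX⟩
    obtain ⟨n, c, hc, h1, h2⟩ := hbad₀.2 d hd
    have h3 : X ∈ Ss c := by
      rcases (c1 M hM).2.1 c hc d hd with h4 | h4 | h4
      · rw [h4]; exact hX
      · exact absurd h4 h2
      · exact t10 d c ((c1 M hM).1 c hc).1 h4 hX
    obtain ⟨a, ha⟩ := h3
    refine ⟨Nat.pair n a, ?_⟩
    rw [ha]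
    ext y
    rw [mem_sec' (X := pf (CM M) k), hE]
    simp only [Nat.unpair_pair]
    constructor
    · intro h4
      exact ⟨c, hc, h1, h4⟩
    · rintro ⟨e, he, h5, h6⟩
      have h7 := hbad₀.1 _ c hc e he h1 h5
      subst h7
      exact h6

end B8d
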