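import Pool.Agent.Lib.MP_8dbd20_lc.Hi.Spec2

/-!
# MP_8dbd20_lc, block Hi: C9, bounds for counterexamples
-/

set_option linter.unusedVariables false

namespace B8d

/-- there is a counterexample in `Ss c'` (numbers and other sets coded by `x`) -/
private def C9_B (φ : F) (U C : Set (Set ℕ)) (x : ℕ) (c' c : Set ℕ) : Prop :=
  ∃ a, ¬ eval U C φ (fun i => get i x.unpair.1)
    (sc (sec (sec c' 0) a) (fun j => sec (sec c 0) (get j x.unpair.2)))

private theorem C9_UDB (φ : F) : UD (fun U C v V => C9_B φ U C (v 0) (V 0) (V 1)) := by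
  have h0 : UD (fun U C v V => eval U C φ v V) := ⟨φ, fun _ _ _ _ _ _ => Iff.rfl⟩
  have h1 : UD (fun U C v V => eval U C φ (fun i => get i (v 1).unpair.1)
      (fun j => sc (sec (sec (V 0) 0) (v 0)) (fun j => sec (sec (V 1) 0) (get j (v 1).unpair.2)) j)) := by
    refine UD.subst h0 (f := fun i v _ => get i (v 1).unpair.1)
      (t := fun j v V => sc (sec (sec (V 0) 0) (v 0))
        (fun j => sec (sec (V 1) 0) (get j (v 1).unpair.2)) j) ?_ ?_
    · intro i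
      exact AN.get (AN.const i) (AN.fst (AN.var 1))
    · intro j
      cases j with
      | zero => exact AS.sec (AS.sec (AS.var 0) (AN.const 0)) (AN.var 0)
      | succ j =>
        exact AS.sec (AS.sec (AS.var 1) (AN.const 0)) (AN.get (AN.const j) (AN.snd (AN.var 1)))
  exact UD.exN (R := fun U C a v V => ¬ eval U C φ (fun i => get i (v 0).unpair.1)
    (sc (sec (sec (V 0) 0) a) (fun j => sec (sec (V 1) 0) (get j (v 0).unpair.2)))) h1.not

/-- the least such `c'` -/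
private def C9_L (φ : F) (U C : Set (Set ℕ)) (x : ℕ) (c' c : Set ℕ) : Prop :=
  C9_B φ U C x c' c ∧ ∀ d ∈ C, C9_B φ U C x d c → (d = c' ∨ c' ∈ Ss d)

private theorem C9_UDL (φ : F) : UD (fun U C v V => C9_L φ U C (v 0) (V 0) (V 1)) := by
  refine (C9_UDB φ).and ?_
  refine UD.allC (R := fun U C d v V => C9_B φ U C (v 0) d (V 1) → (d = V 0 ∨ V 0 ∈ Ss d)) ?_
  refine UD.imp ?_ ?_
  · exact UD.s12 (R := fun U C x c' c => C9_B φ U C x c' c) (C9_UDB φ) (AN.var 0) (AS.var 0)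
      (AS.var 2)
  · have : UD (fun U C v V => V 0 = V 1 ∨ ∃ a, V 1 = sec (sec (V 0) 0) a) := by
      aesop (config := { enableSimp := false })
    exact this

theorem pC9 (t2 : S_T2) (t3 : S_T3) (t9 : S_T9) (t10 : S_T10) (c1 : S_C1) (c3 : S_C3)
    (c4 : S_C4) (c5b : S_C5b) (c8 : S_C8) : S_C9 := by
  intro M hM φ c hc
  have hcmp := (c1 M hM).1
  have hlin := (c1 M hM).2.1
  have hirr : ∀ d ∈ CM M, d ∉ Ss d := by
    intro d hd
    obtain ⟨E, K, rfl⟩ := (hcmp d hd).1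
    exact (t9 E K).1
  have htr : ∀ d ∈ CM M, ∀ e, e ∈ Ss d → Ss e ⊆ Ss d := fun d hd e he => t10 e d (hcmp d hd).1 he
  have hgood : Good (UM M) (CM M) :=
    (c4 M hM (CM M) subset_rfl (c3 M hM).1 fun d hd =>
      ⟨_, ((c3 M hM).2 d hd).1, ((c3 M hM).2 d hd).2⟩).1
  set U := UM M with hU
  set C := CM M with hC
  obtain ⟨e, he, hce⟩ : ∃ e ∈ C, c ∈ Ss e := ⟨_, ((c3 M hM).2 c hc).1, ((c3 M hM).2 c hc).2⟩
  have hcU : c ∈ U := ⟨e, he, hce⟩
  have hCU : ∀ d ∈ C, d ∈ U := fun d hd => hgood.1 hd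
  obtain ⟨β, hβ⟩ := C9_UDB φ
  obtain ⟨lam, hlam⟩ := C9_UDL φ
  have hβ' : ∀ x, ∀ d ∈ C, (eval U C β (nc x fun _ => 0) (sc d fun _ => c) ↔ C9_B φ U C x d c) := by
    intro x d hd
    refine (hβ U C hgood (nc x fun _ => 0) (sc d fun _ => c) ?_).symm
    intro i
    cases i with
    | zero => exact hCU d hd
    | succ i => exact hcU
  have hlam' : ∀ x, ∀ d ∈ C,
      (eval U C lam (nc x fun _ => 0) (sc d fun _ => c) ↔ C9_L φ U C x d c) := by
    intro x d hd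
    refine (hlam U C hgood (nc x fun _ => 0) (sc d fun _ => c) ?_).symm
    intro i
    cases i with
    | zero => exact hCU d hd
    | succ i => exact hcU
  -- the bound
  obtain ⟨d₀, hd₀, hb⟩ := c8 M hM lam (fun _ => 0) (fun _ => c) (fun _ => hcU) (by
    intro n d hd d' hd' h h'
    rw [hlam' n d hd] at h
    rw [hlam' n d' hd'] at h'
    rcases h.2 d' hd' h'.1 with h1 | h1
    · exact h1.symm
    · rcases h'.2 d hd h.1 with h2 | h2
      · exact h2
      · exact absurd (htr d' hd' d h1 h2) (hirr d' hd'))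
  obtain ⟨c', hc', hcc', hsub⟩ : ∃ c' ∈ C, c ∈ Ss c' ∧ Ss d₀ ⊆ Ss c' := by
    rcases hlin d₀ hd₀ e he with h | h | h
    · exact ⟨e, he, hce, by rw [h]⟩
    · exact ⟨e, he, hce, htr e he d₀ h⟩
    · exact ⟨d₀, hd₀, htr d₀ hd₀ e h hce, subset_rfl⟩
  refine ⟨c', hc', hcc', ?_⟩
  rintro v V hV ⟨X₀, ⟨c₁, hc₁, a₀, rfl⟩, hX₀⟩
  obtain ⟨b, hbφ⟩ := t2 φ
  obtain ⟨m, hm⟩ := t3 v b
  choose a ha using hV
  obtain ⟨S, hS⟩ := t3 a b
  set x := Nat.pair m S with hx
  have hx1 : ∀ i < b, get i x.unpair.1 = v i := by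
    intro i hi
    rw [hx, Nat.unpair_pair]
    exact hm i hi
  have hx2 : ∀ i < b, sec (sec c 0) (get i x.unpair.2) = V i := by
    intro i hi
    rw [hx, Nat.unpair_pair, hS i hi]
    exact (ha i).symm
  have hev : ∀ X : Set ℕ, (eval U C φ (fun i => get i x.unpair.1)
      (sc X (fun j => sec (sec c 0) (get j x.unpair.2))) ↔ eval U C φ v (sc X V)) := by
    intro X
    refine hbφ U C _ _ _ _ hx1 ?_
    intro i hi
    cases i with
    | zero => rfl
    | succ i => exact hx2 i (by omega)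
  have hB₁ : C9_B φ U C x c₁ c := ⟨a₀, fun h => hX₀ ((hev _).mp h)⟩
  obtain ⟨c'', hc'', hB, hleast⟩ := (c5b M hM β (nc x fun _ => 0) (fun _ => c) fun _ => hcU).2
    ⟨c₁, hc₁, (hβ' x c₁ hc₁).mpr hB₁⟩
  rw [hβ' x c'' hc''] at hB
  have hL : C9_L φ U C x c'' c := by
    refine ⟨hB, fun d hd hBd => hleast d hd ?_⟩
    exact (hβ' x d hd).mpr hBd
  have h1 : c'' ∈ Ss d₀ := hb x c'' hc'' ((hlam' x c'' hc'').mpr hL)
  obtain ⟨a₁, ha₁⟩ := hB
  refine ⟨sec (sec c'' 0) a₁, hsub (htr d₀ hd₀ c'' h1 ⟨a₁, rfl⟩), fun h => ha₁ ?_⟩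
  exact (hev _).mpr h

end B8d
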