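import Pool.Agent.Lib.MP_8dbd20_lc.Hi.Spec2

/-!
# MP_8dbd20_lc, `Hi/E0`: restriction of hierarchies
-/

set_option linter.unusedVariables false

namespace B8d

/-- restriction of a hierarchy to a downwards closed set of points -/
theorem E0_gen {Z Z' I : Set ℕ} (hZ : Local Z)
    (hI : ∀ j l, Nat.pair j l ∈ sec Z 0 → l ∈ I → j ∈ I)
    (h0 : sec Z' 0 = {x | x ∈ sec Z 0 ∧ x.unpair.2 ∈ I})
    (h1 : ∀ j, sec Z' (j + 1) = sec Z (j + 1)) : Local Z' := by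
  obtain ⟨⟨a1, a2, a3, a4⟩, hst⟩ := hZ
  have hm : ∀ i j, Nat.pair i j ∈ sec Z' 0 ↔ Nat.pair i j ∈ sec Z 0 ∧ j ∈ I := by
    intro i j
    rw [h0]
    show _ ∧ (Nat.pair i j).unpair.2 ∈ I ↔ _
    rw [Nat.unpair_pair]
  refine ⟨⟨?_, ?_, ?_, ?_⟩, ?_⟩
  · intro i j hij
    obtain ⟨h, hj⟩ := (hm i j).1 hij
    obtain ⟨h2, h3⟩ := a1 i j h
    exact ⟨(hm i i).2 ⟨h2, hI i j h hj⟩, (hm j j).2 ⟨h3, hj⟩⟩
  · intro i j hij hji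
    exact a2 i j ((hm i j).1 hij).1 ((hm j i).1 hji).1
  · intro i j k hij hjk
    exact (hm i k).2 ⟨a3 i j k ((hm i j).1 hij).1 ((hm j k).1 hjk).1, ((hm j k).1 hjk).2⟩
  · intro i j hi hj
    obtain ⟨hi1, hi2⟩ := (hm i i).1 hi
    obtain ⟨hj1, hj2⟩ := (hm j j).1 hj
    rcases a4 i j hi1 hj1 with h | h
    · exact Or.inl ((hm i j).2 ⟨h, hj2⟩)
    · exact Or.inr ((hm j i).2 ⟨h, hi2⟩)
  · intro i hi
    obtain ⟨hi1, hi2⟩ := (hm i i).1 hi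
    have hP : Prd Z' i = Prd Z i := by
      ext X
      constructor
      · rintro ⟨j, ⟨h, hne⟩, rfl⟩
        exact ⟨j, ⟨((hm j i).1 h).1, hne⟩, h1 j⟩
      · rintro ⟨j, ⟨h, hne⟩, rfl⟩
        exact ⟨j, ⟨(hm j i).2 ⟨h, hi2⟩, hne⟩, (h1 j).symm⟩
    rw [hP, h1]
    exact hst i hi1

theorem E0_as1 : AS (fun v V => {x | (x.unpair.1 = 0 ∧ x.unpair.2 ∈ sec (V 0) 0 ∧
    Nat.pair x.unpair.2.unpair.2 (v 0) ∈ sec (V 0) 0) ∨ (0 < x.unpair.1 ∧ x ∈ V 0)}) := by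
  aesop (config := { enableSimp := false })

theorem E0_as2 : AS (fun v V => {x | (x.unpair.1 = 0 ∧ x.unpair.2 ∈ sec (V 0) 0 ∧
    x.unpair.2.unpair.2 ≠ v 0 ∧
    Nat.pair x.unpair.2.unpair.2 (v 0) ∈ sec (V 0) 0) ∨ (0 < x.unpair.1 ∧ x ∈ V 0)}) := by
  aesop (config := { enableSimp := false })

theorem pE0 : S_E0 := by
  intro K hK Z hZK hZ i hi
  obtain ⟨⟨a1, a2, a3, a4⟩, hst⟩ := id hZ
  constructor
  · set Z₁ : Set ℕ := {x | (x.unpair.1 = 0 ∧ x.unpair.2 ∈ sec Z 0 ∧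
      Nat.pair x.unpair.2.unpair.2 i ∈ sec Z 0) ∨ (0 < x.unpair.1 ∧ x ∈ Z)} with hZ₁
    have hk : Z₁ ∈ K := AS.closed E0_as1 hK (fun _ => i) (fun _ => Z) (fun _ => hZK)
    have h0 : sec Z₁ 0 = {x | x ∈ sec Z 0 ∧ Nat.pair x.unpair.2 i ∈ sec Z 0} := by
      ext x
      simp [hZ₁]
    have h1 : ∀ j, sec Z₁ (j + 1) = sec Z (j + 1) := by
      intro j
      ext x
      simp [hZ₁]
    refine ⟨Z₁, hk, ?_, h0, h1⟩
    refine E0_gen (I := {l | Nat.pair l i ∈ sec Z 0}) hZ ?_ h0 h1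
    intro j l h hl
    exact a3 j l i h hl
  · set Z₂ : Set ℕ := {x | (x.unpair.1 = 0 ∧ x.unpair.2 ∈ sec Z 0 ∧ x.unpair.2.unpair.2 ≠ i ∧
      Nat.pair x.unpair.2.unpair.2 i ∈ sec Z 0) ∨ (0 < x.unpair.1 ∧ x ∈ Z)} with hZ₂
    have hk : Z₂ ∈ K := AS.closed E0_as2 hK (fun _ => i) (fun _ => Z) (fun _ => hZK)
    have h0 : sec Z₂ 0 = {x | x ∈ sec Z 0 ∧ x.unpair.2 ≠ i ∧ Nat.pair x.unpair.2 i ∈ sec Z 0} := by
      ext x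
      simp [hZ₂]
    have h1 : ∀ j, sec Z₂ (j + 1) = sec Z (j + 1) := by
      intro j
      ext x
      simp [hZ₂]
    refine ⟨Z₂, hk, ?_, h0, h1⟩
    refine E0_gen (I := {l | l ≠ i ∧ Nat.pair l i ∈ sec Z 0}) hZ ?_ h0 h1
    rintro j l h ⟨hl1, hl2⟩
    refine ⟨?_, a3 j l i h hl2⟩
    rintro rfl
    exact hl1 (a2 l j hl2 h)

end B8d
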