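import Pool.Agent.Lib.MP_8dbd20_lc.Hi.Spec2

/-!
# MP_8dbd20_lc, `Hi/E1`: uniqueness of hierarchies
-/

namespace B8d

private theorem E1_as : AS (fun _ V => {i | Nat.pair i i ∈ sec (V 0) 0 ∧
    sec (V 0) (i + 1) ≠ sec (V 1) (i + 1)}) := by
  aesop (config := { enableSimp := false })

private theorem E1_as0 : AS (fun _ V => sec (V 0) 0) := by
  aesop (config := { enableSimp := false })

theorem pE1 (l1 : S_L1) (l2 : S_L2) (st3 : S_St3) : S_E1 := by
  intro K hK Z hZ Z' hZ' hL hL' h0 hD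
  by_contra hcon
  push Not at hcon
  obtain ⟨i0, hi0, hne0⟩ := hcon
  have hVK : ∀ i, sc Z (fun _ => Z') i ∈ K := by
    intro i
    cases i with
    | zero => exact hZ
    | succ i => exact hZ'
  have hA := AS.closed E1_as hK (fun _ => 0) (sc Z (fun _ => Z')) hVK
  have hR := AS.closed E1_as0 hK (fun _ => 0) (sc Z (fun _ => Z')) hVK
  rw [sc_zero] at hR
  rw [sc_zero, sc_succ] at hA
  obtain ⟨i, hi, hmin⟩ := l1 K hK (sec Z 0) hR hL.1 hD _ hA ⟨i0, hi0, hne0⟩ (fun i hi => hi.1)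
  have hlin := hL.1
  have hP : Prd Z i = Prd Z' i := by
    have key : ∀ j, ltR (sec Z 0) j i → sec Z (j + 1) = sec Z' (j + 1) := by
      intro j hj
      by_contra hne
      have hjf : Nat.pair j j ∈ sec Z 0 := (hlin.1 j i hj.1).1
      have := hmin j ⟨hjf, hne⟩
      exact hj.2 (hlin.2.1 j i hj.1 this)
    apply Set.ext
    intro X
    constructor
    · rintro ⟨j, hj, rfl⟩
      exact ⟨j, h0 ▸ hj, key j hj⟩
    · rintro ⟨j, hj, rfl⟩
      rw [← h0] at hj
      exact ⟨j, hj, (key j hj).symm⟩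
  have hc : ∀ e ∈ Prd Z i, IsCmp e := by
    rintro e ⟨j, hj, rfl⟩
    exact (l2 Z hL).1 j (hlin.1 j i hj.1).1
  have s1 := hL.2 i hi.1
  have s2 := hL'.2 i (by
    have h := hi.1
    rw [h0] at h
    exact h)
  rw [← hP] at s2
  exact hi.2 (st3 _ _ _ hc s1 s2)

end B8d
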