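import Pool.Agent.Lib.MP_8dbd20_lc.Hi.Spec2

/-!
# MP_8dbd20_lc, `Hi/E2`: union of hierarchies
-/

set_option linter.unusedVariables false

namespace B8d

private theorem E2_arc {K : Set (Set ℕ)} (hK : Mod2 K) : ArClosed K := by
  rintro R ⟨φ, ha, hφ⟩ v V hV
  have h := hK.2 φ v V hV
  have e : {n | R (nc n v) V} = {n | eval K ∅ φ (nc n v) V} := by
    ext n
    exact (hφ _ _).trans (eval_arith ha _ _ _ _ _ _)
  rw [e]; exact h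

private theorem E2_ud {K : Set (Set ℕ)} (hK : Mod2 K)
    {R : Set (Set ℕ) → Set (Set ℕ) → (ℕ → ℕ) → (ℕ → Set ℕ) → Prop} (hR : UD R) (v : ℕ → ℕ)
    (V : ℕ → Set ℕ) (hV : ∀ i, V i ∈ K) : {n | R K ∅ (nc n v) V} ∈ K := by
  obtain ⟨φ, hφ⟩ := hR
  have h := hK.2 φ v V hV
  have e : {n | R K ∅ (nc n v) V} = {n | eval K ∅ φ (nc n v) V} := by
    ext n
    exact hφ K ∅ ⟨Set.empty_subset _, hK.1, E2_arc hK⟩ _ V hV
  rw [e]; exact h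

private theorem E2_as (l0 : S_L0) : UD (fun U C v V => (((v 0).unpair.1 = 0 ∧ (v 0).unpair.2 ∈ V 0) ∨
    (0 < (v 0).unpair.1 ∧ Nat.pair ((v 0).unpair.1 - 1) ((v 0).unpair.1 - 1) ∈ V 0 ∧
      ∃ Z ∈ U, Local Z ∧ sec Z 0 = {y | y ∈ V 0 ∧ Nat.pair y.unpair.2 ((v 0).unpair.1 - 1) ∈ V 0} ∧
        (v 0).unpair.2 ∈ sec Z (v 0).unpair.1))) := by
  have hL : UD (fun U C v V => Local (V 0)) := l0.ud
  aesop (config := { enableSimp := false })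

theorem pE2 (l0 : S_L0) (e0 : S_E0) (e1 : S_E1) : S_E2 := by
  intro K hK R hR hlin hdesc hex
  have hKa := E2_arc hK
  obtain ⟨a1, a2, a3, a4⟩ := id hlin
  set Z : Set ℕ := {x | (x.unpair.1 = 0 ∧ x.unpair.2 ∈ R) ∨
    (0 < x.unpair.1 ∧ Nat.pair (x.unpair.1 - 1) (x.unpair.1 - 1) ∈ R ∧
      ∃ Z ∈ K, Local Z ∧ sec Z 0 = {y | y ∈ R ∧ Nat.pair y.unpair.2 (x.unpair.1 - 1) ∈ R} ∧
        x.unpair.2 ∈ sec Z x.unpair.1)} with hZdef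
  have hZK : Z ∈ K := E2_ud hK (E2_as l0) (fun _ => 0) (fun _ => R) (fun _ => hR)
  have h0 : sec Z 0 = R := by
    ext x
    simp [hZdef]
  have hmem : ∀ n j k, Nat.pair j k ∈ {x | x ∈ R ∧ Nat.pair x.unpair.2 n ∈ R} ↔
      Nat.pair j k ∈ R ∧ Nat.pair k n ∈ R := by
    intro n j k
    show _ ∧ Nat.pair (Nat.pair j k).unpair.2 n ∈ R ↔ _
    rw [Nat.unpair_pair]
  -- uniqueness
  have huniq : ∀ n, Nat.pair n n ∈ R → ∀ Z₁ ∈ K, Local Z₁ →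
      sec Z₁ 0 = {x | x ∈ R ∧ Nat.pair x.unpair.2 n ∈ R} → sec Z (n + 1) = sec Z₁ (n + 1) := by
    intro n hn Z₁ hZ₁ hL₁ h₁
    have hd : ∀ f ∈ K, ¬ Desc f (sec Z₁ 0) := by
      rintro f hf ⟨hf1, hf2⟩
      refine hdesc f hf ⟨hf1, fun k x y hx hy => ?_⟩
      have h := hf2 k x y hx hy
      rw [h₁] at h
      exact ⟨((hmem n y x).1 h.1).1, h.2⟩
    have hnf : n ∈ fld Z₁ := by
      show Nat.pair n n ∈ sec Z₁ 0
      rw [h₁]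
      exact (hmem n n n).2 ⟨hn, hn⟩
    ext x
    show Nat.pair (n + 1) x ∈ Z ↔ _
    simp only [hZdef, Set.mem_ofPred_eq, Nat.unpair_pair]
    constructor
    · rintro (⟨h, -⟩ | ⟨-, -, Z₂, hZ₂, hL₂, h₂, hx⟩)
      · omega
      · have e : n + 1 - 1 = n := by omega
        rw [e] at h₂
        have := e1 K hKa Z₁ hZ₁ Z₂ hZ₂ hL₁ hL₂ (h₁.trans h₂.symm) hd n hnf
        rw [this]; exact hx
    · intro hx
      refine Or.inr ⟨by omega, ?_, Z₁, hZ₁, hL₁, ?_, hx⟩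
      · have e : n + 1 - 1 = n := by omega
        rw [e]; exact hn
      · have e : n + 1 - 1 = n := by omega
        rw [e]; exact h₁
  refine ⟨Z, hZK, ⟨?_, ?_⟩, h0⟩
  · rw [h0]; exact hlin
  intro i hi
  have hiR : Nat.pair i i ∈ R := by
    have : Nat.pair i i ∈ sec Z 0 := hi
    rwa [h0] at this
  obtain ⟨Z₁, hZ₁, hL₁, h₁⟩ := hex i hiR
  have key : ∀ j, Nat.pair j i ∈ R → sec Z (j + 1) = sec Z₁ (j + 1) := by
    intro j hj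
    have hjj := (a1 j i hj).1
    have hjf : j ∈ fld Z₁ := by
      show Nat.pair j j ∈ sec Z₁ 0
      rw [h₁]
      exact (hmem i j j).2 ⟨hjj, hj⟩
    obtain ⟨⟨Z₂, hZ₂, hL₂, h₂, h₂'⟩, -⟩ := e0 K hKa Z₁ hZ₁ hL₁ j hjf
    rw [huniq j hjj Z₂ hZ₂ hL₂ ?_, h₂']
    rw [h₂, h₁]
    ext x
    have hx : x = Nat.pair x.unpair.1 x.unpair.2 := (Nat.pair_unpair x).symm
    constructor
    · rintro ⟨⟨h3, h4⟩, h5⟩
      exact ⟨h3, h5.1⟩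
    · rintro ⟨h3, h4⟩
      exact ⟨⟨h3, a3 _ _ _ h4 hj⟩, (hmem i _ _).2 ⟨h4, hj⟩⟩
  have hii : i ∈ fld Z₁ := by
    show Nat.pair i i ∈ sec Z₁ 0
    rw [h₁]
    exact (hmem i i i).2 ⟨hiR, hiR⟩
  have hP : Prd Z i = Prd Z₁ i := by
    ext X
    constructor
    · rintro ⟨j, ⟨h, hne⟩, rfl⟩
      rw [h0] at h
      refine ⟨j, ⟨?_, hne⟩, key j h⟩
      rw [h₁]
      exact (hmem i j i).2 ⟨h, hiR⟩
    · rintro ⟨j, ⟨h, hne⟩, rfl⟩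
      rw [h₁] at h
      have h' := ((hmem i j i).1 h).1
      refine ⟨j, ⟨?_, hne⟩, (key j h').symm⟩
      rw [h0]; exact h'
  rw [hP, key i hiR]
  exact hL₁.2 i hii

end B8d
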