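import Pool.Agent.Lib.MP_8dbd20_lc.Hi.Spec2

/-!
# MP_8dbd20_lc, `Hi/E3`: Lemma E, part 1
-/

set_option linter.unusedVariables false

namespace B8d

theorem E3_arc {K : Set (Set ℕ)} (hK : Mod2 K) : ArClosed K := by
  rintro R ⟨φ, ha, hφ⟩ v V hV
  have h := hK.2 φ v V hV
  have e : {n | R (nc n v) V} = {n | eval K ∅ φ (nc n v) V} := by
    ext n
    exact (hφ _ _).trans (eval_arith ha _ _ _ _ _ _)
  rw [e]; exact h

theorem E3_sec {K : Set (Set ℕ)} (hK : ArClosed K) {Z : Set ℕ} (hZ : Z ∈ K) (n : ℕ) : sec Z n ∈ K := by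
  have h : AS (fun v V => sec (V 0) (v 0)) := by aesop (config := { enableSimp := false })
  exact AS.closed h hK (fun _ => n) (fun _ => Z) (fun _ => hZ)

/-- the hierarchy codes of `M` in `U` are hierarchy codes of `K` -/
theorem E3_hc (e5 : S_E5U) {M U C K : Set (Set ℕ)} (h : KH M U C K) {Z : Set ℕ} (hZ : Z ∈ U)
    (hH : HCin M Z) : HCin K Z := by
  obtain ⟨hU, hUK, hK, hwf, -⟩ := h
  refine ⟨hH.1, hwf _ (E3_sec (e5 M U C hU).1 hZ 0) ?_⟩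
  exact fun f hf => hH.2 f (hU.um hf)

theorem E3_prd {Z : Set ℕ} (hZ : Local Z) (i : ℕ) : Prd Z i ⊆ Ent Z := by
  rintro X ⟨j, hj, rfl⟩
  exact ⟨j, (hZ.1.1 j i hj.1).1, rfl⟩

theorem pE3 (l4 : S_L4) (e5 : S_E5U) : S_E3 := by
  intro M U C K h Z hZ hH
  obtain ⟨hU, hUK, hK, hwf, hno⟩ := id h
  by_contra hcon
  push Not at hcon
  apply hno
  refine ⟨Z, hZ, fun c hc => ?_⟩
  obtain ⟨Z', hZ', hH', hcZ'⟩ := hU.hc c hc
  obtain ⟨h1, h2⟩ := hcon Z' hZ' hH'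
  have : c ∈ Ent Z := by
    rcases l4 K (E3_arc hK) Z hZ Z' (hUK hZ') hH (E3_hc e5 h hZ' hH') with h3 | ⟨i', hi', h3⟩ | ⟨i, hi, h3⟩
    · exact absurd h3 h1
    · exact absurd h3 (h2 i' hi')
    · rw [h3] at hcZ'
      exact E3_prd hH.1 i hcZ'
  obtain ⟨i, -, hi⟩ := this
  exact ⟨i + 1, hi⟩

end B8d
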