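import Pool.Agent.Lib.MP_8dbd20_lc.Hi.E3

/-!
# MP_8dbd20_lc, `Hi/E4`: Lemma E, part 2
-/

set_option linter.unusedVariables false

namespace B8d

private theorem E4_ud {K : Set (Set ℕ)} (hK : Mod2 K)
    {R : Set (Set ℕ) → Set (Set ℕ) → (ℕ → ℕ) → (ℕ → Set ℕ) → Prop} (hR : UD R) (v : ℕ → ℕ)
    (V : ℕ → Set ℕ) (hV : ∀ i, V i ∈ K) : {n | R K ∅ (nc n v) V} ∈ K := by
  obtain ⟨φ, hφ⟩ := hR
  have h := hK.2 φ v V hV
  have e : {n | R K ∅ (nc n v) V} = {n | eval K ∅ φ (nc n v) V} := by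
    ext n
    exact hφ K ∅ ⟨Set.empty_subset _, hK.1, E3_arc hK⟩ _ V hV
  rw [e]; exact h

/-- restriction of a linear order to a downwards closed set -/
private theorem E4_lin {R I : Set ℕ} (hR : LinO R) (hI : ∀ j l, Nat.pair j l ∈ R → l ∈ I → j ∈ I) :
    LinO {x | x ∈ R ∧ x.unpair.2 ∈ I} := by
  obtain ⟨a1, a2, a3, a4⟩ := hR
  have hm : ∀ i j, Nat.pair i j ∈ {x | x ∈ R ∧ x.unpair.2 ∈ I} ↔ Nat.pair i j ∈ R ∧ j ∈ I := by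
    intro i j
    show _ ∧ (Nat.pair i j).unpair.2 ∈ I ↔ _
    rw [Nat.unpair_pair]
  refine ⟨?_, ?_, ?_, ?_⟩
  · intro i j hij
    obtain ⟨h, hj⟩ := (hm i j).1 hij
    obtain ⟨h2, h3⟩ := a1 i j h
    exact ⟨(hm i i).2 ⟨h2, hI i j h hj⟩, (hm j j).2 ⟨h3, hj⟩⟩
  · intro i j hij hji
    exact a2 i j ((hm i j).1 hij).1 ((hm j i).1 hji).1
  · intro i j k hij hjk
    exact (hm i k).2 ⟨a3 i j k ((hm i j).1 hij).1 ((hm j k).1 hjk).1, ((hm j k).1 hjk).2⟩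
  · intro i j hi hj
    obtain ⟨hi1, hi2⟩ := (hm i i).1 hi
    obtain ⟨hj1, hj2⟩ := (hm j j).1 hj
    rcases a4 i j hi1 hj1 with h | h
    · exact Or.inl ((hm i j).2 ⟨h, hj2⟩)
    · exact Or.inr ((hm j i).2 ⟨h, hi2⟩)

private theorem E4_as (l0 : S_L0) : UD (fun U C v V => Nat.pair (v 0) (v 0) ∈ V 0 ∧
    ¬ ∃ Z ∈ U, Local Z ∧ sec Z 0 = {y | y ∈ V 0 ∧ Nat.pair y.unpair.2 (v 0) ∈ V 0}) := by
  have hL : UD (fun U C v V => Local (V 0)) := l0.ud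
  aesop (config := { enableSimp := false })

private theorem E4_as1 : AS (fun v V => {x | x ∈ V 0 ∧ x.unpair.2 ≠ v 0 ∧
    Nat.pair x.unpair.2 (v 0) ∈ V 0}) := by
  aesop (config := { enableSimp := false })

private theorem E4_as2 : AS (fun v V => {x | (x.unpair.1 = 0 ∧ (x.unpair.2 ∈ V 0 ∧
    Nat.pair x.unpair.2.unpair.2 (v 0) ∈ V 0)) ∨ (x.unpair.1 = v 0 + 1 ∧ x.unpair.2 ∈ V 1) ∨
    (0 < x.unpair.1 ∧ x.unpair.1 ≠ v 0 + 1 ∧ x ∈ V 2)}) := by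
  aesop (config := { enableSimp := false })

/-- the next code of a `K`-hierarchy -/
theorem E4_next (l4 : S_L4) (e3 : S_E3) (e5 : S_E5U) {M U C K : Set (Set ℕ)} (h : KH M U C K)
    {Z : Set ℕ} (hZ : Z ∈ K) (hH : HCin K Z) : ∃ c ∈ K, Step (Ent Z) c := by
  obtain ⟨hU, hUK, hK, hwf, hno⟩ := id h
  have hKa := E3_arc hK
  obtain ⟨Z', hZ', hH', h1 | ⟨i', hi', h1⟩⟩ := e3 M U C K h Z hZ hH
  · have hc₁ : ∃ c ∈ C, ∀ n, c ≠ sec Z' n := by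
      by_contra hcon
      push Not at hcon
      exact hno ⟨Z', hUK hZ', hcon⟩
    obtain ⟨c₁, hc₁, hn⟩ := hc₁
    obtain ⟨Z'', hZ'', hH'', hcZ⟩ := hU.hc c₁ hc₁
    have hne : c₁ ∉ Ent Z' := by
      rintro ⟨i, -, hi⟩
      exact hn _ hi
    rcases l4 K hKa Z' (hUK hZ') Z'' (hUK hZ'') (E3_hc e5 h hZ' hH') (E3_hc e5 h hZ'' hH'')
      with h3 | ⟨i', hi', h3⟩ | ⟨i, hi, h3⟩
    · rw [h3] at hne
      exact absurd hcZ hne
    · refine ⟨sec Z'' (i' + 1), E3_sec hKa (hUK hZ'') _, ?_⟩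
      rw [h1, h3]
      exact hH''.1.2 i' hi'
    · rw [h3] at hcZ
      exact absurd (E3_prd hH'.1 i hcZ) hne
  · refine ⟨sec Z' (i' + 1), E3_sec hKa (hUK hZ') _, ?_⟩
    rw [h1]
    exact hH'.1.2 i' hi'

theorem pE4 (l0 : S_L0) (l1 : S_L1) (l4 : S_L4) (e2 : S_E2) (e3 : S_E3) (e5 : S_E5U) : S_E4 := by
  intro M U C K h R hR hlin hdesc
  obtain ⟨hU, hUK, hK, hwf, hno⟩ := id h
  have hKa := E3_arc hK
  obtain ⟨a1, a2, a3, a4⟩ := id hlin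
  set A : Set ℕ := {n | Nat.pair n n ∈ R ∧
    ¬ ∃ Z ∈ K, Local Z ∧ sec Z 0 = {y | y ∈ R ∧ Nat.pair y.unpair.2 n ∈ R}} with hA
  have hAK : A ∈ K := E4_ud hK (E4_as l0) (fun _ => 0) (fun _ => R) (fun _ => hR)
  by_cases hne : A.Nonempty
  swap
  · apply e2 K hK R hR hlin hdesc
    intro n hn
    by_contra hcon
    exact hne ⟨n, hn, hcon⟩
  exfalso
  obtain ⟨n, hnA, hmin⟩ := l1 K hKa R hR hlin hdesc A hAK hne (fun i hi => hi.1)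
  have hnn := hnA.1
  set R' : Set ℕ := {x | x ∈ R ∧ x.unpair.2 ≠ n ∧ Nat.pair x.unpair.2 n ∈ R} with hR'
  have hR'K : R' ∈ K := AS.closed E4_as1 hKa (fun _ => n) (fun _ => R) (fun _ => hR)
  have hm' : ∀ i j, Nat.pair i j ∈ R' ↔ Nat.pair i j ∈ R ∧ j ≠ n ∧ Nat.pair j n ∈ R := by
    intro i j
    show _ ∧ (Nat.pair i j).unpair.2 ≠ n ∧ Nat.pair (Nat.pair i j).unpair.2 n ∈ R ↔ _
    rw [Nat.unpair_pair]
  have hlin' : LinO R' := by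
    refine E4_lin (I := {l | l ≠ n ∧ Nat.pair l n ∈ R}) hlin ?_
    rintro j l h ⟨hl1, hl2⟩
    refine ⟨?_, a3 j l n h hl2⟩
    rintro rfl
    exact hl1 (a2 l j hl2 h)
  have hdesc' : ∀ f ∈ K, ¬ Desc f R' := by
    rintro f hf ⟨hf1, hf2⟩
    refine hdesc f hf ⟨hf1, fun k x y hx hy => ?_⟩
    have h := hf2 k x y hx hy
    exact ⟨((hm' y x).1 h.1).1, h.2⟩
  obtain ⟨Z, hZ, hL, h0⟩ := e2 K hK R' hR'K hlin' hdesc' (by
    intro m hm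
    obtain ⟨hmR, hmn, hmn'⟩ := (hm' m m).1 hm
    have hmA : m ∉ A := fun hmA => hmn (a2 m n hmn' (hmin m hmA))
    have : ∃ Z ∈ K, Local Z ∧ sec Z 0 = {y | y ∈ R ∧ Nat.pair y.unpair.2 m ∈ R} := by
      by_contra hcon
      exact hmA ⟨hmR, hcon⟩
    obtain ⟨Z, hZ, hL, h0⟩ := this
    refine ⟨Z, hZ, hL, ?_⟩
    rw [h0]
    ext x
    constructor
    · rintro ⟨h1, h2⟩
      refine ⟨⟨h1, ?_, a3 _ _ _ h2 hmn'⟩, (hm' _ _).2 ⟨h2, hmn, hmn'⟩⟩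
      intro e
      rw [e] at h2
      exact hmn (a2 m n hmn' h2)
    · rintro ⟨h1, h2⟩
      exact ⟨h1.1, ((hm' _ _).1 h2).1⟩)
  have hH : HCin K Z := ⟨hL, by rw [h0]; exact hdesc'⟩
  obtain ⟨c, hc, hstep⟩ := E4_next l4 e3 e5 h hZ hH
  set Z₂ : Set ℕ := {x | (x.unpair.1 = 0 ∧ (x.unpair.2 ∈ R ∧ Nat.pair x.unpair.2.unpair.2 n ∈ R)) ∨
    (x.unpair.1 = n + 1 ∧ x.unpair.2 ∈ c) ∨ (0 < x.unpair.1 ∧ x.unpair.1 ≠ n + 1 ∧ x ∈ Z)} with hZ₂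
  have hZ₂K : Z₂ ∈ K := AS.closed E4_as2 hKa (fun _ => n) (sc R (sc c (fun _ => Z))) (by
    rintro (_ | _ | i)
    · exact hR
    · exact hc
    · exact hZ)
  have s0 : sec Z₂ 0 = {y | y ∈ R ∧ Nat.pair y.unpair.2 n ∈ R} := by
    ext x
    simp [hZ₂]
  have sn : sec Z₂ (n + 1) = c := by
    ext x
    simp [hZ₂]
  have sj : ∀ j, j ≠ n → sec Z₂ (j + 1) = sec Z (j + 1) := by
    intro j hj
    ext x
    simp [hZ₂, hj]
  have hm : ∀ i j, Nat.pair i j ∈ sec Z₂ 0 ↔ Nat.pair i j ∈ R ∧ Nat.pair j n ∈ R := by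
    intro i j
    rw [s0]
    show _ ∧ Nat.pair (Nat.pair i j).unpair.2 n ∈ R ↔ _
    rw [Nat.unpair_pair]
  have hZm : ∀ i j, Nat.pair i j ∈ sec Z 0 ↔ Nat.pair i j ∈ R ∧ j ≠ n ∧ Nat.pair j n ∈ R := by
    intro i j
    rw [h0]; exact hm' i j
  apply hnA.2
  refine ⟨Z₂, hZ₂K, ⟨?_, ?_⟩, s0⟩
  · rw [s0]
    exact E4_lin (I := {l | Nat.pair l n ∈ R}) hlin (fun j l h hl => a3 j l n h hl)
  · intro i hi
    obtain ⟨hi1, hi2⟩ := (hm i i).1 hi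
    by_cases hin : i = n
    · subst hin
      have hP : Prd Z₂ i = Ent Z := by
        ext X
        constructor
        · rintro ⟨j, ⟨h1, h2⟩, rfl⟩
          have h3 := ((hm j i).1 h1).1
          exact ⟨j, (hZm j j).2 ⟨(a1 j i h3).1, h2, h3⟩, sj j h2⟩
        · rintro ⟨j, h1, rfl⟩
          obtain ⟨h2, h3, h4⟩ := (hZm j j).1 h1
          exact ⟨j, ⟨(hm j i).2 ⟨h4, hnn⟩, h3⟩, (sj j h3).symm⟩
      rw [hP, sn]
      exact hstep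
    · have hP : Prd Z₂ i = Prd Z i := by
        ext X
        constructor
        · rintro ⟨j, ⟨h1, h2⟩, rfl⟩
          have h3 := ((hm j i).1 h1).1
          have hjn : j ≠ n := by
            rintro rfl
            exact hin (a2 i j hi2 h3)
          exact ⟨j, ⟨(hZm j i).2 ⟨h3, hin, hi2⟩, h2⟩, sj j hjn⟩
        · rintro ⟨j, ⟨h1, h2⟩, rfl⟩
          have h3 := ((hZm j i).1 h1).1
          have hjn : j ≠ n := by
            rintro rfl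
            exact hin (a2 i j hi2 h3)
          exact ⟨j, ⟨(hm j i).2 ⟨h3, hi2⟩, h2⟩, (sj j hjn).symm⟩
      rw [hP, sj i hin]
      exact hL.2 i ((hZm i i).2 ⟨hi1, hin, hi2⟩)

end B8d
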