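import Pool.Agent.Lib.MP_8dbd20_lc.Hi.E3

/-!
# MP_8dbd20_lc, `Hi/E5`: Lemma E
-/

set_option linter.unusedVariables false

namespace B8d

private theorem E5_as : AS (fun v V => {x | x.unpair.2 = sInf {j | Nat.pair j j ∈ sec (V 1) 0 ∧
    sec (V 0) (x.unpair.1 + 1) = sec (V 1) (j + 1)}}) := by
  aesop (config := { enableSimp := false })

/-- the hierarchy code in `U` with the same entries -/
theorem E5_same (e0 : S_E0) (e3 : S_E3) (e5 : S_E5U) {M U C K : Set (Set ℕ)} (h : KH M U C K)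
    {Z : Set ℕ} (hZ : Z ∈ K) (hH : HCin K Z) : ∃ Z' ∈ U, HCin M Z' ∧ Ent Z = Ent Z' := by
  obtain ⟨hU, hUK, hK, hwf, hno⟩ := id h
  obtain ⟨Z', hZ', hH', h1 | ⟨i', hi', h1⟩⟩ := e3 M U C K h Z hZ hH
  · exact ⟨Z', hZ', hH', h1⟩
  · obtain ⟨-, Z₂, hZ₂, hL₂, h0, hs⟩ := e0 U (e5 M U C hU).1 Z' hZ' hH'.1 i' hi'
    have hm : ∀ i j, Nat.pair i j ∈ sec Z₂ 0 ↔
        Nat.pair i j ∈ sec Z' 0 ∧ j ≠ i' ∧ Nat.pair j i' ∈ sec Z' 0 := by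
      intro i j
      rw [h0]
      show _ ∧ (Nat.pair i j).unpair.2 ≠ i' ∧ Nat.pair (Nat.pair i j).unpair.2 i' ∈ sec Z' 0 ↔ _
      rw [Nat.unpair_pair]
    refine ⟨Z₂, hZ₂, ⟨hL₂, ?_⟩, ?_⟩
    · rintro f hf ⟨hf1, hf2⟩
      refine hH'.2 f hf ⟨hf1, fun k x y hx hy => ?_⟩
      have h := hf2 k x y hx hy
      exact ⟨((hm y x).1 h.1).1, h.2⟩
    · rw [h1]
      ext X
      constructor
      · rintro ⟨j, ⟨h2, h3⟩, rfl⟩
        exact ⟨j, (hm j j).2 ⟨(hH'.1.1.1 j i' h2).1, h3, h2⟩, (hs j).symm⟩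
      · rintro ⟨j, h2, rfl⟩
        obtain ⟨h3, h4, h5⟩ := (hm j j).1 h2
        exact ⟨j, ⟨h5, h4⟩, hs j⟩

theorem pE5 (l2 : S_L2) (e0 : S_E0) (e3 : S_E3) (e4 : S_E4) (e5 : S_E5U) : S_E5 := by
  intro M U C hU K hUK hK hwf hno R hR hlin hdesc
  have h : KH M U C K := ⟨hU, hUK, hK, hwf, hno⟩
  have hKa := E3_arc hK
  obtain ⟨Z, hZ, hL, h0⟩ := e4 M U C K h R hR hlin hdesc
  have hH : HCin K Z := ⟨hL, by rw [h0]; exact hdesc⟩
  obtain ⟨Z', hZ', hH', hE⟩ := E5_same e0 e3 e5 h hZ hH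
  obtain ⟨-, k1⟩ := l2 Z hL
  obtain ⟨-, k2⟩ := l2 Z' hH'.1
  have hfZ : ∀ i, Nat.pair i i ∈ R ↔ i ∈ fld Z := by
    intro i
    rw [← h0]; exact Iff.rfl
  set g : ℕ → ℕ := fun i => sInf {j | Nat.pair j j ∈ sec Z' 0 ∧ sec Z (i + 1) = sec Z' (j + 1)}
    with hg
  have hgK : {x | x.unpair.2 = g x.unpair.1} ∈ K :=
    AS.closed E5_as hKa (fun _ => 0) (sc Z (fun _ => Z')) (by
      rintro (_ | i)
      · exact hZ
      · exact hUK hZ')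
  have hg1 : ∀ i ∈ fld Z, g i ∈ fld Z' ∧ sec Z (i + 1) = sec Z' (g i + 1) := by
    intro i hi
    have hmem : sec Z (i + 1) ∈ Ent Z' := by rw [← hE]; exact ⟨i, hi, rfl⟩
    obtain ⟨j, hj, hij⟩ := hmem
    exact Nat.sInf_mem (s := {j | Nat.pair j j ∈ sec Z' 0 ∧ sec Z (i + 1) = sec Z' (j + 1)})
      ⟨j, hj, hij⟩
  refine ⟨Z', hZ', hH', g, hgK, ?_, ?_, ?_⟩
  · intro i hi
    exact (hg1 i ((hfZ i).1 hi)).1
  · intro i j hi hj
    have hi' := (hfZ i).1 hi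
    have hj' := (hfZ j).1 hj
    obtain ⟨gi, ei⟩ := hg1 i hi'
    obtain ⟨gj, ej⟩ := hg1 j hj'
    obtain ⟨p1, p2⟩ := k1 i hi' j hj'
    obtain ⟨q1, q2⟩ := k2 (g i) gi (g j) gj
    by_cases hij : i = j
    · subst hij
      exact ⟨fun _ => gi, fun _ => hi⟩
    · have hgij : g i ≠ g j := fun e => hij (p2 (by rw [ei, ej, e]))
      constructor
      · intro h1
        have h2 : ltR (sec Z 0) i j := ⟨by rw [h0]; exact h1, hij⟩
        have h3 := p1.1 h2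
        rw [ei, ej] at h3
        exact (q1.2 h3).1
      · intro h1
        have h3 := q1.1 ⟨h1, hgij⟩
        rw [← ei, ← ej] at h3
        have h4 := (p1.2 h3).1
        rw [h0] at h4
        exact h4
  · intro j hj
    have hmem : sec Z' (j + 1) ∈ Ent Z := by rw [hE]; exact ⟨j, hj, rfl⟩
    obtain ⟨i, hi, hij⟩ := hmem
    obtain ⟨gi, ei⟩ := hg1 i hi
    exact ⟨i, (hfZ i).2 hi, (k2 (g i) gi j hj).2 (by rw [← ei, hij])⟩

end B8d
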