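import Pool.Agent.Lib.MP_8dbd20_lc.Hi.Spec2

/-!
# MP_8dbd20_lc, `Hi/E5U`: `U` is arithmetically closed
-/

namespace B8d

private theorem E5U_fin {M U C : Set (Set ℕ)} (h : Univ M U C) (V : ℕ → Set ℕ)
    (hV : ∀ i, V i ∈ U) (b : ℕ) : ∃ c ∈ C, ∀ i < b, V i ∈ Ss c := by
  induction b with
  | zero =>
    obtain ⟨c, hc⟩ := h.inh
    exact ⟨c, hc, fun i hi => absurd hi (Nat.not_lt_zero i)⟩
  | succ b ih =>
    obtain ⟨c, hc, hcb⟩ := ih
    obtain ⟨d, hd, hdb⟩ := h.uSs (V b) (hV b)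
    have key : ∀ e, (∀ i < b, V i ∈ Ss e) → V b ∈ Ss e → ∀ i < b + 1, V i ∈ Ss e := by
      intro e he hb i hi
      rcases Nat.lt_succ_iff_lt_or_eq.1 hi with h1 | h1
      · exact he i h1
      · rw [h1]
        exact hb
    rcases h.lin c hc d hd with h1 | h1 | h1
    · subst h1
      exact ⟨c, hc, key c hcb hdb⟩
    · exact ⟨d, hd, key d (fun i hi => h.trans c hc d hd h1 (hcb i hi)) hdb⟩
    · exact ⟨c, hc, key c hcb (h.trans d hd c hc h1 hdb)⟩

theorem pE5U (t2 : S_T2) : S_E5U := by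
  intro M U C h
  refine ⟨?_, ?_⟩
  · rintro R hR v V hV
    have hR' := hR
    obtain ⟨φ, -, hφ⟩ := hR
    obtain ⟨b, hb⟩ := t2 φ
    obtain ⟨c, hc, hcb⟩ := E5U_fin h V hV b
    let V' : ℕ → Set ℕ := fun i => if i < b then V i else sec (sec c 0) 0
    have hV' : ∀ i, V' i ∈ Ss c := by
      intro i
      by_cases hi : i < b
      · simp only [V', if_pos hi]
        exact hcb i hi
      · simp only [V', if_neg hi]
        exact ⟨0, rfl⟩
    have h1 := h.ssU c hc (h.ssAr c hc R hR' v V' hV')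
    have h2 : {n | R (nc n v) V} = {n | R (nc n v) V'} := by
      apply Set.ext
      intro n
      show R (nc n v) V ↔ R (nc n v) V'
      rw [hφ, hφ]
      apply hb
      · intro i _
        rfl
      · intro i hi
        simp only [V', if_pos hi]
    rw [h2]
    exact h1
  · obtain ⟨c, hc⟩ := h.inh
    exact ⟨_, h.ssU c hc ⟨0, rfl⟩⟩

end B8d
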