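import Pool.Agent.Lib.MP_8dbd20_lc.Hi.Spec2

/-!
# MP_8dbd20_lc, block Hi: E6, the codes in `K`
-/

set_option linter.unusedVariables false

namespace B8d

private theorem E6_sec {M U C : Set (Set ℕ)} (h : Univ M U C) {Z : Set ℕ} (hZ : Z ∈ U) (n : ℕ) :
    sec Z n ∈ U := by
  obtain ⟨c, hc, hZc⟩ := h.uSs Z hZ
  refine h.ssU c hc ?_
  exact AS.closed (AS.sec (AS.var 0) (AN.const n)) (h.ssAr c hc) (fun _ => 0) (fun _ => Z)
    fun _ => hZc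

private theorem E6_prd {Z : Set ℕ} (h : Local Z) (i : ℕ) : Prd Z i ⊆ Ent Z := by
  rintro X ⟨j, hj, rfl⟩
  exact ⟨j, (h.1.1 j i hj.1).1, rfl⟩

theorem pE6 (e3 : S_E3) : S_E6 := by
  intro M U C hU K hUK hK hD hL c
  constructor
  · intro hc
    obtain ⟨Z, hZ, hHC, hcZ⟩ := hU.hc c hc
    refine ⟨Z, hUK hZ, ⟨hHC.1, ?_⟩, hcZ⟩
    exact hD (sec Z 0) (E6_sec hU hZ 0) fun f hf => hHC.2 f (hU.um hf)
  · rintro ⟨Z, hZ, hHC, hcZ⟩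
    obtain ⟨Z', hZ', hHC', h⟩ := e3 M U C K ⟨hU, hUK, hK, hD, hL⟩ Z hZ hHC
    refine hU.entM Z' (hU.um hZ') hHC' ?_
    rcases h with h | ⟨i', hi', h⟩
    · rw [← h]
      exact hcZ
    · rw [h] at hcZ
      exact E6_prd hHC'.1 i' hcZ

end B8d
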