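import Pool.Agent.Lib.MP_8dbd20_lc.Hi.Spec1

/-!
# The canonical Cohen real meets every listed dense set
-/

namespace B8d

private theorem G1_refl (w : ℕ) : Ext w w := ⟨le_rfl, fun _ _ => Iff.rfl⟩

private theorem G1_trans {a b c : ℕ} (h : Ext a b) (h' : Ext b c) : Ext a c :=
  ⟨h.1.trans h'.1, fun i hi => (h.2 i hi).trans (h'.2 i (lt_of_lt_of_le hi h.1))⟩

private theorem G1_step (c : Set ℕ) (n w : ℕ) : Ext w (gstep c n w) := by
  unfold gstep
  split_ifs with h
  · exact (Nat.sInf_mem (s := {w' | w' ∈ sec (sec c 0) n ∧ Ext w w'}) h).2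
  · exact G1_refl w

private theorem G1_succ (c : Set ℕ) (n : ℕ) : gseq c (n + 1) = gstep c n (gseq c n) := rfl

private theorem G1_chain (c : Set ℕ) {k l : ℕ} (h : k ≤ l) : Ext (gseq c k) (gseq c l) := by
  induction l, h using Nat.le_induction with
  | base => exact G1_refl _
  | succ l _ ih =>
    rw [G1_succ]
    exact G1_trans ih (G1_step c l _)

private theorem G1_ini (c : Set ℕ) (m : ℕ) : Ini (gseq c m) (Gam c) := by
  intro i hi
  constructor
  · intro h
    exact ⟨m, hi, h⟩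
  · rintro ⟨k, hk, h⟩
    rcases le_total k m with hkm | hkm
    · exact ((G1_chain c hkm).2 i hk).1 h
    · exact ((G1_chain c hkm).2 i hi).2 h

theorem pG1 : S_G1 := by
  rintro c D ⟨n, rfl⟩ hD
  refine ⟨gseq c (n + 1), ?_, G1_ini c (n + 1)⟩
  have h : ∃ w', w' ∈ sec (sec c 0) n ∧ Ext (gseq c n) w' := hD (gseq c n)
  rw [G1_succ]
  unfold gstep
  rw [if_pos h]
  exact (Nat.sInf_mem (s := {w' | w' ∈ sec (sec c 0) n ∧ Ext (gseq c n) w'}) h).1

end B8d
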