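import Pool.Agent.Lib.MP_8dbd20_lc.Hi.Spec1

namespace B8d

private theorem G2_ini {f : (ℕ → ℕ) → (ℕ → Set ℕ) → ℕ} {t : (ℕ → ℕ) → (ℕ → Set ℕ) → Set ℕ}
    (hf : AN f) (ht : AS t) : Ar (fun v V => Ini (f v V) (t v V)) := by
  have hf' := hf.ren (fun i => i + 1) (fun j => j)
  have ht' := ht.ren (fun i => i + 1) (fun j => j)
  refine Ar.allN (R := fun i v V => i < slen (f v V) → (sbit (f v V) i ↔ i ∈ t v V)) ?_
  refine Ar.imp (Ar.lt (AN.var 0) (AN.fst hf')) (Ar.iff ?_ (Ar.mem (AN.var 0) ht'))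
  exact Ar.testBit (AN.snd hf') (AN.var 0)

private theorem G2_ext {f g : (ℕ → ℕ) → (ℕ → Set ℕ) → ℕ}
    (hf : AN f) (hg : AN g) : Ar (fun v V => Ext (f v V) (g v V)) := by
  have hf' := hf.ren (fun i => i + 1) (fun j => j)
  have hg' := hg.ren (fun i => i + 1) (fun j => j)
  refine Ar.and (Ar.le (AN.fst hf) (AN.fst hg)) ?_
  refine Ar.allN (R := fun i v V => i < slen (f v V) → (sbit (f v V) i ↔ sbit (g v V) i)) ?_
  refine Ar.imp (Ar.lt (AN.var 0) (AN.fst hf')) (Ar.iff ?_ ?_)
  · exact Ar.testBit (AN.snd hf') (AN.var 0)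
  · exact Ar.testBit (AN.snd hg') (AN.var 0)

private theorem G2_all (hG : AS (fun _ V => Gam (V 0))) (n : ℕ) :
    Ar (fun v V => ∀ i < n, Ini (get i (v 0)) (Gam (V (i + 1)))) := by
  induction n with
  | zero => exact Ar.tru.congr fun v V => by simp
  | succ n ih =>
    have h := G2_ini (f := fun v _ => get n (v 0)) (t := fun _ V => Gam (V (n + 1)))
      (AN.get (AN.const n) (AN.var 0)) (hG.ren (fun i => i) (fun _ => n + 1))
    exact (ih.and h).congr fun v V => Nat.forall_lt_succ_right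

theorem pG2 (hb : S_L0b) (h3 : S_T3) (g1 : S_G1) : S_G2 := by
  have hG : AS (fun _ V => Gam (V 0)) := hb.2.2.2.2.2
  intro j cs
  induction j with
  | zero =>
    intro hcl _ D hD hdense
    have hcl0 := hcl 0 le_rfl
    have hD0 : {w | ∃ x, x ∈ D ∧ get 0 x = w} ∈ Ss (cs 0) := by
      refine hcl0 (fun v V => ∃ x, x ∈ V 0 ∧ get 0 x = v 0) ?_ (fun _ => 0) (fun _ => D)
        (fun _ => hD)
      refine Ar.exN (R := fun x v V => x ∈ V 0 ∧ get 0 x = v 0) ?_
      exact Ar.and (Ar.mem (AN.var 0) (AS.var 0))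
        (Ar.eqN (AN.get (AN.const 0) (AN.var 0)) (AN.var 1))
    obtain ⟨w, ⟨x, hx, hxw⟩, hw⟩ := g1 (cs 0) _ hD0 (fun w => by
      obtain ⟨x, hx, hx'⟩ := hdense (Nat.pair w 0)
      refine ⟨get 0 x, ⟨x, hx, rfl⟩, ?_⟩
      have := hx' 0 le_rfl
      rwa [get_zero_pair] at this)
    refine ⟨x, hx, fun i hi => ?_⟩
    have hi0 : i = 0 := by omega
    subst hi0
    rw [hxw]
    exact hw
  | succ j ih =>
    intro hcl hst D hD hdense
    have hmono : ∀ i ≤ j + 1, Ss (cs i) ⊆ Ss (cs (j + 1)) := by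
      intro i hi
      obtain ⟨k, hk⟩ : ∃ k, j + 1 = i + k := ⟨j + 1 - i, by omega⟩
      rw [hk]
      have : ∀ l, i + l ≤ j + 1 → Ss (cs i) ⊆ Ss (cs (i + l)) := by
        intro l
        induction l with
        | zero => intro _; exact subset_rfl
        | succ l ihl =>
          intro hl
          exact (ihl (by omega)).trans (hst (i + l) (by omega)).2
      exact this k (by omega)
    have hD1 : D ∈ Ss (cs (j + 1)) := hmono 0 (by omega) hD
    have hcs1 : ∀ i ≤ j, cs i ∈ Ss (cs (j + 1)) := fun i hi =>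
      hmono (i + 1) (by omega) (hst i (by omega)).1
    -- the set `D'`
    have hD' : {w | ∃ x, x ∈ D ∧ get (j + 1) x = w ∧
        ∀ i < j + 1, Ini (get i x) (Gam (cs i))} ∈ Ss (cs (j + 1)) := by
      have hR : Ar (fun v V => ∃ x, x ∈ V 0 ∧ get (j + 1) x = v 0 ∧
          ∀ i < j + 1, Ini (get i x) (Gam (V (i + 1)))) := by
        refine Ar.exN (R := fun x v V => x ∈ V 0 ∧ get (j + 1) x = v 0 ∧
          ∀ i < j + 1, Ini (get i x) (Gam (V (i + 1)))) ?_
        exact Ar.and (Ar.mem (AN.var 0) (AS.var 0))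
          (Ar.and (Ar.eqN (AN.get (AN.const (j + 1)) (AN.var 0)) (AN.var 1)) (G2_all hG (j + 1)))
      have h := hcl (j + 1) le_rfl _ hR (fun _ => 0)
        (sc D (fun i => if i ≤ j then cs i else D)) (fun i => by
          cases i with
          | zero => exact hD1
          | succ i =>
            rw [sc_succ]
            split_ifs with hi
            · exact hcs1 i hi
            · exact hD1)
      have he : {w | ∃ x, x ∈ D ∧ get (j + 1) x = w ∧
          ∀ i < j + 1, Ini (get i x) (Gam (cs i))} =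
          {n | (fun v V => ∃ x, x ∈ V 0 ∧ get (j + 1) x = v 0 ∧
          ∀ i < j + 1, Ini (get i x) (Gam (V (i + 1)))) (nc n (fun _ => 0))
          (sc D (fun i => if i ≤ j then cs i else D))} := by
        ext w
        simp only [Set.mem_ofPred_eq, sc_zero, sc_succ, nc_zero]
        refine exists_congr fun x => and_congr_right fun _ => and_congr_right fun _ => ?_
        refine forall_congr' fun i => imp_congr_right fun hi => ?_
        rw [if_pos (by omega)]
      rw [he]
      exact h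
    -- density of `D'`
    have hdense' : ∀ w, ∃ w' ∈ {w | ∃ x, x ∈ D ∧ get (j + 1) x = w ∧
        ∀ i < j + 1, Ini (get i x) (Gam (cs i))}, Ext w w' := by
      intro w
      have hD2 : {y | ∃ x, x ∈ D ∧ (∀ i, i < j + 1 → get i y = get i x) ∧
          Ext w (get (j + 1) x)} ∈ Ss (cs 0) := by
        refine hcl 0 (by omega) (fun v V => ∃ x, x ∈ V 0 ∧
          (∀ i, i < j + 1 → get i (v 0) = get i x) ∧ Ext (v 1) (get (j + 1) x)) ?_
          (fun _ => w) (fun _ => D) (fun _ => hD)
        refine Ar.exN (R := fun x v V => x ∈ V 0 ∧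
          (∀ i, i < j + 1 → get i (v 0) = get i x) ∧ Ext (v 1) (get (j + 1) x)) ?_
        refine Ar.and (Ar.mem (AN.var 0) (AS.var 0)) (Ar.and ?_ ?_)
        · refine Ar.allN (R := fun i v V => i < j + 1 → get i (v 1) = get i (v 0)) ?_
          exact Ar.imp (Ar.lt (AN.var 0) (AN.const (j + 1)))
            (Ar.eqN (AN.get (AN.var 0) (AN.var 2)) (AN.get (AN.var 0) (AN.var 1)))
        · exact G2_ext (AN.var 2) (AN.get (AN.const (j + 1)) (AN.var 0))
      obtain ⟨y, ⟨x, hx, hxy, hxw⟩, hy⟩ := ih (fun i hi => hcl i (by omega))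
        (fun i hi => hst i (by omega)) _ hD2 (fun y => by
          obtain ⟨m, hm⟩ := h3 (fun i => if i < j + 1 then get i y else w) (j + 2)
          obtain ⟨x, hx, hx'⟩ := hdense m
          refine ⟨x, ⟨x, hx, fun _ _ => rfl, ?_⟩, fun i hi => ?_⟩
          · have h1 := hx' (j + 1) le_rfl
            rw [hm (j + 1) (by omega), if_neg (by omega)] at h1
            exact h1
          · have h1 := hx' i (by omega)
            rw [hm i (by omega), if_pos (by omega)] at h1
            exact h1)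
      refine ⟨get (j + 1) x, ⟨x, hx, rfl, fun i hi => ?_⟩, hxw⟩
      rw [← hxy i hi]
      exact hy i (by omega)
    obtain ⟨w, ⟨x, hx, hxw, hxi⟩, hw⟩ := g1 (cs (j + 1)) _ hD' hdense'
    refine ⟨x, hx, fun i hi => ?_⟩
    rcases Nat.lt_or_ge i (j + 1) with h | h
    · exact hxi i h
    · have hi' : i = j + 1 := by omega
      subst hi'
      rw [hxw]
      exact hw

end B8d
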