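import Pool.Agent.Lib.MP_8dbd20_lc.Hi.Spec1

namespace B8d

private theorem G3_max (F : Finset (Set ℕ)) : F.Nonempty →
    (∀ c ∈ F, ∀ d ∈ F, c = d ∨ c ∈ Ss d ∨ d ∈ Ss c) →
    (∀ c ∈ F, ∀ d ∈ F, c ∈ Ss d → Ss c ⊆ Ss d) → ∃ m ∈ F, ∀ c ∈ F, c = m ∨ c ∈ Ss m := by
  classical
  induction F using Finset.induction_on with
  | empty => intro h; exact absurd h (by simp)
  | insert a F ha ih =>
    intro _ h1 h3
    rcases F.eq_empty_or_nonempty with rfl | hne
    · exact ⟨a, by simp, fun c hc => Or.inl (by simpa using hc)⟩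
    obtain ⟨m, hm, hmax⟩ := ih hne
      (fun c hc d hd => h1 c (Finset.mem_insert_of_mem hc) d (Finset.mem_insert_of_mem hd))
      (fun c hc d hd => h3 c (Finset.mem_insert_of_mem hc) d (Finset.mem_insert_of_mem hd))
    have hm' : m ∈ insert a F := Finset.mem_insert_of_mem hm
    have ha' := Finset.mem_insert_self a F
    rcases h1 a ha' m hm' with h | h | h
    · refine ⟨m, hm', fun c hc => ?_⟩
      rcases Finset.mem_insert.1 hc with rfl | hc
      · exact Or.inl h
      · exact hmax c hc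
    · refine ⟨m, hm', fun c hc => ?_⟩
      rcases Finset.mem_insert.1 hc with rfl | hc
      · exact Or.inr h
      · exact hmax c hc
    · refine ⟨a, ha', fun c hc => ?_⟩
      rcases Finset.mem_insert.1 hc with rfl | hc
      · exact Or.inl rfl
      · rcases hmax c hc with rfl | h4
        · exact Or.inr h
        · exact Or.inr (h3 m hm' a ha' h h4)

private theorem G3_main : ∀ (n : ℕ) (F : Finset (Set ℕ)), F.card = n + 1 →
    (∀ c ∈ F, ∀ d ∈ F, c = d ∨ c ∈ Ss d ∨ d ∈ Ss c) →
    (∀ c ∈ F, ∀ d ∈ F, c ∈ Ss d → Ss c ⊆ Ss d) →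
    ∃ cs : ℕ → Set ℕ, (∀ c, c ∈ F ↔ ∃ i ≤ n, c = cs i) ∧ ∀ i < n, cs i ∈ Ss (cs (i + 1)) := by
  classical
  intro n
  induction n with
  | zero =>
    intro F hF _ _
    obtain ⟨a, rfl⟩ := Finset.card_eq_one.1 hF
    refine ⟨fun _ => a, fun c => ?_, fun i hi => absurd hi (by omega)⟩
    rw [Finset.mem_singleton]
    exact ⟨fun h => ⟨0, le_rfl, h⟩, fun ⟨_, _, h⟩ => h⟩
  | succ n ih =>
    intro F hF h1 h3
    obtain ⟨m, hm, hmax⟩ := G3_max F (Finset.card_pos.1 (by omega)) h1 h3
    obtain ⟨cs, hcs, hcs'⟩ := ih (F.erase m) (by rw [Finset.card_erase_of_mem hm]; omega)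
      (fun c hc d hd => h1 c (Finset.mem_of_mem_erase hc) d (Finset.mem_of_mem_erase hd))
      (fun c hc d hd => h3 c (Finset.mem_of_mem_erase hc) d (Finset.mem_of_mem_erase hd))
    refine ⟨fun i => if i ≤ n then cs i else m, fun c => ?_, fun i hi => ?_⟩
    · constructor
      · intro hc
        by_cases hcm : c = m
        · exact ⟨n + 1, le_rfl, by dsimp only; rw [if_neg (by omega)]; exact hcm⟩
        · obtain ⟨i, hi, hi'⟩ := (hcs c).1 (Finset.mem_erase.2 ⟨hcm, hc⟩)
          exact ⟨i, by omega, by dsimp only; rw [if_pos hi]; exact hi'⟩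
      · rintro ⟨i, hi, rfl⟩
        dsimp only
        by_cases h : i ≤ n
        · rw [if_pos h]
          exact Finset.mem_of_mem_erase ((hcs _).2 ⟨i, h, rfl⟩)
        · rw [if_neg h]
          exact hm
    · dsimp only
      have hin : i ≤ n := by omega
      by_cases h : i + 1 ≤ n
      · rw [if_pos h, if_pos hin]
        exact hcs' i (by omega)
      · rw [if_neg h, if_pos hin]
        have h4 := (hcs (cs i)).2 ⟨i, by omega, rfl⟩
        rcases hmax _ (Finset.mem_of_mem_erase h4) with h5 | h5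
        · exact absurd h5 (Finset.mem_erase.1 h4).1
        · exact h5

theorem pG3 : S_G3 := by
  classical
  intro F hF hne h1 _ h3
  have hne' : hF.toFinset.Nonempty := by rwa [Set.Finite.toFinset_nonempty]
  obtain ⟨n, hn⟩ : ∃ n, hF.toFinset.card = n + 1 :=
    ⟨hF.toFinset.card - 1, by have := Finset.card_pos.2 hne'; omega⟩
  obtain ⟨cs, hcs, hcs'⟩ := G3_main n hF.toFinset hn
    (fun c hc d hd => h1 c (by simpa using hc) d (by simpa using hd))
    (fun c hc d hd => h3 c (by simpa using hc) d (by simpa using hd))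
  refine ⟨n, cs, ?_, hcs'⟩
  ext c
  rw [← Set.Finite.mem_toFinset hF]
  exact hcs c

end B8d
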