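import Pool.Agent.Lib.MP_8dbd20_lc.Hi.Spec1

namespace B8d

open Classical in
private theorem G4_str (M : ℕ) (p : ℕ → Prop) :
    ∃ s, slen s = M ∧ ∀ n < M, (sbit s n ↔ p n) := by
  refine ⟨Nat.pair M (Nat.ofBits (fun i : Fin M => decide (p i))), ?_, fun n hn => ?_⟩
  · unfold slen
    rw [Nat.unpair_pair]
  · unfold sbit
    rw [Nat.unpair_pair, Nat.testBit_ofBits_lt _ n hn]
    simp

private theorem G4_fs {e n : ℕ} (h : n ∈ Fs e) : n ≤ e := by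
  have h1 : e.testBit n = true := h
  by_contra hc
  have h2 : e < 2 ^ n := lt_of_lt_of_le (by omega : e < n) Nat.lt_two_pow_self.le
  rw [Nat.testBit_lt_two_pow h2] at h1
  exact absurd h1 (by simp)

private theorem G4_fsAr {f g : (ℕ → ℕ) → (ℕ → Set ℕ) → ℕ} (hf : AN f) (hg : AN g) :
    Ar (fun v V => f v V ∈ Fs (g v V)) := Ar.testBit hg hf

private theorem G4_sbit {f g : (ℕ → ℕ) → (ℕ → Set ℕ) → ℕ} (hf : AN f) (hg : AN g) :
    Ar (fun v V => sbit (f v V) (g v V)) := Ar.testBit (AN.snd hf) hg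

private theorem G4_mg2 (h3 : S_T3) (g2 : S_G2) (g3 : S_G3) (F : Set (Set ℕ)) (d : Set ℕ)
    (hF : F.Finite) (hcl : ∀ c ∈ F ∪ {d}, ArClosed (Ss c))
    (hlin : ∀ c ∈ F ∪ {d}, ∀ c' ∈ F ∪ {d}, c = c' ∨ c ∈ Ss c' ∨ c' ∈ Ss c)
    (hirr : ∀ c ∈ F ∪ {d}, c ∉ Ss c)
    (htr : ∀ c ∈ F ∪ {d}, ∀ c' ∈ F ∪ {d}, c ∈ Ss c' → Ss c ⊆ Ss c')
    (habove : ∀ c ∈ F, c = d ∨ d ∈ Ss c) :
    ∀ B ∈ Ss d, (∀ L, ∃ e w, Nat.pair e w ∈ B ∧ L ≤ w ∧ w ∉ Fs e ∧ ∀ i ∈ Fs e, L ≤ i) →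
    ∃ e w, Nat.pair e w ∈ B ∧ w ∈ Gam d ∧ ∀ c ∈ F, ∀ i ∈ Fs e, i ∉ Gam c := by
  intro B hB hL
  obtain ⟨j, cs, hcs, hst⟩ := g3 (F ∪ {d}) (hF.union (Set.finite_singleton d))
    ⟨d, Or.inr rfl⟩ hlin hirr htr
  have hmem : ∀ i ≤ j, cs i ∈ F ∪ {d} := fun i hi => by rw [hcs]; exact ⟨i, hi, rfl⟩
  have hd : d ∈ F ∪ {d} := Or.inr rfl
  have hst' : ∀ i < j, cs i ∈ Ss (cs (i + 1)) ∧ Ss (cs i) ⊆ Ss (cs (i + 1)) := fun i hi =>
    ⟨hst i hi, htr _ (hmem i (by omega)) _ (hmem (i + 1) (by omega)) (hst i hi)⟩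
  have hmono : ∀ i ≤ j, Ss (cs 0) ⊆ Ss (cs i) := by
    intro i
    induction i with
    | zero => intro _; exact subset_rfl
    | succ i ih => intro hi; exact (ih (by omega)).trans (hst' i (by omega)).2
  have hc0 : cs 0 = d := by
    have h1 : cs 0 = d ∨ d ∈ Ss (cs 0) := by
      rcases hmem 0 (Nat.zero_le _) with h | h
      · exact habove _ h
      · exact Or.inl h
    rcases h1 with h1 | h1
    · exact h1
    · have h2 := hd
      rw [hcs] at h2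
      obtain ⟨i, hi, hi'⟩ := h2
      have h4 := hmono i hi h1
      rw [← hi'] at h4
      exact absurd h4 (hirr d hd)
  have hD : {x | ∃ e w, Nat.pair e w ∈ B ∧ w < slen (get 0 x) ∧ sbit (get 0 x) w ∧
      ∀ i, i < j + 1 → ∀ n, n ∈ Fs e → n < slen (get i x) ∧ ¬ sbit (get i x) n} ∈ Ss (cs 0) := by
    rw [hc0]
    refine hcl d hd (fun v V => ∃ e w, Nat.pair e w ∈ V 0 ∧ w < slen (get 0 (v 0)) ∧
      sbit (get 0 (v 0)) w ∧ ∀ i, i < j + 1 → ∀ n, n ∈ Fs e → n < slen (get i (v 0)) ∧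
      ¬ sbit (get i (v 0)) n) ?_ (fun _ => 0) (fun _ => B) (fun _ => hB)
    refine Ar.exN (R := fun e v V => ∃ w, Nat.pair e w ∈ V 0 ∧ w < slen (get 0 (v 0)) ∧
      sbit (get 0 (v 0)) w ∧ ∀ i, i < j + 1 → ∀ n, n ∈ Fs e → n < slen (get i (v 0)) ∧
      ¬ sbit (get i (v 0)) n) ?_
    refine Ar.exN (R := fun w v V => Nat.pair (v 0) w ∈ V 0 ∧ w < slen (get 0 (v 1)) ∧
      sbit (get 0 (v 1)) w ∧ ∀ i, i < j + 1 → ∀ n, n ∈ Fs (v 0) → n < slen (get i (v 1)) ∧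
      ¬ sbit (get i (v 1)) n) ?_
    refine Ar.and (Ar.mem (AN.pair (AN.var 1) (AN.var 0)) (AS.var 0)) ?_
    refine Ar.and (Ar.lt (AN.var 0) (AN.fst (AN.get (AN.const 0) (AN.var 2)))) ?_
    refine Ar.and (G4_sbit (AN.get (AN.const 0) (AN.var 2)) (AN.var 0)) ?_
    refine Ar.allN (R := fun i v V => i < j + 1 → ∀ n, n ∈ Fs (v 1) → n < slen (get i (v 2)) ∧
      ¬ sbit (get i (v 2)) n) ?_
    refine Ar.imp (Ar.lt (AN.var 0) (AN.const (j + 1))) ?_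
    refine Ar.allN (R := fun n v V => n ∈ Fs (v 2) → n < slen (get (v 0) (v 3)) ∧
      ¬ sbit (get (v 0) (v 3)) n) ?_
    refine Ar.imp (G4_fsAr (AN.var 0) (AN.var 3)) ?_
    exact Ar.and (Ar.lt (AN.var 0) (AN.fst (AN.get (AN.var 1) (AN.var 4))))
      (G4_sbit (AN.get (AN.var 1) (AN.var 4)) (AN.var 0)).not
  obtain ⟨x, ⟨e, w, hew, hw, hbw, hbn⟩, hx⟩ := g2 j cs (fun i hi => hcl _ (hmem i hi)) hst' _ hD
    (fun y => by
      obtain ⟨e, w, hew, hLw, hwe, hLe⟩ :=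
        hL ((Finset.range (j + 1)).sup (fun i => slen (get i y)))
      have hlen : ∀ i < j + 1, slen (get i y) ≤
          (Finset.range (j + 1)).sup (fun i => slen (get i y)) := fun i hi =>
        Finset.le_sup (f := fun i => slen (get i y)) (Finset.mem_range.2 hi)
      choose s hs1 hs2 using fun i : ℕ => G4_str (e + w + 1)
        (fun n => (n < slen (get i y) ∧ sbit (get i y) n) ∨ (i = 0 ∧ n = w))
      obtain ⟨m, hm⟩ := h3 s (j + 1)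
      refine ⟨m, ⟨e, w, hew, ?_, ?_, ?_⟩, fun i hi => ?_⟩
      · rw [hm 0 (by omega), hs1]; omega
      · rw [hm 0 (by omega), hs2 0 w (by omega)]
        exact Or.inr ⟨rfl, rfl⟩
      · intro i hi n hn
        have h1 := G4_fs hn
        have h2 := hlen i hi
        have h4 := hLe n hn
        rw [hm i hi, hs1, hs2 i n (by omega)]
        refine ⟨by omega, ?_⟩
        rintro (⟨h5, _⟩ | ⟨_, h5⟩)
        · omega
        · exact hwe (h5 ▸ hn)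
      · have h2 := hlen i (by omega)
        rw [hm i (by omega)]
        refine ⟨by rw [hs1]; omega, fun n hn => ?_⟩
        rw [hs2 i n (by omega)]
        constructor
        · intro h; exact Or.inl ⟨hn, h⟩
        · rintro (⟨_, h⟩ | ⟨_, h⟩)
          · exact h
          · omega)
  refine ⟨e, w, hew, ?_, fun c hc n hn => ?_⟩
  · rw [← hc0]
    exact ((hx 0 (Nat.zero_le _)) w hw).1 hbw
  · have hc' : c ∈ F ∪ {d} := Or.inl hc
    rw [hcs] at hc'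
    obtain ⟨i, hi, rfl⟩ := hc'
    obtain ⟨h5, h6⟩ := hbn i (by omega) n hn
    intro h7
    exact h6 (((hx i hi) n h5).2 h7)

theorem pG4 (h3 : S_T3) (g2 : S_G2) (g3 : S_G3) : S_G4 := by
  intro F d hF hcl hlin hirr htr habove
  have hmg2 := G4_mg2 h3 g2 g3 F d hF hcl hlin hirr htr habove
  refine ⟨fun B hB hL => ?_, hmg2⟩
  have hB' : {x | x.unpair.1 ∈ B ∧ ¬ x.unpair.2 ∈ Fs x.unpair.1} ∈ Ss d := by
    refine hcl d (Or.inr rfl) (fun v V => (v 0).unpair.1 ∈ V 0 ∧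
      ¬ (v 0).unpair.2 ∈ Fs (v 0).unpair.1) ?_ (fun _ => 0) (fun _ => B) (fun _ => hB)
    exact Ar.and (Ar.mem (AN.fst (AN.var 0)) (AS.var 0))
      (G4_fsAr (AN.snd (AN.var 0)) (AN.fst (AN.var 0))).not
  obtain ⟨e, w, hew, -, h⟩ := hmg2 _ hB' (fun L => by
    obtain ⟨e, he, hLe⟩ := hL L
    have hn : e + L + 1 ∉ Fs e := fun h => by
      have := G4_fs h
      omega
    refine ⟨e, e + L + 1, ?_, by omega, hn, hLe⟩
    show (Nat.pair e (e + L + 1)).unpair.1 ∈ B ∧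
      ¬ (Nat.pair e (e + L + 1)).unpair.2 ∈ Fs (Nat.pair e (e + L + 1)).unpair.1
    rw [Nat.unpair_pair]
    exact ⟨he, hn⟩)
  have hew' : (Nat.pair e w).unpair.1 ∈ B := hew.1
  rw [Nat.unpair_pair] at hew'
  exact ⟨e, hew', h⟩

end B8d
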