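import Pool.Agent.Lib.MP_8dbd20_lc.Hi.Spec1

set_option linter.unusedVariables false

namespace B8d

/-- `j` is a strict predecessor of `i` -/
def L0_P (Z : Set ℕ) (i j : ℕ) : Prop := Nat.pair j i ∈ sec Z 0 ∧ j ≠ i

/-- the sections of `E` are the reals listed by the predecessors of `i` -/
def L0_en (Z E : Set ℕ) (i : ℕ) : Prop :=
  (∀ a, ∃ j, (Nat.pair j i ∈ sec Z 0 ∧ j ≠ i) ∧ ∃ n, sec E a = sec (sec (sec Z (j + 1)) 0) n) ∧
  ∀ j, (Nat.pair j i ∈ sec Z 0 ∧ j ≠ i) → ∀ n, ∃ a, sec (sec (sec Z (j + 1)) 0) n = sec E a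

/-- arithmetical form of case 1 -/
def L0_A (Z : Set ℕ) (i : ℕ) : Prop :=
  (∀ j, ¬ (Nat.pair j i ∈ sec Z 0 ∧ j ≠ i)) ∧ sec Z (i + 1) = Cmp ∅ ∅

/-- arithmetical form of case 2 -/
def L0_B (Z : Set ℕ) (i : ℕ) : Prop :=
  ∃ j, ((Nat.pair j i ∈ sec Z 0 ∧ j ≠ i) ∧ ∀ l, (Nat.pair l i ∈ sec Z 0 ∧ l ≠ i) →
    sec Z (l + 1) = sec Z (j + 1) ∨ ∃ a, sec Z (l + 1) = sec (sec (sec Z (j + 1)) 0) a) ∧
    sec Z (i + 1) = Cmp {x | x.unpair.2 ∈ sec Z (j + 1)} ∅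

/-- arithmetical form of case 3, without the equation for the completion -/
def L0_C (Z : Set ℕ) (i : ℕ) : Prop :=
  (∃ j, (Nat.pair j i ∈ sec Z 0 ∧ j ≠ i)) ∧
  (∀ j, (Nat.pair j i ∈ sec Z 0 ∧ j ≠ i) → ∃ l, (Nat.pair l i ∈ sec Z 0 ∧ l ≠ i) ∧
    ∃ a, sec Z (j + 1) = sec (sec (sec Z (l + 1)) 0) a) ∧
  (∀ a, a ∈ sec (sec Z (i + 1)) 2 ↔ ∃ j, (Nat.pair j i ∈ sec Z 0 ∧ j ≠ i) ∧
    sec (sec (sec Z (i + 1)) 1) a = sec Z (j + 1))

def L0_pf (Z : Set ℕ) (i k : ℕ) : Set ℕ :=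
  {n | Nat.pair k (Nat.pair (Nat.pair n 0) 0) ∈ sec (sec Z (i + 1)) 3}

def L0_step (Z : Set ℕ) (i : ℕ) : Prop :=
  L0_A Z i ∨ L0_B Z i ∨ (L0_C Z i ∧ L0_en Z (sec (sec Z (i + 1)) 1) i ∧
    sec Z (i + 1) = Cmp (sec (sec Z (i + 1)) 1) (sec (sec Z (i + 1)) 2) ∧
    ∃ k, sec (sec Z (i + 1)) 1 = L0_pf Z i k ∧ ∀ k', k' < k → ¬ L0_en Z (L0_pf Z i k') i)

theorem L0_en_ar : Ar (fun v V => L0_en (V 0) (V 1) (v 0)) := by
  unfold L0_en
  aesop (config := { enableSimp := false })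

theorem L0_pf_as : AS (fun v V => L0_pf (V 0) (v 0) (v 1)) := by
  unfold L0_pf
  aesop (config := { enableSimp := false })

theorem L0_step_ar (h5 : S_T5) : Ar (fun v V => L0_step (V 0) (v 0)) := by
  have hC : ∀ {s t u : (ℕ → ℕ) → (ℕ → Set ℕ) → Set ℕ}, AS s → AS t → AS u →
      Ar (fun v V => s v V = Cmp (t v V) (u v V)) := by
    intro s t u hs ht hu
    exact Ar.s03 (R := fun a b c => a = Cmp b c) h5.2.1 hs ht hu
  unfold L0_step
  refine Ar.or ?_ (Ar.or ?_ (Ar.and ?_ (Ar.and ?_ (Ar.and ?_ ?_))))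
  · unfold L0_A
    refine Ar.and ?_ (hC ?_ ?_ ?_) <;> aesop (config := { enableSimp := false })
  · unfold L0_B
    refine Ar.exN (R := fun j v V => ((Nat.pair j (v 0) ∈ sec (V 0) 0 ∧ j ≠ v 0) ∧
      ∀ l, (Nat.pair l (v 0) ∈ sec (V 0) 0 ∧ l ≠ v 0) →
      sec (V 0) (l + 1) = sec (V 0) (j + 1) ∨
        ∃ a, sec (V 0) (l + 1) = sec (sec (sec (V 0) (j + 1)) 0) a) ∧
      sec (V 0) (v 0 + 1) = Cmp {x | x.unpair.2 ∈ sec (V 0) (j + 1)} ∅) ?_
    refine Ar.and ?_ (hC ?_ ?_ ?_) <;> aesop (config := { enableSimp := false })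
  · unfold L0_C
    aesop (config := { enableSimp := false })
  · refine Ar.s12 (R := fun i Z E => L0_en Z E i) L0_en_ar (AN.var 0) (AS.var 0) ?_
    aesop (config := { enableSimp := false })
  · refine hC ?_ ?_ ?_ <;> aesop (config := { enableSimp := false })
  · refine Ar.exN (R := fun k v V => sec (sec (V 0) (v 0 + 1)) 1 = L0_pf (V 0) (v 0) k ∧
      ∀ k', k' < k → ¬ L0_en (V 0) (L0_pf (V 0) (v 0) k') (v 0)) ?_
    refine Ar.and ?_ ?_
    · refine Ar.eqS ?_ ?_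
      · aesop (config := { enableSimp := false })
      · exact AS.s21 (R := fun i k Z => L0_pf Z i k) L0_pf_as (AN.var 1) (AN.var 0) (AS.var 0)
    · refine Ar.allN (R := fun k' v V => k' < v 0 →
        ¬ L0_en (V 0) (L0_pf (V 0) (v 1) k') (v 1)) ?_
      refine Ar.imp (Ar.lt (AN.var 0) (AN.var 1)) (Ar.not ?_)
      refine Ar.s12 (R := fun i Z E => L0_en Z E i) L0_en_ar (AN.var 2) (AS.var 0) ?_
      exact AS.s21 (R := fun i k Z => L0_pf Z i k) L0_pf_as (AN.var 2) (AN.var 0) (AS.var 0)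

theorem L0_sec1 (E K : Set ℕ) : sec (Cmp E K) 1 = E := by
  ext m
  show Nat.pair 1 m ∈ join4 _ _ _ _ ↔ _
  simp [join4]

theorem L0_sec2 (E K : Set ℕ) : sec (Cmp E K) 2 = K := by
  ext m
  show Nat.pair 2 m ∈ join4 _ _ _ _ ↔ _
  simp [join4]

theorem L0_sec3 (E K : Set ℕ) : sec (Cmp E K) 3 = Tru E K := by
  ext m
  show Nat.pair 3 m ∈ join4 _ _ _ _ ↔ _
  simp [join4]

theorem L0_UU (Z : Set ℕ) (i : ℕ) (X : Set ℕ) : X ∈ UU (Prd Z i) ↔
    ∃ j, (Nat.pair j i ∈ sec Z 0 ∧ j ≠ i) ∧ ∃ n, X = sec (sec (sec Z (j + 1)) 0) n := by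
  constructor
  · rintro ⟨c, ⟨j, hj, rfl⟩, n, hn⟩
    exact ⟨j, hj, n, hn⟩
  · rintro ⟨j, hj, n, hn⟩
    exact ⟨_, ⟨j, hj, rfl⟩, n, hn⟩

theorem L0_en_iff (Z E : Set ℕ) (i : ℕ) : L0_en Z E i ↔ Secs E = UU (Prd Z i) := by
  constructor
  · rintro ⟨h1, h2⟩
    ext X
    rw [L0_UU]
    constructor
    · rintro ⟨a, rfl⟩
      exact h1 a
    · rintro ⟨j, hj, n, rfl⟩
      exact h2 j hj n
  · intro h
    constructor
    · intro a
      have : sec E a ∈ UU (Prd Z i) := by rw [← h]; exact ⟨a, rfl⟩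
      exact (L0_UU Z i _).1 this
    · intro j hj n
      have : sec (sec (sec Z (j + 1)) 0) n ∈ Secs E := by
        rw [h]
        exact (L0_UU Z i _).2 ⟨j, hj, n, rfl⟩
      exact this

/-- the truth set of `(UU S, S)` -/
theorem L0_tru {S : Set (Set ℕ)} {E K : Set ℕ} (hE : Secs E = UU S) (hK : K = {a | sec E a ∈ S})
    (hS : S ⊆ UU S) (k : ℕ) : {n | Nat.pair k (Nat.pair (Nat.pair n 0) 0) ∈ Tru E K} = pf S k := by
  have hCK : CK E K = S := by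
    ext X
    constructor
    · rintro ⟨a, ha, rfl⟩
      rw [hK] at ha
      exact ha
    · intro hX
      have h1 : X ∈ Secs E := by rw [hE]; exact hS hX
      obtain ⟨a, rfl⟩ := h1
      refine ⟨a, ?_, rfl⟩
      rw [hK]
      exact hX
  ext n
  show eval (Secs E) (CK E K) (dec (Nat.pair k (Nat.pair (Nat.pair n 0) 0)).unpair.1)
    (fun i => get i (Nat.pair k (Nat.pair (Nat.pair n 0) 0)).unpair.2.unpair.1)
    (fun j => ix E (get j (Nat.pair k (Nat.pair (Nat.pair n 0) 0)).unpair.2.unpair.2)) ↔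
    eval (UU S) S (dec k) (nc n (fun _ => 0)) (fun _ => ∅)
  rw [hE, hCK]
  simp only [Nat.unpair_pair]
  rw [← nc_get n 0]
  have h1 : (fun i => get i 0) = fun _ => 0 := by
    funext i
    exact get_of_zero i
  have h2 : (fun j => ix E (get j 0)) = fun _ => (∅ : Set ℕ) := by
    funext j
    rw [get_of_zero]
    ext m
    simp [ix]
  rw [h1, h2]

theorem L0_step_iff (Z : Set ℕ) (i : ℕ) : L0_step Z i ↔ Step (Prd Z i) (sec Z (i + 1)) := by
  constructor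
  · rintro (⟨h1, h2⟩ | ⟨j, ⟨h1, h2⟩, h3⟩ | ⟨⟨h1, h2, h3⟩, h4, h5, k, h6, h7⟩)
    · left
      refine ⟨?_, h2⟩
      ext X
      constructor
      · rintro ⟨j, hj, -⟩
        exact h1 j hj
      · intro h
        exact absurd h (Set.notMem_empty X)
    · right; left
      refine ⟨sec Z (j + 1), ⟨j, h1, rfl⟩, ?_, h3⟩
      rintro e ⟨l, hl, rfl⟩
      exact h2 l hl
    · right; right
      have hE := (L0_en_iff _ _ _).1 h4
      have hK : sec (sec Z (i + 1)) 2 = {a | sec (sec (sec Z (i + 1)) 1) a ∈ Prd Z i} := by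
        ext a
        rw [h3 a]
        constructor
        · rintro ⟨j, hj, e⟩
          exact ⟨j, hj, e⟩
        · rintro ⟨j, hj, e⟩
          exact ⟨j, hj, e⟩
      have hS : Prd Z i ⊆ UU (Prd Z i) := by
        rintro X ⟨j, hj, rfl⟩
        obtain ⟨l, hl, a, ha⟩ := h2 j hj
        exact (L0_UU Z i _).2 ⟨l, hl, a, ha⟩
      have hpf : ∀ k, L0_pf Z i k = pf (Prd Z i) k := by
        intro k
        rw [← L0_tru hE hK hS k, ← L0_sec3, ← h5]
        rfl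
      refine ⟨?_, ?_, k, ?_, ?_, ?_⟩
      · obtain ⟨j, hj⟩ := h1
        exact ⟨_, j, hj, rfl⟩
      · rintro d ⟨j, hj, rfl⟩
        obtain ⟨l, hl, a, ha⟩ := h2 j hj
        exact ⟨_, ⟨l, hl, rfl⟩, a, ha⟩
      · show Secs (pf (Prd Z i) k) = UU (Prd Z i)
        rw [← hpf k, ← h6]
        exact hE
      · intro k' hk' hen
        apply h7 k' hk'
        rw [L0_en_iff, hpf]
        exact hen
      · rw [← hpf k, ← h6, ← hK]
        exact h5
  · rintro (⟨h1, h2⟩ | ⟨d, ⟨j, hj, rfl⟩, h2, h3⟩ | ⟨h1, h2, k, h3, h4, h5⟩)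
    · left
      refine ⟨fun j hj => ?_, h2⟩
      have : sec Z (j + 1) ∈ Prd Z i := ⟨j, hj, rfl⟩
      rw [h1] at this
      exact this
    · right; left
      exact ⟨j, ⟨hj, fun l hl => h2 _ ⟨l, hl, rfl⟩⟩, h3⟩
    · right; right
      have e1 : sec (sec Z (i + 1)) 1 = pf (Prd Z i) k := by rw [h5, L0_sec1]
      have e2 : sec (sec Z (i + 1)) 2 = {a | sec (pf (Prd Z i) k) a ∈ Prd Z i} := by
        rw [h5, L0_sec2]
      have e3 : sec (sec Z (i + 1)) 3 =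
          Tru (pf (Prd Z i) k) {a | sec (pf (Prd Z i) k) a ∈ Prd Z i} := by
        rw [h5, L0_sec3]
      have hS : Prd Z i ⊆ UU (Prd Z i) := by
        intro X hX
        obtain ⟨e, he, hXe⟩ := h2 X hX
        exact ⟨e, he, hXe⟩
      have hpf : ∀ k', L0_pf Z i k' = pf (Prd Z i) k' := by
        intro k'
        rw [← L0_tru h3 rfl hS k']
        unfold L0_pf
        rw [e3]
      refine ⟨⟨?_, ?_, ?_⟩, ?_, ?_, k, ?_, ?_⟩
      · obtain ⟨X, j, hj, -⟩ := h1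
        exact ⟨j, hj⟩
      · intro j hj
        obtain ⟨e, ⟨l, hl, rfl⟩, a, ha⟩ := h2 _ ⟨j, hj, rfl⟩
        exact ⟨l, hl, a, ha⟩
      · intro a
        rw [e1, e2]
        constructor
        · rintro ⟨j, hj, e⟩
          exact ⟨j, hj, e⟩
        · rintro ⟨j, hj, e⟩
          exact ⟨j, hj, e⟩
      · rw [L0_en_iff, e1]
        exact h3
      · rw [e1, e2]
        exact h5
      · rw [e1, hpf]
      · intro k' hk' hen
        rw [L0_en_iff, hpf] at hen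
        exact h4 k' hk' hen

theorem pL0 (h5 : S_T5) : S_L0 := by
  have h1 : Ar (fun _ V => LinO (sec (V 0) 0)) := by
    unfold LinO
    aesop (config := { enableSimp := false })
  have h2 : Ar (fun _ V => ∀ i, Nat.pair i i ∈ sec (V 0) 0 → L0_step (V 0) i) := by
    refine Ar.allN (R := fun i _ V => Nat.pair i i ∈ sec (V 0) 0 → L0_step (V 0) i) ?_
    refine Ar.imp ?_ (L0_step_ar h5)
    aesop (config := { enableSimp := false })
  refine (h1.and h2).congr fun v V => ?_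
  refine and_congr Iff.rfl (forall_congr' fun i => imp_congr Iff.rfl ?_)
  exact (L0_step_iff _ _).symm

end B8d
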