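import Pool.Agent.Lib.MP_8dbd20_lc.Hi.Spec1

/-!
# MP_8dbd20_lc, `Hi/L1`: least elements
-/

namespace B8d

private theorem L1_as : AS (fun v V => {x | x.unpair.2 = Nat.rec (motive := fun _ => ℕ) (v 0)
    (fun _ w => sInf {b | b ∈ V 0 ∧ ltR (V 1) b w}) x.unpair.1}) := by
  refine AS.setOf (R := fun x v V => x.unpair.2 = Nat.rec (motive := fun _ => ℕ) (v 0)
    (fun _ w => sInf {b | b ∈ V 0 ∧ ltR (V 1) b w}) x.unpair.1) ?_
  refine Ar.eqN (AN.snd (AN.var 0)) ?_
  refine AN.natRec (a := fun v _ => v 1) (h := fun _ w _ V => sInf {b | b ∈ V 0 ∧ ltR (V 1) b w})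
    (AN.var 1) ?_ (AN.fst (AN.var 0))
  unfold ltR
  aesop (config := { enableSimp := false })

theorem pL1 : S_L1 := by
  intro K hK R hR hlin hdesc A hA hne hAR
  by_contra hcon
  push Not at hcon
  have hlt : ∀ i ∈ A, ∃ j, j ∈ A ∧ ltR R j i := by
    intro i hi
    obtain ⟨j, hj, hij⟩ := hcon i hi
    refine ⟨j, hj, ?_, ?_⟩
    · rcases hlin.2.2.2 i j (hAR i hi) (hAR j hj) with h | h
      · exact absurd h hij
      · exact h
    · rintro rfl
      exact hij (hAR j hj)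
  obtain ⟨a, ha⟩ := hne
  let f : ℕ → ℕ := fun n => Nat.rec (motive := fun _ => ℕ) a
    (fun _ w => sInf {b | b ∈ A ∧ ltR R b w}) n
  have hf1 : ∀ n, f (n + 1) = sInf {b | b ∈ A ∧ ltR R b (f n)} := fun n => rfl
  have hfA : ∀ n, f n ∈ A := by
    intro n
    induction n with
    | zero => exact ha
    | succ n ih =>
      rw [hf1]
      exact (Nat.sInf_mem (s := {b | b ∈ A ∧ ltR R b (f n)}) (hlt _ ih)).1
  have hfR : ∀ n, ltR R (f (n + 1)) (f n) := by
    intro n
    rw [hf1]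
    exact (Nat.sInf_mem (s := {b | b ∈ A ∧ ltR R b (f n)}) (hlt _ (hfA n))).2
  have hfK : {x | x.unpair.2 = f x.unpair.1} ∈ K := by
    refine AS.closed L1_as hK (fun _ => a) (sc A (fun _ => R)) ?_
    intro i
    rcases i with _ | i
    · exact hA
    · exact hR
  refine hdesc _ hfK ⟨fun k => ⟨f k, by simp⟩, fun k x y hx hy => ?_⟩
  simp only [Set.mem_setOf_eq, Nat.unpair_pair] at hx hy
  rw [hx, hy]
  exact hfR k

end B8d
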