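import Pool.Agent.Lib.MP_8dbd20_lc.Hi.Spec1

/-!
# MP_8dbd20_lc, `Hi/L2`: in a hierarchy the order is the order of the codes
-/

namespace B8d

theorem pL2 (h9 : S_T9) (h10 : S_T10) (s1 : S_St1) (s2 : S_St2) : S_L2 := by
  rintro Z ⟨⟨hl1, -, -, hl4⟩, hst⟩
  have hc : ∀ i ∈ fld Z, IsCmp (sec Z (i + 1)) := fun i hi => s1 _ _ (hst i hi)
  have hirr : ∀ i ∈ fld Z, sec Z (i + 1) ∉ Ss (sec Z (i + 1)) := by
    intro i hi
    obtain ⟨E, K, h⟩ := hc i hi
    rw [h]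
    exact (h9 E K).1
  have hPc : ∀ i, ∀ e ∈ Prd Z i, IsCmp e := by
    rintro i e ⟨j, hj, rfl⟩
    exact hc j (hl1 j i hj.1).1
  have hlt : ∀ i ∈ fld Z, ∀ j ∈ fld Z, ltR (sec Z 0) i j →
      sec Z (i + 1) ∈ Ss (sec Z (j + 1)) := by
    intro i _ j hj h
    exact s2 _ _ (hPc j) (hst j hj) _ ⟨i, h, rfl⟩
  have htri : ∀ i ∈ fld Z, ∀ j ∈ fld Z, i ≠ j → ltR (sec Z 0) i j ∨ ltR (sec Z 0) j i := by
    intro i hi j hj hij
    rcases hl4 i j hi hj with h | h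
    · exact Or.inl ⟨h, hij⟩
    · exact Or.inr ⟨h, hij.symm⟩
  refine ⟨hc, fun i hi j hj => ⟨⟨hlt i hi j hj, fun h => ?_⟩, fun h => ?_⟩⟩
  · by_cases hij : i = j
    · subst hij
      exact absurd h (hirr i hi)
    · rcases htri i hi j hj hij with h1 | h1
      · exact h1
      · exact absurd (h10 _ _ (hc i hi) (hlt j hj i hi h1) h) (hirr i hi)
  · by_contra hij
    rcases htri i hi j hj hij with h1 | h1
    · have h2 := hlt i hi j hj h1
      rw [← h] at h2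
      exact hirr i hi h2
    · have h2 := hlt j hj i hi h1
      rw [← h] at h2
      exact hirr i hi h2

end B8d
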