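import Pool.Agent.Lib.MP_8dbd20_lc.Hi.Spec1

set_option linter.unusedVariables false

namespace B8d

/-- the predecessors of `i` are listed below `i'`, in terms of indices -/
def L3_sub (Z Z' : Set ℕ) (i i' : ℕ) : Prop :=
  ∀ j, (Nat.pair j i ∈ sec Z 0 ∧ j ≠ i) →
    ∃ j', (Nat.pair j' i' ∈ sec Z' 0 ∧ j' ≠ i') ∧ sec Z (j + 1) = sec Z' (j' + 1)

theorem L3_sub_iff (Z Z' : Set ℕ) (i i' : ℕ) : L3_sub Z Z' i i' ↔ Prd Z i ⊆ Prd Z' i' := by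
  constructor
  · rintro h X ⟨j, hj, rfl⟩
    obtain ⟨j', hj', e⟩ := h j hj
    exact ⟨j', hj', e⟩
  · intro h j hj
    obtain ⟨j', hj', e⟩ := h ⟨j, hj, rfl⟩
    exact ⟨j', hj', e⟩

theorem L3_as : AS (fun _ V => {i | Nat.pair i i ∈ sec (V 0) 0 ∧ ∃ i', Nat.pair i' i' ∈ sec (V 1) 0 ∧
    sec (V 0) (i + 1) = sec (V 1) (i' + 1) ∧
    ¬ (L3_sub (V 0) (V 1) i i' ∧ L3_sub (V 1) (V 0) i' i)}) := by
  unfold L3_sub
  aesop (config := { enableSimp := false })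

/-- the predecessors of `i` if `Y_j` is the last one -/
theorem L3_prd (h2 : S_L2) {Z : Set ℕ} (hZ : Local Z) {i j : ℕ} (hji : ltR (sec Z 0) j i)
    (hm : ∀ e ∈ Prd Z i, e = sec Z (j + 1) ∨ e ∈ Ss (sec Z (j + 1))) :
    Prd Z i = {sec Z (j + 1)} ∪ Prd Z j := by
  obtain ⟨a1, a2, a3, a4⟩ := hZ.1
  have hj : j ∈ fld Z := (a1 j i hji.1).1
  ext X
  constructor
  · rintro ⟨l, hl, rfl⟩
    rcases hm (sec Z (l + 1)) ⟨l, hl, rfl⟩ with h | h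
    · exact Or.inl h
    · right
      refine ⟨l, ?_, rfl⟩
      exact (((h2 Z hZ).2 l (a1 l i hl.1).1 j hj).1).2 h
  · rintro (rfl | ⟨l, hl, rfl⟩)
    · exact ⟨j, hji, rfl⟩
    · refine ⟨l, ⟨a3 l j i hl.1 hji.1, ?_⟩, rfl⟩
      rintro rfl
      exact hl.2 (a2 l j hl.1 hji.1)

theorem pL3 (h1 : S_L1) (h2 : S_L2) (s4 : S_St4) : S_L3 := by
  intro K hK Z hZ Z' hZ' hH hH' i0 hi0 i0' hi0' e0
  by_contra hne
  set A : Set ℕ := {i | Nat.pair i i ∈ sec Z 0 ∧ ∃ i', Nat.pair i' i' ∈ sec Z' 0 ∧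
    sec Z (i + 1) = sec Z' (i' + 1) ∧ ¬ (L3_sub Z Z' i i' ∧ L3_sub Z' Z i' i)} with hA
  have hAm : ∀ i, i ∈ A ↔ i ∈ fld Z ∧ ∃ i' ∈ fld Z', sec Z (i + 1) = sec Z' (i' + 1) ∧
      Prd Z i ≠ Prd Z' i' := by
    intro i
    constructor
    · rintro ⟨b1, i', b2, b3, b4⟩
      refine ⟨b1, i', b2, b3, fun e => b4 ?_⟩
      rw [L3_sub_iff, L3_sub_iff, e]
      exact ⟨subset_rfl, subset_rfl⟩
    · rintro ⟨b1, i', b2, b3, b4⟩
      refine ⟨b1, i', b2, b3, fun h => b4 ?_⟩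
      rw [L3_sub_iff, L3_sub_iff] at h
      exact Set.Subset.antisymm h.1 h.2
  have hAK : A ∈ K := AS.closed L3_as hK (fun _ => 0) (sc Z (fun _ => Z')) (by
    intro i
    cases i
    · exact hZ
    · exact hZ')
  have hRK : sec Z 0 ∈ K := by
    have h : AS (fun _ V => sec (V 0) 0) := by aesop (config := { enableSimp := false })
    exact AS.closed h hK (fun _ => 0) (fun _ => Z) (fun _ => hZ)
  obtain ⟨i, hiA, hmin⟩ := h1 K hK (sec Z 0) hRK hH.1.1 hH.2 A hAK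
    ⟨i0, (hAm i0).2 ⟨hi0, i0', hi0', e0, hne⟩⟩ (fun i hi => hi.1)
  obtain ⟨hi, i', hi', e, hPne⟩ := (hAm i).1 hiA
  obtain ⟨a1, a2, a3, a4⟩ := hH.1.1
  obtain ⟨a1', a2', a3', a4'⟩ := hH'.1.1
  have hc : ∀ e ∈ Prd Z i, IsCmp e := by
    rintro e ⟨j, hj, rfl⟩
    exact (h2 Z hH.1).1 j (a1 j i hj.1).1
  have hc' : ∀ e ∈ Prd Z' i', IsCmp e := by
    rintro e ⟨j, hj, rfl⟩
    exact (h2 Z' hH'.1).1 j (a1' j i' hj.1).1
  have st' := hH'.1.2 i' hi'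
  rw [← e] at st'
  rcases s4 (Prd Z i) (Prd Z' i') (sec Z (i + 1)) hc hc' (hH.1.2 i hi) st' with h |
    ⟨d, hd, hd', hm, hm'⟩
  · exact hPne h
  obtain ⟨j, hj, rfl⟩ := hd
  obtain ⟨j', hj', ed⟩ := hd'
  have hjA : j ∉ A := by
    intro hjA
    exact hj.2 (a2 j i hj.1 (hmin j hjA))
  have hPj : Prd Z j = Prd Z' j' := by
    by_contra hn
    exact hjA ((hAm j).2 ⟨(a1 j i hj.1).1, j', (a1' j' i' hj'.1).1, ed, hn⟩)
  apply hPne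
  rw [L3_prd h2 hH.1 hj hm, L3_prd h2 hH'.1 hj' (by rw [← ed]; exact hm'), ed, hPj]

end B8d
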