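import Pool.Agent.Lib.MP_8dbd20_lc.Hi.Spec1

set_option linter.unusedVariables false

namespace B8d

theorem L4_as : AS (fun _ V => {i | Nat.pair i i ∈ sec (V 1) 0 ∧
    ¬ ∃ j, Nat.pair j j ∈ sec (V 0) 0 ∧ sec (V 1) (i + 1) = sec (V 0) (j + 1)}) := by
  aesop (config := { enableSimp := false })

/-- the least entry of `Z'` which is not in `Z` -/
theorem L4_half (h1 : S_L1) (h3 : S_L3) {K : Set (Set ℕ)} (hK : ArClosed K) {Z Z' : Set ℕ}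
    (hZ : Z ∈ K) (hZ' : Z' ∈ K) (hH : HCin K Z) (hH' : HCin K Z') :
    Ent Z' ⊆ Ent Z ∨ ∃ i' ∈ fld Z', sec Z' (i' + 1) ∉ Ent Z ∧ Prd Z' i' ⊆ Ent Z ∧
      ∀ X ∈ Ent Z, X ∈ Ent Z' → X ∈ Prd Z' i' := by
  by_cases hsub : Ent Z' ⊆ Ent Z
  · exact Or.inl hsub
  right
  rw [Set.not_subset] at hsub
  obtain ⟨X, ⟨i0, hi0, rfl⟩, hX⟩ := hsub
  set A : Set ℕ := {i | Nat.pair i i ∈ sec Z' 0 ∧
    ¬ ∃ j, Nat.pair j j ∈ sec Z 0 ∧ sec Z' (i + 1) = sec Z (j + 1)} with hA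
  have hAK : A ∈ K := AS.closed L4_as hK (fun _ => 0) (sc Z (fun _ => Z')) (by
    intro i
    cases i
    · exact hZ
    · exact hZ')
  have hRK : sec Z' 0 ∈ K := by
    have h : AS (fun _ V => sec (V 0) 0) := by aesop (config := { enableSimp := false })
    exact AS.closed h hK (fun _ => 0) (fun _ => Z') (fun _ => hZ')
  obtain ⟨i', hiA, hmin⟩ := h1 K hK (sec Z' 0) hRK hH'.1.1 hH'.2 A hAK
    ⟨i0, hi0, fun ⟨j, hj, e⟩ => hX ⟨j, hj, e⟩⟩ (fun i hi => hi.1)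
  obtain ⟨a1, a2, a3, a4⟩ := hH'.1.1
  have hn : sec Z' (i' + 1) ∉ Ent Z := fun ⟨j, hj, e⟩ => hiA.2 ⟨j, hj, e⟩
  refine ⟨i', hiA.1, hn, ?_, ?_⟩
  · rintro Y ⟨j, hj, rfl⟩
    by_contra hY
    have hjA : j ∈ A := ⟨(a1 j i' hj.1).1, fun ⟨l, hl, e⟩ => hY ⟨l, hl, e⟩⟩
    exact hj.2 (a2 j i' hj.1 (hmin j hjA))
  · rintro Y ⟨i, hi, rfl⟩ ⟨l, hl, e⟩
    rw [e]
    by_cases hli : l = i'
    · subst hli
      exact absurd ⟨i, hi, e.symm⟩ hn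
    rcases a4 l i' hl hiA.1 with h | h
    · exact ⟨l, ⟨h, hli⟩, rfl⟩
    · exfalso
      have hP := h3 K hK Z hZ Z' hZ' hH hH' i hi l hl e
      have h5 : sec Z' (i' + 1) ∈ Prd Z' l := ⟨i', ⟨h, fun e => hli e.symm⟩, rfl⟩
      rw [← hP] at h5
      obtain ⟨j, hj, ej⟩ := h5
      exact hn ⟨j, (hH.1.1.1 j i hj.1).1, ej⟩

theorem pL4 (h1 : S_L1) (h2 : S_L2) (h3 : S_L3) (s3 : S_St3) : S_L4 := by
  intro K hK Z hZ Z' hZ' hH hH'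
  have hPE : ∀ (Z : Set ℕ), HCin K Z → ∀ i, Prd Z i ⊆ Ent Z := by
    rintro Z hH i X ⟨j, hj, rfl⟩
    exact ⟨j, (hH.1.1.1 j i hj.1).1, rfl⟩
  rcases L4_half h1 h3 hK hZ hZ' hH hH' with ha | ⟨i', hi', b1, b2, b3⟩
  · rcases L4_half h1 h3 hK hZ' hZ hH' hH with hb | ⟨i, hi, c1, c2, c3⟩
    · exact Or.inl (Set.Subset.antisymm hb ha)
    · refine Or.inr (Or.inr ⟨i, hi, Set.Subset.antisymm ?_ c2⟩)
      exact fun X hX => c3 X hX (ha hX)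
  · rcases L4_half h1 h3 hK hZ' hZ hH' hH with hb | ⟨i, hi, c1, c2, c3⟩
    · refine Or.inr (Or.inl ⟨i', hi', Set.Subset.antisymm ?_ b2⟩)
      exact fun X hX => b3 X hX (hb hX)
    · exfalso
      have hP : Prd Z i = Prd Z' i' := by
        apply Set.Subset.antisymm
        · exact fun X hX => b3 X (hPE Z hH i hX) (c2 hX)
        · exact fun X hX => c3 X (hPE Z' hH' i' hX) (b2 hX)
      have st := hH.1.2 i hi
      have st' := hH'.1.2 i' hi'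
      rw [← hP] at st'
      have hc : ∀ e ∈ Prd Z i, IsCmp e := by
        rintro e ⟨j, hj, rfl⟩
        exact (h2 Z hH.1).1 j (hH.1.1.1 j i hj.1).1
      have e := s3 _ _ _ hc st st'
      exact c1 ⟨i', hi', e⟩

end B8d
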