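import Pool.Agent.Lib.MP_8dbd20_lc.Hi.Spec1

set_option linter.unusedVariables false

namespace B8d

/-- the extension by a top point -/
def L5_ext (Z c : Set ℕ) : Set ℕ :=
  {x | (x.unpair.1 = 0 ∧ (x.unpair.2 = Nat.pair 0 0 ∨
      (∃ i, Nat.pair i i ∈ sec Z 0 ∧ x.unpair.2 = Nat.pair (i + 1) 0) ∨
      ∃ i j, Nat.pair i j ∈ sec Z 0 ∧ x.unpair.2 = Nat.pair (i + 1) (j + 1))) ∨
    (x.unpair.1 = 1 ∧ x.unpair.2 ∈ c) ∨
    (2 ≤ x.unpair.1 ∧ Nat.pair (x.unpair.1 - 1) x.unpair.2 ∈ Z)}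

theorem L5_as : AS (fun _ V => L5_ext (V 0) (V 1)) := by
  unfold L5_ext
  aesop (config := { enableSimp := false })

theorem L5_0 (Z c : Set ℕ) (a b : ℕ) : Nat.pair a b ∈ sec (L5_ext Z c) 0 ↔
    (a = 0 ∧ b = 0) ∨ (b = 0 ∧ ∃ i, a = i + 1 ∧ Nat.pair i i ∈ sec Z 0) ∨
      ∃ i j, a = i + 1 ∧ b = j + 1 ∧ Nat.pair i j ∈ sec Z 0 := by
  show Nat.pair 0 (Nat.pair a b) ∈ L5_ext Z c ↔ _
  simp only [L5_ext, Set.mem_setOf_eq, Nat.unpair_pair, Nat.pair_eq_pair]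
  constructor
  · rintro (⟨-, h | ⟨i, h1, h2⟩ | ⟨i, j, h1, h2⟩⟩ | ⟨h, -⟩ | ⟨h, -⟩)
    · exact Or.inl h
    · exact Or.inr (Or.inl ⟨h2.2, i, h2.1, h1⟩)
    · exact Or.inr (Or.inr ⟨i, j, h2.1, h2.2, h1⟩)
    · omega
    · omega
  · rintro (h | ⟨h1, i, h2, h3⟩ | ⟨i, j, h1, h2, h3⟩)
    · exact Or.inl ⟨trivial, Or.inl h⟩
    · exact Or.inl ⟨trivial, Or.inr (Or.inl ⟨i, h3, h2, h1⟩)⟩
    · exact Or.inl ⟨trivial, Or.inr (Or.inr ⟨i, j, h3, h1, h2⟩)⟩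

theorem L5_1 (Z c : Set ℕ) : sec (L5_ext Z c) 1 = c := by
  ext m
  show Nat.pair 1 m ∈ L5_ext Z c ↔ _
  simp only [L5_ext, Set.mem_setOf_eq, Nat.unpair_pair]
  constructor
  · rintro (⟨h, -⟩ | ⟨-, h⟩ | ⟨h, -⟩)
    · omega
    · exact h
    · omega
  · intro h
    exact Or.inr (Or.inl ⟨trivial, h⟩)

theorem L5_2 (Z c : Set ℕ) (i : ℕ) : sec (L5_ext Z c) (i + 2) = sec Z (i + 1) := by
  ext m
  show Nat.pair (i + 2) m ∈ L5_ext Z c ↔ Nat.pair (i + 1) m ∈ Z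
  simp only [L5_ext, Set.mem_setOf_eq, Nat.unpair_pair]
  have e : i + 2 - 1 = i + 1 := by omega
  rw [e]
  constructor
  · rintro (⟨h, -⟩ | ⟨h, -⟩ | ⟨-, h⟩)
    · omega
    · omega
    · exact h
  · intro h
    exact Or.inr (Or.inr ⟨by omega, h⟩)

theorem L5_lin {Z : Set ℕ} (c : Set ℕ) (h : LinO (sec Z 0)) : LinO (sec (L5_ext Z c) 0) := by
  obtain ⟨h1, h2, h3, h4⟩ := h
  refine ⟨?_, ?_, ?_, ?_⟩
  · intro i j hij
    rw [L5_0] at hij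
    rw [L5_0, L5_0]
    rcases hij with ⟨rfl, rfl⟩ | ⟨rfl, a, rfl, ha⟩ | ⟨a, b, rfl, rfl, hab⟩
    · exact ⟨Or.inl ⟨rfl, rfl⟩, Or.inl ⟨rfl, rfl⟩⟩
    · exact ⟨Or.inr (Or.inr ⟨a, a, rfl, rfl, ha⟩), Or.inl ⟨rfl, rfl⟩⟩
    · exact ⟨Or.inr (Or.inr ⟨a, a, rfl, rfl, (h1 a b hab).1⟩),
        Or.inr (Or.inr ⟨b, b, rfl, rfl, (h1 a b hab).2⟩)⟩
  · intro i j hij hji
    rw [L5_0] at hij hji
    rcases hij with ⟨rfl, rfl⟩ | ⟨rfl, a, rfl, ha⟩ | ⟨a, b, rfl, rfl, hab⟩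
    · rfl
    · rcases hji with ⟨_, h⟩ | ⟨h, -⟩ | ⟨a', b', h, -⟩ <;> omega
    · rcases hji with ⟨h, _⟩ | ⟨h, -⟩ | ⟨a', b', e1, e2, h⟩
      · omega
      · omega
      · have e1' : a' = b := by omega
        have e2' : b' = a := by omega
        subst e1' e2'
        rw [h2 _ _ hab h]
  · intro i j k hij hjk
    rw [L5_0] at hij hjk ⊢
    rcases hij with ⟨rfl, rfl⟩ | ⟨rfl, a, rfl, ha⟩ | ⟨a, b, rfl, rfl, hab⟩
    · exact hjk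
    · rcases hjk with ⟨_, h⟩ | ⟨h, a', e, -⟩ | ⟨a', b', h, -⟩
      · exact Or.inr (Or.inl ⟨h, a, rfl, ha⟩)
      · omega
      · omega
    · rcases hjk with ⟨h, _⟩ | ⟨rfl, a', e, h⟩ | ⟨a', b', e1, rfl, h⟩
      · omega
      · exact Or.inr (Or.inl ⟨rfl, a, rfl, (h1 a b hab).1⟩)
      · have e1' : a' = b := by omega
        subst e1'
        exact Or.inr (Or.inr ⟨a, b', rfl, rfl, h3 _ _ _ hab h⟩)
  · intro i j hi hj
    rw [L5_0] at hi hj ⊢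
    rw [L5_0]
    rcases hi with ⟨rfl, -⟩ | ⟨h, a, e, -⟩ | ⟨a, b, ha, hb, hab⟩
    · rcases hj with ⟨rfl, -⟩ | ⟨h, a, e, -⟩ | ⟨a, b, ha, hb, hab⟩
      · exact Or.inl (Or.inl ⟨rfl, rfl⟩)
      · omega
      · have e : a = b := by omega
        subst e
        exact Or.inr (Or.inr (Or.inl ⟨rfl, a, ha, hab⟩))
    · omega
    · have e : a = b := by omega
      subst e
      rcases hj with ⟨rfl, -⟩ | ⟨h, a', e, -⟩ | ⟨a', b', ha', hb', hab'⟩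
      · exact Or.inl (Or.inr (Or.inl ⟨rfl, a, ha, hab⟩))
      · omega
      · have e : a' = b' := by omega
        subst e
        rcases h4 a a' hab hab' with h | h
        · exact Or.inl (Or.inr (Or.inr ⟨a, a', ha, ha', h⟩))
        · exact Or.inr (Or.inr (Or.inr ⟨a', a, ha', ha, h⟩))

theorem L5_prd0 (Z c : Set ℕ) : Prd (L5_ext Z c) 0 = Ent Z := by
  ext X
  constructor
  · rintro ⟨j, ⟨h1, h2⟩, rfl⟩
    rw [L5_0] at h1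
    rcases h1 with ⟨h, -⟩ | ⟨-, i, rfl, h⟩ | ⟨i, j', -, h, -⟩
    · exact absurd h h2
    · exact ⟨i, h, L5_2 Z c i⟩
    · omega
  · rintro ⟨i, hi, rfl⟩
    refine ⟨i + 1, ⟨?_, by omega⟩, (L5_2 Z c i).symm⟩
    rw [L5_0]
    exact Or.inr (Or.inl ⟨rfl, i, rfl, hi⟩)

theorem L5_prd (Z c : Set ℕ) (i : ℕ) : Prd (L5_ext Z c) (i + 1) = Prd Z i := by
  ext X
  constructor
  · rintro ⟨j, ⟨h1, h2⟩, rfl⟩
    rw [L5_0] at h1
    rcases h1 with ⟨-, h⟩ | ⟨h, -⟩ | ⟨a, b, rfl, e, h⟩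
    · omega
    · omega
    · have e' : b = i := by omega
      subst e'
      exact ⟨a, ⟨h, fun e => h2 (by rw [e])⟩, L5_2 Z c a⟩
  · rintro ⟨j, ⟨h1, h2⟩, rfl⟩
    refine ⟨j + 1, ⟨?_, by omega⟩, (L5_2 Z c j).symm⟩
    rw [L5_0]
    exact Or.inr (Or.inr ⟨j, i, rfl, rfl, h1⟩)

theorem L5_fld (Z c : Set ℕ) (i : ℕ) : i ∈ fld (L5_ext Z c) ↔ i = 0 ∨ ∃ j ∈ fld Z, i = j + 1 := by
  show Nat.pair i i ∈ sec (L5_ext Z c) 0 ↔ _
  rw [L5_0]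
  constructor
  · rintro (⟨h, -⟩ | ⟨h, a, e, -⟩ | ⟨a, b, ha, hb, hab⟩)
    · exact Or.inl h
    · omega
    · have e : a = b := by omega
      subst e
      exact Or.inr ⟨a, hab, ha⟩
  · rintro (rfl | ⟨j, hj, rfl⟩)
    · exact Or.inl ⟨rfl, rfl⟩
    · exact Or.inr (Or.inr ⟨j, j, rfl, rfl, hj⟩)

theorem L5_desc {Z c f : Set ℕ} (h : Desc f (sec (L5_ext Z c) 0)) :
    Desc {u | Nat.pair (u.unpair.1 + 1) (u.unpair.2 + 1) ∈ f} (sec Z 0) := by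
  obtain ⟨h1, h2⟩ := h
  constructor
  · intro k
    obtain ⟨x, hx⟩ := h1 k
    obtain ⟨y, hy⟩ := h1 (k + 1)
    have h3 := h2 k x y hx hy
    have h4 := h3.1
    rw [L5_0] at h4
    rcases h4 with ⟨e1, e2⟩ | ⟨-, i, rfl, -⟩ | ⟨i, j, rfl, -⟩
    · exact absurd (e1.trans e2.symm) h3.2
    · refine ⟨i, ?_⟩
      show Nat.pair ((Nat.pair k i).unpair.1 + 1) ((Nat.pair k i).unpair.2 + 1) ∈ f
      rw [Nat.unpair_pair]
      exact hy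
    · refine ⟨i, ?_⟩
      show Nat.pair ((Nat.pair k i).unpair.1 + 1) ((Nat.pair k i).unpair.2 + 1) ∈ f
      rw [Nat.unpair_pair]
      exact hy
  · intro k x y hx hy
    have hx' : Nat.pair ((Nat.pair k x).unpair.1 + 1) ((Nat.pair k x).unpair.2 + 1) ∈ f := hx
    have hy' : Nat.pair ((Nat.pair (k + 1) y).unpair.1 + 1) ((Nat.pair (k + 1) y).unpair.2 + 1) ∈ f :=
      hy
    rw [Nat.unpair_pair] at hx' hy'
    have h3 := h2 (k + 1) (x + 1) (y + 1) hx' hy'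
    have h4 := h3.1
    rw [L5_0] at h4
    rcases h4 with ⟨e, -⟩ | ⟨e, -⟩ | ⟨i, j, e1, e2, h4⟩
    · omega
    · omega
    · have e1' : i = y := by omega
      have e2' : j = x := by omega
      subst e1' e2'
      exact ⟨h4, fun e => h3.2 (by rw [e])⟩

theorem pL5 : S_L5 := by
  intro K hK Z hZ hH c hc hS
  refine ⟨L5_ext Z c, ?_, ⟨⟨L5_lin c hH.1.1, ?_⟩, ?_⟩, ?_⟩
  · have := AS.closed L5_as hK (fun _ => 0) (sc Z (fun _ => c)) (by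
      intro i
      cases i
      · exact hZ
      · exact hc)
    exact this
  · intro i hi
    rcases (L5_fld Z c i).1 hi with rfl | ⟨j, hj, rfl⟩
    · rw [L5_prd0, L5_1]
      exact hS
    · rw [L5_prd, L5_2]
      exact hH.1.2 j hj
  · intro f hf hd
    refine hH.2 {u | Nat.pair (u.unpair.1 + 1) (u.unpair.2 + 1) ∈ f} ?_ (L5_desc hd)
    have h1 : AS (fun _ V => {u | Nat.pair (u.unpair.1 + 1) (u.unpair.2 + 1) ∈ V 0}) := by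
      aesop (config := { enableSimp := false })
    exact AS.closed h1 hK (fun _ => 0) (fun _ => f) (fun _ => hf)
  · ext X
    constructor
    · rintro ⟨i, hi, rfl⟩
      rcases (L5_fld Z c i).1 hi with rfl | ⟨j, hj, rfl⟩
      · right
        exact L5_1 Z c
      · left
        exact ⟨j, hj, L5_2 Z c j⟩
    · rintro (⟨i, hi, rfl⟩ | rfl)
      · exact ⟨i + 1, (L5_fld Z c _).2 (Or.inr ⟨i, hi, rfl⟩), (L5_2 Z c i).symm⟩
      · exact ⟨0, (L5_fld Z _ _).2 (Or.inl rfl), (L5_1 Z _).symm⟩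

end B8d
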