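import Pool.Agent.Lib.MP_8dbd20_lc.Hi.Spec1

set_option linter.unusedVariables false

namespace B8d

/-- restriction of a hierarchy code to the points of `D` -/
def L6_res (Z D : Set ℕ) : Set ℕ :=
  {x | (x.unpair.1 = 0 ∧ x ∈ Z ∧ x.unpair.2.unpair.1 ∈ D ∧ x.unpair.2.unpair.2 ∈ D) ∨
    (x.unpair.1 ≠ 0 ∧ x ∈ Z)}

theorem L6_as : AS (fun _ V => L6_res (V 0) (V 1)) := by
  unfold L6_res
  aesop (config := { enableSimp := false })

theorem L6_0 (Z D : Set ℕ) (a b : ℕ) :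
    Nat.pair a b ∈ sec (L6_res Z D) 0 ↔ Nat.pair a b ∈ sec Z 0 ∧ a ∈ D ∧ b ∈ D := by
  show Nat.pair 0 (Nat.pair a b) ∈ L6_res Z D ↔ Nat.pair 0 (Nat.pair a b) ∈ Z ∧ _
  simp only [L6_res, Set.mem_setOf_eq, Nat.unpair_pair]
  tauto

theorem L6_1 (Z D : Set ℕ) (i : ℕ) : sec (L6_res Z D) (i + 1) = sec Z (i + 1) := by
  ext m
  show Nat.pair (i + 1) m ∈ L6_res Z D ↔ Nat.pair (i + 1) m ∈ Z
  simp only [L6_res, Set.mem_setOf_eq, Nat.unpair_pair]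
  constructor
  · rintro (⟨h, -⟩ | ⟨-, h⟩)
    · omega
    · exact h
  · intro h
    exact Or.inr ⟨by omega, h⟩

theorem L6_main {K : Set (Set ℕ)} (hK : ArClosed K) {Z : Set ℕ} (hZ : Z ∈ K) (hH : HCin K Z)
    {D : Set ℕ} (hD : D ∈ K) (hdc : ∀ a b, Nat.pair a b ∈ sec Z 0 → b ∈ D → a ∈ D) :
    L6_res Z D ∈ K ∧ HCin K (L6_res Z D) ∧
      Ent (L6_res Z D) = {X | ∃ j ∈ fld Z, j ∈ D ∧ X = sec Z (j + 1)} := by
  obtain ⟨⟨⟨h1, h2, h3, h4⟩, h5⟩, h6⟩ := hH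
  refine ⟨?_, ⟨⟨⟨?_, ?_, ?_, ?_⟩, ?_⟩, ?_⟩, ?_⟩
  · exact AS.closed L6_as hK (fun _ => 0) (sc Z (fun _ => D)) (by
      intro i
      cases i
      · exact hZ
      · exact hD)
  · intro i j hij
    rw [L6_0] at hij
    rw [L6_0, L6_0]
    exact ⟨⟨(h1 i j hij.1).1, hij.2.1, hij.2.1⟩, ⟨(h1 i j hij.1).2, hij.2.2, hij.2.2⟩⟩
  · intro i j hij hji
    rw [L6_0] at hij hji
    exact h2 i j hij.1 hji.1
  · intro i j k hij hjk
    rw [L6_0] at hij hjk ⊢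
    exact ⟨h3 i j k hij.1 hjk.1, hij.2.1, hjk.2.2⟩
  · intro i j hi hj
    rw [L6_0] at hi hj ⊢
    rw [L6_0]
    rcases h4 i j hi.1 hj.1 with h | h
    · exact Or.inl ⟨h, hi.2.1, hj.2.1⟩
    · exact Or.inr ⟨h, hj.2.1, hi.2.1⟩
  · intro i hi
    have hi' : Nat.pair i i ∈ sec (L6_res Z D) 0 := hi
    rw [L6_0] at hi'
    have hP : Prd (L6_res Z D) i = Prd Z i := by
      ext X
      constructor
      · rintro ⟨j, ⟨a1, a2⟩, rfl⟩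
        rw [L6_0] at a1
        exact ⟨j, ⟨a1.1, a2⟩, L6_1 Z D j⟩
      · rintro ⟨j, ⟨a1, a2⟩, rfl⟩
        refine ⟨j, ⟨?_, a2⟩, (L6_1 Z D j).symm⟩
        rw [L6_0]
        exact ⟨a1, hdc j i a1 hi'.2.1, hi'.2.1⟩
    rw [hP, L6_1]
    exact h5 i hi'.1
  · intro f hf hd
    refine h6 f hf ⟨hd.1, fun k x y hx hy => ?_⟩
    obtain ⟨a1, a2⟩ := hd.2 k x y hx hy
    rw [L6_0] at a1
    exact ⟨a1.1, a2⟩
  · ext X
    constructor
    · rintro ⟨i, hi, rfl⟩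
      have hi' : Nat.pair i i ∈ sec (L6_res Z D) 0 := hi
      rw [L6_0] at hi'
      exact ⟨i, hi'.1, hi'.2.1, L6_1 Z D i⟩
    · rintro ⟨j, hj, hjD, rfl⟩
      refine ⟨j, ?_, (L6_1 Z D j).symm⟩
      show Nat.pair j j ∈ sec (L6_res Z D) 0
      rw [L6_0]
      exact ⟨hj, hjD, hjD⟩

theorem pL6 : S_L6 := by
  intro K hK Z hZ hH i hi
  obtain ⟨h1, h2, h3, h4⟩ := hH.1.1
  have hi' : Nat.pair i i ∈ sec Z 0 := hi
  constructor
  · have hD : {a | Nat.pair a i ∈ sec Z 0} ∈ K := by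
      have h : AS (fun v V => {a | Nat.pair a (v 0) ∈ sec (V 0) 0}) := by
        aesop (config := { enableSimp := false })
      exact AS.closed h hK (fun _ => i) (fun _ => Z) (fun _ => hZ)
    obtain ⟨a1, a2, a3⟩ := L6_main hK hZ hH hD (fun a b hab hb => h3 a b i hab hb)
    refine ⟨_, a1, a2, ?_⟩
    rw [a3]
    ext X
    constructor
    · rintro ⟨j, hj, hji, rfl⟩
      by_cases e : j = i
      · subst e
        exact Or.inr rfl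
      · exact Or.inl ⟨j, ⟨hji, e⟩, rfl⟩
    · rintro (⟨j, ⟨hji, e⟩, rfl⟩ | rfl)
      · exact ⟨j, (h1 j i hji).1, hji, rfl⟩
      · exact ⟨i, hi, hi', rfl⟩
  · have hD : {a | Nat.pair a i ∈ sec Z 0 ∧ a ≠ i} ∈ K := by
      have h : AS (fun v V => {a | Nat.pair a (v 0) ∈ sec (V 0) 0 ∧ a ≠ v 0}) := by
        aesop (config := { enableSimp := false })
      exact AS.closed h hK (fun _ => i) (fun _ => Z) (fun _ => hZ)
    obtain ⟨a1, a2, a3⟩ := L6_main hK hZ hH hD (fun a b hab hb => by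
      refine ⟨h3 a b i hab hb.1, ?_⟩
      rintro rfl
      exact hb.2 (h2 b a hb.1 hab))
    refine ⟨_, a1, a2, ?_⟩
    rw [a3]
    ext X
    constructor
    · rintro ⟨j, hj, ⟨hji, e⟩, rfl⟩
      exact ⟨j, ⟨hji, e⟩, rfl⟩
    · rintro ⟨j, ⟨hji, e⟩, rfl⟩
      exact ⟨j, (h1 j i hji).1, ⟨hji, e⟩, rfl⟩

end B8d
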