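import Pool.Agent.Lib.MP_8dbd20_lc.Hi.Spec1

/-!
# MP_8dbd20_lc, `Hi/L7`: models of `Z_2` are closed under completion
-/

set_option linter.unusedVariables false

namespace B8d

private theorem L7_TarC : Ar (fun v V => TarC (V 0) (V 1) (V 2) (v 0) (v 1) (v 2)) := by
  have hix : AS (fun v V => ix (V 0) (v 0)) := by
    unfold ix
    aesop (config := { enableSimp := false })
  unfold TarC
  refine Ar.or ?_ (Ar.or ?_ (Ar.or ?_ (Ar.or ?_ (Ar.or ?_ (Ar.or ?_ (Ar.or ?_ ?_))))))
  · aesop (config := { enableSimp := false })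
  · aesop (config := { enableSimp := false })
  · refine Ar.and (by aesop (config := { enableSimp := false }))
      (Ar.and (by aesop (config := { enableSimp := false })) (Ar.mem ?_ ?_))
    · aesop (config := { enableSimp := false })
    · exact AS.s11 (R := fun n E => ix E n) hix (by aesop (config := { enableSimp := false }))
        (AS.var 1)
  · refine Ar.and (by aesop (config := { enableSimp := false }))
      (Ar.and (by aesop (config := { enableSimp := false })) ?_)
    refine Ar.exN (R := fun a v V => a ∈ V 2 ∧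
      ix (V 1) (get (v 0 - 1).unpair.2 (v 2)) = sec (V 1) a) ?_
    refine Ar.and (by aesop (config := { enableSimp := false })) (Ar.eqS ?_ ?_)
    · exact AS.s11 (R := fun n E => ix E n) hix (by aesop (config := { enableSimp := false }))
        (AS.var 1)
    · aesop (config := { enableSimp := false })
  · aesop (config := { enableSimp := false })
  · aesop (config := { enableSimp := false })
  · aesop (config := { enableSimp := false })
  · aesop (config := { enableSimp := false })

/-- the clauses for the code `k` only refer to codes below `k` -/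
private theorem L7_congr {T T' E K : Set ℕ} {k : ℕ} (h : ∀ x, x.unpair.1 < k → (x ∈ T ↔ x ∈ T'))
    (m S : ℕ) : TarC T E K k m S ↔ TarC T' E K k m S := by
  unfold TarC
  have e : ∀ (a b : ℕ), 0 < k → a ≤ k - 1 → (Nat.pair a b ∈ T ↔ Nat.pair a b ∈ T') := by
    intro a b hk ha
    refine h _ ?_
    rw [Nat.unpair_pair]
    show a < k
    omega
  have h1 : (k - 1).unpair.2 ≤ k - 1 := Nat.unpair_right_le _
  have h2 : (k - 1).unpair.2.unpair.1 ≤ k - 1 := (Nat.unpair_left_le _).trans h1
  have h3 : (k - 1).unpair.2.unpair.2 ≤ k - 1 := (Nat.unpair_right_le _).trans h1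
  refine or_congr Iff.rfl (or_congr Iff.rfl (or_congr Iff.rfl (or_congr Iff.rfl (or_congr ?_
    (or_congr ?_ (or_congr ?_ ?_))))))
  · exact and_congr_right fun hk => and_congr_right fun _ => not_congr (e _ _ hk h1)
  · exact and_congr_right fun hk => and_congr_right fun _ =>
      and_congr (e _ _ hk h2) (e _ _ hk h3)
  · exact and_congr_right fun hk => and_congr_right fun _ => forall_congr' fun n => e _ _ hk h1
  · exact and_congr_right fun hk => and_congr_right fun _ => forall_congr' fun n => e _ _ hk h1

private def L7_Wb (W E K : Set ℕ) (k : ℕ) : Prop :=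
  ∀ k' ≤ k, ∀ m S, Nat.pair k' (Nat.pair m S) ∈ W ↔ TarC W E K k' m S

private theorem L7_arWb : Ar (fun v V => L7_Wb (V 0) (V 1) (V 2) (v 0)) := by
  unfold L7_Wb
  refine Ar.allN (R := fun k' v V => k' ≤ v 0 → ∀ m S, Nat.pair k' (Nat.pair m S) ∈ V 0 ↔
      TarC (V 0) (V 1) (V 2) k' m S) ?_
  refine Ar.imp (by aesop (config := { enableSimp := false })) ?_
  refine Ar.allN (R := fun m v V => ∀ S, Nat.pair (v 0) (Nat.pair m S) ∈ V 0 ↔
      TarC (V 0) (V 1) (V 2) (v 0) m S) ?_
  refine Ar.allN (R := fun S v V => Nat.pair (v 1) (Nat.pair (v 0) S) ∈ V 0 ↔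
      TarC (V 0) (V 1) (V 2) (v 1) (v 0) S) ?_
  refine Ar.iff ?_ ?_
  · aesop (config := { enableSimp := false })
  · exact Ar.s33 (R := fun k m S T E K => TarC T E K k m S) L7_TarC (AN.var 2) (AN.var 1)
      (AN.var 0) (AS.var 0) (AS.var 1) (AS.var 2)

/-- extension of a partial truth predicate by one code -/
private def L7_ext (W E K : Set ℕ) (k : ℕ) : Set ℕ :=
  {x | (x ∈ W ∧ x.unpair.1 ≤ k) ∨ (x.unpair.1 = k + 1 ∧
    TarC W E K x.unpair.1 x.unpair.2.unpair.1 x.unpair.2.unpair.2)}

private theorem L7_asExt : AS (fun v V => L7_ext (V 0) (V 1) (V 2) (v 0)) := by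
  unfold L7_ext
  refine AS.setOf (R := fun x v V => (x ∈ V 0 ∧ x.unpair.1 ≤ v 0) ∨ (x.unpair.1 = v 0 + 1 ∧
    TarC (V 0) (V 1) (V 2) x.unpair.1 x.unpair.2.unpair.1 x.unpair.2.unpair.2)) ?_
  refine Ar.or (by aesop (config := { enableSimp := false }))
    (Ar.and (by aesop (config := { enableSimp := false })) ?_)
  exact Ar.s33 (R := fun k m S T E K => TarC T E K k m S) L7_TarC
    (by aesop (config := { enableSimp := false })) (by aesop (config := { enableSimp := false }))
    (by aesop (config := { enableSimp := false })) (AS.var 0) (AS.var 1) (AS.var 2)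

private theorem L7_arClosed {M : Set (Set ℕ)} (hM : Mod2 M) : ArClosed M := by
  intro R hR v V hV
  obtain ⟨φ, ha, hφ⟩ := hR
  have h := hM.2 φ v V hV
  have e : {n | R (nc n v) V} = {n | eval M ∅ φ (nc n v) V} :=
    Set.ext fun n => (hφ _ _).trans (eval_arith ha _ _ _ _ _ _)
  rw [e]
  exact h

private theorem L7_ex {M : Set (Set ℕ)} (hA : ArClosed M) {E K : Set ℕ} (hE : E ∈ M) (hK : K ∈ M)
    (k : ℕ) : ∃ W ∈ M, L7_Wb W E K k := by
  induction k with
  | zero =>
    refine ⟨∅, AS.closed AS.empty hA (fun _ => 0) (fun _ => E) (fun _ => hE), ?_⟩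
    intro k' hk' m S
    have : k' = 0 := by omega
    subst this
    unfold TarC
    simp
  | succ k ih =>
    obtain ⟨W, hW, hb⟩ := ih
    refine ⟨L7_ext W E K k, ?_, ?_⟩
    · exact AS.closed L7_asExt hA (fun _ => k) (sc W (sc E (fun _ => K))) (by
        intro i
        rcases i with _ | _ | i
        · exact hW
        · exact hE
        · exact hK)
    · have hag : ∀ x : ℕ, x.unpair.1 ≤ k → (x ∈ W ↔ x ∈ L7_ext W E K k) := by
        intro x hx
        constructor
        · intro h
          exact Or.inl ⟨h, hx⟩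
        · rintro (⟨h, -⟩ | ⟨h, -⟩)
          · exact h
          · omega
      intro k' hk' m S
      rcases Nat.lt_or_ge k k' with h | h
      · have e : k' = k + 1 := by omega
        subst e
        rw [← L7_congr (fun x hx => hag x (by omega)) m S]
        show (_ ∨ _) ↔ _
        rw [Nat.unpair_pair]
        simp only [Nat.unpair_pair]
        constructor
        · rintro (⟨-, h'⟩ | ⟨-, h'⟩)
          · omega
          · exact h'
        · intro h'
          exact Or.inr ⟨trivial, h'⟩
      · rw [← L7_congr (fun x hx => hag x (by omega)) m S, ← hb k' h m S]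
        refine (hag _ ?_).symm
        rw [Nat.unpair_pair]
        exact h

private theorem L7_j4 : AS (fun _ V => join4 (Wst (V 2)) (V 0) (V 1) (V 2)) := by
  unfold join4 Wst
  simp only [Set.mem_ofPred_eq]
  aesop (config := { enableSimp := false })

theorem pL7 (h4 : S_T4) : S_L7 := by
  intro M hM E hE K hK
  have hA := L7_arClosed hM
  have hgood : Good M ∅ := ⟨Set.empty_subset _, hM.1, hA⟩
  -- the truth set
  have hT : Tru E K ∈ M := by
    have hU : UD (fun U C v V => ∃ W ∈ U, L7_Wb W (V 0) (V 1) (v 0).unpair.1 ∧ v 0 ∈ W) := by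
      refine UD.exS (R := fun U C W v V => L7_Wb W (V 0) (V 1) (v 0).unpair.1 ∧ v 0 ∈ W) ?_
      refine UD.and (Ar.ud ?_) (by aesop (config := { enableSimp := false }))
      exact Ar.s13 (R := fun k W E K => L7_Wb W E K k) L7_arWb
        (by aesop (config := { enableSimp := false })) (AS.var 0) (AS.var 1) (AS.var 2)
    obtain ⟨φ, hφ⟩ := hU
    have hV : ∀ i, sc E (fun _ => K) i ∈ M := by
      intro i
      rcases i with _ | i
      · exact hE
      · exact hK
    have h := hM.2 φ (fun _ => 0) (sc E (fun _ => K)) hV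
    have e : {n | eval M ∅ φ (nc n fun _ => 0) (sc E fun _ => K)} = Tru E K := by
      ext x
      have h1 := hφ M ∅ hgood (nc x fun _ => 0) (sc E fun _ => K) hV
      refine h1.symm.trans ?_
      simp only [nc_zero, sc_zero, sc_succ]
      have key : ∀ W, L7_Wb W E K x.unpair.1 → (x ∈ W ↔ x ∈ Tru E K) := by
        intro W hW
        have h2 := h4 E K W x.unpair.1 hW x.unpair.1 le_rfl x.unpair.2.unpair.1
          x.unpair.2.unpair.2
        rwa [Nat.pair_unpair, Nat.pair_unpair] at h2
      constructor
      · rintro ⟨W, -, hW, hx⟩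
        exact (key W hW).1 hx
      · intro hx
        obtain ⟨W, hW, hb⟩ := L7_ex hA hE hK x.unpair.1
        exact ⟨W, hW, hb, (key W hb).2 hx⟩
    rw [← e]
    exact h
  exact AS.closed L7_j4 hA (fun _ => 0) (sc E (sc K (fun _ => Tru E K))) (by
    intro i
    rcases i with _ | _ | i
    · exact hE
    · exact hK
    · exact hT)

end B8d
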