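import Pool.Agent.Lib.MP_8dbd20_lc.Iface

/-!
# MP_8dbd20_lc, block Hi part 1: truth sets, steps, hierarchies along linear orders, Cohen reals

Everything here is in framework 1 (files Frame.lean to Frame4.lean, Defs1.lean).  READ Frame4.lean:
`aesop (config := { enableSimp := false })` proves most goals `Ar (fun v V => …)`, `AN …`, `AS …`,
`UD …`; user relations are handled by curried substitution, e.g. `Ar.s02 (R := Foo) hFoo h0 h1`.
`B8d.Good U C`, `ArClosed U`: for `R` with `Ar R` and parameters `V i ∈ U`, `{n | R (nc n v) V} ∈ U`;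
`AS.closed` : values of set terms stay in `U`.
Notation in the proofs: `Y_i = sec Z (i+1)`; `i < j` for a hierarchy code `Z` means
`ltR (sec Z 0) i j`.
-/

set_option linter.unusedVariables false

namespace B8d

/-! ## T: truth sets -/

/-- T1. Every formula has a code.
PROOF. Induction on `φ`: `fls` = `dec 0`; e.g. `neg φ` = `dec (Nat.pair 4 k + 1)`; unfold `dec` (use
`rw [dec]`, `simp [Nat.unpair_pair]`). -/
def S_T1 : Prop := ∀ φ : F, ∃ k, dec k = φ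

/-- T2. A formula depends only on finitely many variables.
PROOF. Induction on `φ` (for `and` take the maximum, for the quantifiers `b + 1` is enough:
`nc n v i` for `i < b + 1` depends on `v i'`, `i' < b`). -/
def S_T2 : Prop := ∀ φ : F, ∃ b : ℕ, ∀ (U C : Set (Set ℕ)) (v v' : ℕ → ℕ) (V V' : ℕ → Set ℕ),
  (∀ i < b, v i = v' i) → (∀ i < b, V i = V' i) → (eval U C φ v V ↔ eval U C φ v' V')

/-- T3. Stacks with prescribed entries. PROOF. Induction on `b`, `get_zero_pair`, `get_succ_pair`,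
shift `f`. -/
def S_T3 : Prop := ∀ (f : ℕ → ℕ) (b : ℕ), ∃ m, ∀ i < b, get i m = f i

/-- Tarski clauses. `T` is the truth predicate, `k` a code, `m` the stack of numbers, `S` the stack
of indices of sets. -/
def TarC (T E K : Set ℕ) (k m S : ℕ) : Prop :=
  (0 < k ∧ (k - 1).unpair.1 = 0 ∧ get (k - 1).unpair.2.unpair.1 m +
      get (k - 1).unpair.2.unpair.2.unpair.1 m = get (k - 1).unpair.2.unpair.2.unpair.2 m) ∨
  (0 < k ∧ (k - 1).unpair.1 = 1 ∧ get (k - 1).unpair.2.unpair.1 m *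
      get (k - 1).unpair.2.unpair.2.unpair.1 m = get (k - 1).unpair.2.unpair.2.unpair.2 m) ∨
  (0 < k ∧ (k - 1).unpair.1 = 2 ∧ get (k - 1).unpair.2.unpair.1 m ∈
      ix E (get (k - 1).unpair.2.unpair.2 S)) ∨
  (0 < k ∧ (k - 1).unpair.1 = 3 ∧ ∃ a, a ∈ K ∧ ix E (get (k - 1).unpair.2 S) = sec E a) ∨
  (0 < k ∧ (k - 1).unpair.1 = 4 ∧ ¬ Nat.pair (k - 1).unpair.2 (Nat.pair m S) ∈ T) ∨
  (0 < k ∧ (k - 1).unpair.1 = 5 ∧ Nat.pair (k - 1).unpair.2.unpair.1 (Nat.pair m S) ∈ T ∧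
      Nat.pair (k - 1).unpair.2.unpair.2 (Nat.pair m S) ∈ T) ∨
  (0 < k ∧ (k - 1).unpair.1 = 6 ∧ ∀ n, Nat.pair (k - 1).unpair.2 (Nat.pair (Nat.pair n m) S) ∈ T) ∨
  (0 < k ∧ (k - 1).unpair.1 = 7 ∧
      ∀ a, Nat.pair (k - 1).unpair.2 (Nat.pair m (Nat.pair (a + 1) S)) ∈ T)

/-- T4. `Tru E K` is the only solution of the Tarski clauses; below `k` only the clauses below `k`
matter.
PROOF. Strong induction on `k`: if `T` satisfies the clauses for all codes `≤ k` then `T` and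
`Tru E K` agree at `⟨k', ⟨m, S⟩⟩`, `k' ≤ k`. Write `k = k₀ + 1`, unfold `dec` once and distinguish the
tag `k₀.unpair.1 = 0, …, 7, ≥ 8`. Quantifiers: `nc_get n m : (nc n fun i => get i m) =
fun i => get i (Nat.pair n m)`, and `sc (sec E a) (fun j => ix E (get j S)) =
fun j => ix E (get j (Nat.pair (a+1) S))` (`ix E (a+1) = sec E a`). Conversely `Tru E K` satisfies all
clauses (same computation). -/
def S_T4 : Prop := ∀ (E K T : Set ℕ) (k : ℕ),
  (∀ k' ≤ k, ∀ m S, Nat.pair k' (Nat.pair m S) ∈ T ↔ TarC T E K k' m S) →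
  ∀ k' ≤ k, ∀ m S, (Nat.pair k' (Nat.pair m S) ∈ T ↔ Nat.pair k' (Nat.pair m S) ∈ Tru E K)

/-- T4b. `Tru E K` satisfies the clauses (see T4). -/
def S_T4b : Prop := ∀ (E K : Set ℕ) (k m S : ℕ),
  Nat.pair k (Nat.pair m S) ∈ Tru E K ↔ TarC (Tru E K) E K k m S

/-- T5. The graph of `Tru`, the graph of `Cmp` and the relation `IsCmp` are arithmetical.
PROOF. `T = Tru E K ↔ ∀ k m S, (⟨k,⟨m,S⟩⟩ ∈ T ↔ TarC T E K k m S)` by T4, T4b (every number is
`⟨k,⟨m,S⟩⟩`). `TarC` is arithmetical (unfold it and `ix`, use aesop). `c = Cmp E K ↔ T := sec c 3`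
satisfies the clauses and `c = join4 (Wst T) E K T`; `IsCmp c ↔ c = Cmp (sec c 1) (sec c 2)`. -/
def S_T5 : Prop := Ar (fun _ V => V 0 = Tru (V 1) (V 2)) ∧ Ar (fun _ V => V 0 = Cmp (V 1) (V 2)) ∧
  Ar (fun _ V => IsCmp (V 0))

/-- T6. The sections of a completion.
PROOF. `sec (Cmp E K) 0 = Wst (Tru E K)`, so `X ∈ Ss (Cmp E K)` iff there are `k, m, S` with
`X = {n | eval (Secs E) (CK E K) (dec k) (nc n (get · m)) (fun j => ix E (get j S))}` (`nc_get`).
(←) `dec` is onto (T1), formulas depend on finitely many variables (T2), stacks (T3); `V j` is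
`ix E a_j` for some `a_j` (`ix E 0 = ∅`, `ix E (a+1) = sec E a`). -/
def S_T6 : Prop := ∀ (E K X : Set ℕ), X ∈ Ss (Cmp E K) ↔
  ∃ (φ : F) (v : ℕ → ℕ) (V : ℕ → Set ℕ), (∀ j, V j ∈ Secs E ∨ V j = ∅) ∧
    X = {n | eval (Secs E) (CK E K) φ (nc n v) V}

/-- T7. Substitution of number terms in arbitrary structures.
PROOF. Induction on `φ` (cf. `subst_aux`). Atoms `add, mul, mem`: `Ar.addt`, `Ar.mult`, `Ar.mem` and
`eval_arith`; `cc`: unchanged; `allN`: use `fun i v => nc (v 0) (fun i => f i (fun j => v (j+1))) i`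
(`AN.comp_nc`); `allS`: same `f`. -/
def S_T7 : Prop := ∀ (φ : F) (f : ℕ → (ℕ → ℕ) → ℕ), (∀ i, AN (fun v _ => f i v)) →
  ∃ φ' : F, ∀ U C v V, eval U C φ' v V ↔ eval U C φ (fun i => f i v) V

/-- T8. `Ss (Cmp E K)` is closed under arithmetical definability, and not empty.
PROOF. Let `D = Ss (Cmp E K)` (T6), `U' = Secs E`, `C' = CK E K`. Claim: for arithmetical `ψ` and
`A : ℕ → Set ℕ` with all `A j ∈ D` there are `φ` and `W` (`W j ∈ Secs E ∨ W j = ∅`) with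
`eval ∅ ∅ ψ v A ↔ eval U' C' φ v W` for all `v`. Induction on `ψ`: `mem i j`: `A j =
{n | eval U' C' φ_j (nc n v_j) W_j}`, and `v i ∈ A j` is `eval U' C' φ_j (nc (v i) v_j) W_j`; the
number terms `v i`, `v_j 0`, `v_j 1`, … (constants) are substituted by T7. `add, mul`: no sets.
`and`: interleave the two parameter families: `W (2j) = W₁ j`, `W (2j+1) = W₂ j`, rename with
`F.ren` (`eval_ren`). `neg, allN`: immediate. Nonempty: `∅` is defined by `fls` with parameters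
`sec E 0`. -/
def S_T8 : Prop := ∀ (E K : Set ℕ), ArClosed (Ss (Cmp E K)) ∧ (Ss (Cmp E K)).Nonempty

/-- T9. Diagonal: a completion is not listed by itself; `Secs E` is listed; `E` and `K` are
recovered; completions are not empty.
PROOF. If `c = Cmp E K ∈ Ss c` then `{n | n ∉ sec (sec c 0) n} ∈ Ss c` by T8, so it is
`sec (sec c 0) a`, contradiction at `a`. `Secs E ⊆ Ss c`: formula `mem 0 0` with parameter `V 0`.
`sec (Cmp E K) 1 = E`: `Nat.unpair_pair`. Nonempty: `neg fls` is true, so `Tru E K ≠ ∅`. -/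
def S_T9 : Prop := ∀ (E K : Set ℕ), Cmp E K ∉ Ss (Cmp E K) ∧ Secs E ⊆ Ss (Cmp E K) ∧
  sec (Cmp E K) 1 = E ∧ sec (Cmp E K) 2 = K ∧ Cmp E K ≠ ∅

/-- T10. Transitivity. PROOF. `IsCmp d`, `c ∈ Ss d`: `sec (sec c 0) n` is an arithmetical set term in
`c`, T8. -/
def S_T10 : Prop := ∀ c d : Set ℕ, IsCmp d → c ∈ Ss d → Ss c ⊆ Ss d

/-- T11. The completion at a limit step lists exactly the reals definable over `(UU S, S)`.
PROOF. `E = pf S k`, `Secs E = UU S`, `CK E {a | sec E a ∈ S} = S` (as `S ⊆ UU S = Secs E`), T6;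
parameters equal to `∅` are in `UU S` by hypothesis. -/
def S_T11 : Prop := ∀ (S : Set (Set ℕ)) (k : ℕ), Enu S k → S ⊆ UU S → ∅ ∈ UU S →
  Ss (Cmp (pf S k) {a | sec (pf S k) a ∈ S}) = DefS (UU S) S

/-! ## St: steps -/

/-- St1. PROOF. Immediate from the definitions. -/
def S_St1 : Prop := ∀ S c, Step S c → IsCmp c

/-- St2. The new code lists all old ones.
PROOF. Case 2: `d ∈ Secs (cst d) ⊆ Ss c` (T9: `Secs (cst d) = {d}`), and `e ∈ Ss d ⊆ Ss c` (T10).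
Case 3: `e ∈ Ss e'` for some `e' ∈ S`, so `e ∈ UU S = Secs (pf S k) ⊆ Ss c` (T9). -/
def S_St2 : Prop := ∀ S c, (∀ e ∈ S, IsCmp e) → Step S c → ∀ e ∈ S, e ∈ Ss c

/-- St3. The next code is unique.
PROOF. The three cases exclude each other: a maximal `d` and the limit condition give `e ∈ S` with
`d ∈ Ss e`, and `e = d` or `e ∈ Ss d`, so `d ∈ Ss d` (T10), against T9 (`d` is a completion). Case 2:
two maximal elements `d ≠ d'` satisfy `d ∈ Ss d'` and `d' ∈ Ss d`, so `d ∈ Ss d`, contradiction. Case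
3: the least `k` is unique. -/
def S_St3 : Prop := ∀ S c c', (∀ e ∈ S, IsCmp e) → Step S c → Step S c' → c = c'

/-- St4. What the code tells about the predecessors.
PROOF. `c = Cmp E K = Cmp E' K'` gives `E = E'`, `K = K'` (T9). Case 1: `E = ∅`. Case 2: `E = cst d`
with `d ≠ ∅` (T9), so `E ≠ ∅`, `K = ∅`. Case 3: `K ≠ ∅`, because `S` is nonempty and contained in
`UU S = Secs E`. So both steps are in the same case. Case 2: `cst d = cst d'` gives `d = d'`. Case 3: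
`S = {sec E a | a ∈ K} = S'`. -/
def S_St4 : Prop := ∀ S S' c, (∀ e ∈ S, IsCmp e) → (∀ e ∈ S', IsCmp e) → Step S c → Step S' c →
  S = S' ∨ ∃ d, d ∈ S ∧ d ∈ S' ∧ (∀ e ∈ S, e = d ∨ e ∈ Ss d) ∧ (∀ e ∈ S', e = d ∨ e ∈ Ss d)

/-! ## L: hierarchies along linear orders, inside an arithmetically closed class `K` -/

/-- L0. `Local` is arithmetical.
PROOF. Let `S = Prd Z i`, `Y = sec Z (i+1)`, `E = sec Y 1`, `K = sec Y 2`, `T = sec Y 3`. Then
`Step S Y` is equivalent to: (a) no `j < i`, and `Y = Cmp ∅ ∅`; or (b) some `j < i` with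
(`Y_l = Y_j ∨ Y_l ∈ Ss Y_j` for all `l < i`) and `Y = Cmp (cst Y_j) ∅`; or (c) some `j < i`, for all
`j < i` there is `l < i` with `Y_j ∈ Ss Y_l`, `Y = Cmp E K`, `Secs E = UU S` (written out with indices:
every `sec E a` is some `sec (sec Y_j 0) n`, `j < i`, and conversely), `K = {a | ∃ j < i, sec E a =
Y_j}`, and there is `k` with `E = {n | ⟨k,⟨⟨n,0⟩,0⟩⟩ ∈ T}` such that for no `k' < k` the set
`E' = {n | ⟨k',⟨⟨n,0⟩,0⟩⟩ ∈ T}` has `Secs E' = UU S`. Indeed, if `Secs E = UU S` and `K` is as above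
then `CK E K = S` (since `S ⊆ UU S`), and `T = Tru E K` gives `pf S k = {n | ⟨k,⟨⟨n,0⟩,0⟩⟩ ∈ T}`
(`get i ⟨n,0⟩ = nc n 0 i`, `ix E (get j 0) = ix E 0 = ∅`). All of this is arithmetical in `Z`, by T5. -/
def S_L0 : Prop := Ar (fun _ V => Local (V 0))

/-- L0b. The other relations: `c ∈ Ss d`, `X ∈ Ent Z`, `Desc`, `LinO`, set terms `cst`, `Gam`.
PROOF. Unfold and use aesop; for `Gam` use `AN.natRec` for `gseq` and `AN.ite` for `gstep`. -/
def S_L0b : Prop := Ar (fun _ V => V 0 ∈ Ss (V 1)) ∧ Ar (fun _ V => V 0 ∈ Ent (V 1)) ∧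
  Ar (fun _ V => Desc (V 0) (V 1)) ∧ Ar (fun _ V => LinO (V 0)) ∧ AS (fun _ V => cst (V 0)) ∧
  AS (fun _ V => Gam (V 0))

/-- L1. Least elements of sets in `K` for orders without descending sequence in `K`.
PROOF. If not, let `a ∈ A` and define `f 0 = a`, `f (n+1) =` the least number `b ∈ A` with
`ltR R b (f n)` (exists by assumption and totality of `R`). The real `{x | x.unpair.2 =
f x.unpair.1}` is an arithmetical set term in `A, R` (`AN.natRec`, `AN.sInf`), so in `K`, and it is a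
descending sequence: contradiction. -/
def S_L1 : Prop := ∀ K : Set (Set ℕ), ArClosed K → ∀ R ∈ K, LinO R → (∀ f ∈ K, ¬ Desc f R) →
  ∀ A ∈ K, A.Nonempty → (∀ i ∈ A, Nat.pair i i ∈ R) → ∃ i ∈ A, ∀ j ∈ A, Nat.pair i j ∈ R

/-- L2. In a hierarchy the order is the order of the codes.
PROOF. All `Y_i` are completions (St1). If `i < j` then `Y_i ∈ Prd Z j`, so `Y_i ∈ Ss Y_j` by St2.
Conversely if `Y_i ∈ Ss Y_j` and not `i < j`, then `i = j` or `j < i`, giving `Y_i ∈ Ss Y_i` (T10),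
against T9. Injectivity in the same way. -/
def S_L2 : Prop := ∀ Z, Local Z → (∀ i ∈ fld Z, IsCmp (sec Z (i + 1))) ∧
  ∀ i ∈ fld Z, ∀ j ∈ fld Z, (ltR (sec Z 0) i j ↔ sec Z (i + 1) ∈ Ss (sec Z (j + 1))) ∧
    (sec Z (i + 1) = sec Z (j + 1) → i = j)

/-- L3. Equal codes have equal sets of predecessors.
PROOF. `A = {i ∈ fld Z | ∃ i' ∈ fld Z', Y_i = Y'_i' ∧ Prd Z i ≠ Prd Z' i'}` is arithmetical in `Z, Z'`,
so in `K`. If it is not empty let `i` be its least element (L1) and `i'` as in the definition. By St4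
(and L2) either `Prd Z i = Prd Z' i'`, contradiction, or there is `d = Y_j = Y'_j'`, `j < i`,
`j' < i'`, with all `e ∈ Prd Z i` equal to `d` or in `Ss d`, and the same for `Prd Z' i'`. By
minimality `Prd Z j = Prd Z' j'`. By L2 `Prd Z i = {d} ∪ Prd Z j` and `Prd Z' i' = {d} ∪ Prd Z' j'`:
contradiction. -/
def S_L3 : Prop := ∀ K : Set (Set ℕ), ArClosed K → ∀ Z ∈ K, ∀ Z' ∈ K, HCin K Z → HCin K Z' →
  ∀ i ∈ fld Z, ∀ i' ∈ fld Z', sec Z (i + 1) = sec Z' (i' + 1) → Prd Z i = Prd Z' i'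

/-- L4. Comparability.
PROOF. `A = {i ∈ fld Z | Y_i ∉ Ent Z'}`, `A' = {i' ∈ fld Z' | Y'_i' ∉ Ent Z}`, both in `K`. If `i'` is
the least element of `A'` and `Y_i = Y'_l'` for some `i ∈ fld Z`, then `l' < i'`: otherwise
`l' = i'` (excluded, `Y'_i' ∉ Ent Z`) or `i' < l'` and `Y'_i' ∈ Prd Z' l' = Prd Z i ⊆ Ent Z` (L3),
contradiction; same with the roles exchanged. `A = A' = ∅`: `Ent Z = Ent Z'`. `A = ∅ ≠ A'`:
`Ent Z = Prd Z' i'`. `A ≠ ∅ = A'`: `Ent Z' = Prd Z i`. Both nonempty: `Prd Z i = Prd Z' i'`, so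
`Y_i = Y'_i'` by St3, contradiction. -/
def S_L4 : Prop := ∀ K : Set (Set ℕ), ArClosed K → ∀ Z ∈ K, ∀ Z' ∈ K, HCin K Z → HCin K Z' →
  Ent Z = Ent Z' ∨ (∃ i' ∈ fld Z', Ent Z = Prd Z' i') ∨ (∃ i ∈ fld Z, Ent Z' = Prd Z i)

/-- L5. Extension of a hierarchy by one top point.
PROOF. New point `0`, old point `i` becomes `i + 1`: `Z' = {x | (x.1 = 0 ∧ (x.2 = ⟨0,0⟩ ∨
∃ i, i ∈ fld Z ∧ x.2 = ⟨i+1, 0⟩ ∨ ∃ i j, ⟨i,j⟩ ∈ sec Z 0 ∧ x.2 = ⟨i+1,j+1⟩)) ∨ (x.1 = 1 ∧ x.2 ∈ c) ∨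
(2 ≤ x.1 ∧ ⟨x.1 - 1, x.2⟩ ∈ Z)}` (here `x.1, x.2` are the components of `unpair`), an arithmetical
set term in `Z, c`. `sec Z' 1 = c`, `sec Z' (i+2) = sec Z (i+1)`; `Prd Z' 0 = Ent Z`,
`Prd Z' (i+1) = Prd Z i`. A descending sequence of the new order in `K`: drop its first element and
subtract one: a descending sequence of `sec Z 0` in `K`. -/
def S_L5 : Prop := ∀ K : Set (Set ℕ), ArClosed K → ∀ Z ∈ K, HCin K Z → ∀ c ∈ K, Step (Ent Z) c →
  ∃ Z' ∈ K, HCin K Z' ∧ Ent Z' = Ent Z ∪ {c}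

/-- L6. Initial segments of a hierarchy.
PROOF. `Z₁` : keep in `sec Z 0` the pairs with both entries `≤ i` (second part: `< i`), keep the other
sections. For `j ≤ i` we have `Prd Z₁ j = Prd Z j`. Descending sequences of the smaller order are
descending sequences of `sec Z 0`. -/
def S_L6 : Prop := ∀ K : Set (Set ℕ), ArClosed K → ∀ Z ∈ K, HCin K Z → ∀ i ∈ fld Z,
  (∃ Z₁ ∈ K, HCin K Z₁ ∧ Ent Z₁ = Prd Z i ∪ {sec Z (i + 1)}) ∧
  (∃ Z₂ ∈ K, HCin K Z₂ ∧ Ent Z₂ = Prd Z i)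

/-- L7. ω-models of `Z_2` are closed under completion.
PROOF. Only `Tru E K ∈ M` needs an argument (the rest of `Cmp` is an arithmetical set term in
`E, K, Tru E K`). Let `Wb W k` be: for all `k' ≤ k` and all `m S`,
`⟨k',⟨m,S⟩⟩ ∈ W ↔ TarC W E K k' m S`. For each `k` there is `W ∈ M` with `Wb W k`: induction on `k`,
take `W' = {x ∈ W | x.1 ≤ k} ∪ {⟨k+1,⟨m,S⟩⟩ | TarC W E K (k+1) m S}` (arithmetical in `W, E, K`; the
clauses for codes `≤ k+1` only refer to smaller codes). By T4 every such `W` agrees with `Tru E K`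
on codes `≤ k`. Hence `Tru E K = {x | ∃ W ∈ M, Wb W x.1 ∧ x ∈ W}`, which is in `M` by comprehension
(`UD` over `(M, ∅)`, which is good). -/
def S_L7 : Prop := ∀ M, Mod2 M → ∀ E ∈ M, ∀ K ∈ M, Cmp E K ∈ M

/-! ## G: Cohen reals -/

/-- G1. `Gam c` meets every dense set listed by `c`.
PROOF. `D = sec (sec c 0) n`; `gseq c (n+1) ∈ D` by density. The strings `gseq c k` form a chain for
`Ext` (`Ext` is reflexive and transitive), so each of them is an initial segment of `Gam c`. -/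
def S_G1 : Prop := ∀ c : Set ℕ, ∀ D ∈ Ss c, (∀ w, ∃ w' ∈ D, Ext w w') → ∃ w ∈ D, Ini w (Gam c)

/-- G2. Mutual genericity. Tuples of strings are coded by stacks (`get i x`, `i ≤ j`).
PROOF. Induction on `j`, generalising `D`. `j = 0`: `{w | ∃ x ∈ D, get 0 x = w}` is arithmetical in
`D`, so in `Ss (cs 0)`, and dense; G1. Step `j → j+1`: let `D' = {w | ∃ x ∈ D, get (j+1) x = w ∧
∀ i ≤ j, Ini (get i x) (Gam (cs i))}`; it is arithmetical in `D, cs 0, …, cs j`, all in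
`Ss (cs (j+1))` (`cs i ∈ Ss (cs (i+1))`, `Ss (cs i) ⊆ Ss (cs (i+1))`). `D'` is dense: given `w` put
`D'' = {y | ∃ x ∈ D, (∀ i ≤ j, get i y = get i x) ∧ Ext w (get (j+1) x)}`, in `Ss (cs 0)`; it
satisfies the density hypothesis for `j` (apply density of `D` to a stack with entries
`get i y` (`i ≤ j`) and `w`; stacks exist by T3), so the induction hypothesis gives `y`, hence `x`,
hence an element `get (j+1) x ∈ D'` extending `w`. By G1 some element of `D'` is an initial segment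
of `Gam (cs (j+1))`. -/
def S_G2 : Prop := ∀ (j : ℕ) (cs : ℕ → Set ℕ), (∀ i ≤ j, ArClosed (Ss (cs i))) →
  (∀ i < j, cs i ∈ Ss (cs (i + 1)) ∧ Ss (cs i) ⊆ Ss (cs (i + 1))) →
  ∀ D ∈ Ss (cs 0), (∀ y, ∃ x ∈ D, ∀ i ≤ j, Ext (get i y) (get i x)) →
  ∃ x ∈ D, ∀ i ≤ j, Ini (get i x) (Gam (cs i))

/-- G3. Sorting a finite set of codes.
PROOF. Induction on the finite set `F` (or `Set.Finite`, `Finset.exists_minimal` …): the relation
`c ∈ Ss c'` is a strict linear order on `F`. Take an enumeration in increasing order, e.g. by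
`Finset` induction: insert the new element at its place; or use a maximal element `c` of `F` (finite
nonempty linear order) and the induction hypothesis for `F \ {c}`. If `F = {c₀}` take `j = 0`. -/
def S_G3 : Prop := ∀ F : Set (Set ℕ), F.Finite → F.Nonempty →
  (∀ c ∈ F, ∀ d ∈ F, c = d ∨ c ∈ Ss d ∨ d ∈ Ss c) → (∀ c ∈ F, c ∉ Ss c) →
  (∀ c ∈ F, ∀ d ∈ F, c ∈ Ss d → Ss c ⊆ Ss d) →
  ∃ (j : ℕ) (cs : ℕ → Set ℕ), F = {c | ∃ i ≤ j, c = cs i} ∧ ∀ i < j, cs i ∈ Ss (cs (i + 1))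

/-- G4. `mg2` and `mg1` in abstract form.
PROOF. Apply G3 to `F ∪ {d}`: the least element is `cs 0 = d` (all others are above `d`). Strings:
`w` has length `slen w = w.unpair.1` and bits `w.unpair.2.testBit`; for every `L` and every finite
set of positions there is a string of length `L` with exactly these bits. `D` := set of stacks `x`
for which there are `e, w` with `⟨e,w⟩ ∈ B`, `w < slen (get 0 x)`, `sbit (get 0 x) w`, and for all
`i ≤ j` and `n ∈ Fs e`: `n < slen (get i x)` and `¬ sbit (get i x) n`. `D ∈ Ss d` (arithmetical in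
`B`). Density: given `y` let `L` be a bound of the lengths of `get i y` (`i ≤ j`), take `e, w` beyond
`L`, and extend all strings by zeros to a length above `w` and all `n ∈ Fs e`, except that the string
number `0` gets a one at `w`. G2 gives `x`, and then `w ∈ Gam d`, `n ∉ Gam c` for all `c ∈ F`,
`n ∈ Fs e`. For `mg1` forget `w`. -/
def S_G4 : Prop := ∀ (F : Set (Set ℕ)) (d : Set ℕ), F.Finite →
  (∀ c ∈ F ∪ {d}, ArClosed (Ss c)) →
  (∀ c ∈ F ∪ {d}, ∀ c' ∈ F ∪ {d}, c = c' ∨ c ∈ Ss c' ∨ c' ∈ Ss c) → (∀ c ∈ F ∪ {d}, c ∉ Ss c) →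
  (∀ c ∈ F ∪ {d}, ∀ c' ∈ F ∪ {d}, c ∈ Ss c' → Ss c ⊆ Ss c') → (∀ c ∈ F, c = d ∨ d ∈ Ss c) →
  (∀ B ∈ Ss d, (∀ L, ∃ e ∈ B, ∀ i ∈ Fs e, L ≤ i) → ∃ e ∈ B, ∀ c ∈ F, ∀ i ∈ Fs e, i ∉ Gam c) ∧
  (∀ B ∈ Ss d, (∀ L, ∃ e w, Nat.pair e w ∈ B ∧ L ≤ w ∧ w ∉ Fs e ∧ ∀ i ∈ Fs e, L ≤ i) →
    ∃ e w, Nat.pair e w ∈ B ∧ w ∈ Gam d ∧ ∀ c ∈ F, ∀ i ∈ Fs e, i ∉ Gam c)

end B8d
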