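import Pool.Agent.Lib.MP_8dbd20_lc.Hi.Spec1
import Pool.Agent.Lib.MP_8dbd20_lc.Br.Spec

/-!
# MP_8dbd20_lc, block Hi part 2: the universe `(UM M, CM M)` of an ω-model `M` of `Z_2`

Standing notation in the proofs: `C = CM M`, `U = UM M = UU C`, `Y_i = sec Z (i+1)`,
`c < d` for `c ∈ Ss d`; `U_d = UU (Lseg C d)` for a limit code `d`.  By T8, T10 (block T) for codes
`c, d` (completions): `Ss c` is arithmetically closed, `c < d → Ss c ⊆ Ss d`, `¬ c < c` (T9).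
-/

set_option linter.unusedVariables false

namespace B8d

open Pool.Agent.Lib.Z2 (Str Dfn DF)

/-- C1. Basic facts.
PROOF. Codes are completions by L2; `c = sec Z (i+1) ∈ M` as `M` is arithmetically closed
(`DefClosed M ∅` with arithmetical formulas, `eval_arith`). Linearity: `c ∈ Ent Z`, `d ∈ Ent Z'`; by
L4 (`K = M`) one of `Ent Z ⊆ Ent Z'`, `Ent Z' ⊆ Ent Z` holds, then L2. `UM M ⊆ M`: sections.
`Prd Z i = Lseg C Y_i`: `⊆` by L2. `⊇`: let `d ∈ C`, `d ∈ Ss Y_i`, `d ∈ Ent Z'`. If `d ∈ Ent Z` use L2.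
Otherwise `Ent Z ⊆ Ent Z'` (L4), `Y_i = Y'_i'`, `d ∈ Prd Z' i'` (L2) `= Prd Z i` (L3). The last claim
follows from `Local`. -/
def S_C1 : Prop := ∀ M, Mod2 M →
  (∀ c ∈ CM M, IsCmp c ∧ c ∈ M) ∧ (∀ c ∈ CM M, ∀ d ∈ CM M, c = d ∨ c ∈ Ss d ∨ d ∈ Ss c) ∧
  UM M ⊆ M ∧
  (∀ Z ∈ M, HCin M Z → ∀ i ∈ fld Z, Prd Z i = Lseg (CM M) (sec Z (i + 1))) ∧
  ∀ c ∈ CM M, Step (Lseg (CM M) c) c

/-- C2. Least elements.
PROOF. Take `c₀ ∈ A`, an entry of an `M`-hierarchy code `Z`. The set `{i ∈ fld Z | Y_i ∈ A} ∈ M` has a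
least element `i` (L1), let `c = Y_i`. For `d ∈ A` use linearity: `d < c` would give
`d ∈ Lseg C c = Prd Z i`, `d = Y_j` with `j < i`, contradiction. -/
def S_C2 : Prop := ∀ M, Mod2 M → ∀ A ⊆ CM M, A.Nonempty →
  (∀ Z ∈ M, {i | i ∈ fld Z ∧ sec Z (i + 1) ∈ A} ∈ M) → ∃ c ∈ A, ∀ d ∈ A, d = c ∨ c ∈ Ss d

/-- C3. `C` is nonempty and has no last element.
PROOF. `Z = ∅ ∈ M` is an `M`-hierarchy code with `Ent Z = ∅`; `Step ∅ (Cmp ∅ ∅)`, L7, L5. If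
`c = Y_i ∈ Ent Z` take `Z₁` with `Ent Z₁ = Prd Z i ∪ {c}` (L6); `Step (Ent Z₁) (Cmp (cst c) ∅)`
(case 2, L2), `Cmp (cst c) ∅ ∈ M` (L7), L5. `c ∈ Ss (Cmp (cst c) ∅)` by T9 (`c` is a section of
`cst c`). -/
def S_C3 : Prop := ∀ M, Mod2 M → (CM M).Nonempty ∧
  ∀ c ∈ CM M, Cmp (cst c) ∅ ∈ CM M ∧ c ∈ Ss (Cmp (cst c) ∅)

/-- C4. Initial parts without last element are good.
PROOF. Finitely many members of `UU S` lie in one `Ss c`, `c ∈ S` (induction on `b`, linearity,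
`Ss` increasing). `S ⊆ UU S` as there is no last element. Arithmetical closure: by T2 a formula
depends on `b` variables only; choose `c ∈ S` with `V i ∈ Ss c` for `i < b`, replace the other
parameters by a member of `Ss c`, use T8. -/
def S_C4 : Prop := ∀ M, Mod2 M → ∀ S ⊆ CM M, S.Nonempty → (∀ c ∈ S, ∃ e ∈ S, c ∈ Ss e) →
  Good (UU S) S ∧ ∀ (b : ℕ) (W : ℕ → Set ℕ), (∀ i < b, W i ∈ UU S) → ∃ c ∈ S, ∀ i < b, W i ∈ Ss c

/-- C5. `(U, C)` is definable over `M`.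
PROOF. `X ∈ CM M ↔ ∃ Z ∈ M, Local Z ∧ (∀ f ∈ M, ¬ Desc f (sec Z 0)) ∧ X ∈ Ent Z` and
`X ∈ UM M ↔ ∃ c ∈ M, c ∈ CM M ∧ X ∈ Ss c` are `UD` relations over `(M, ∅)`, which is good (L0, L0b).
The last part by induction on `φ`: relativise the set quantifiers to the `UM` formula, replace `cc`
by the `CM` formula (for `X ∈ UM M` quantified over, the new valuation stays in `UM M`). -/
def S_C5 : Prop :=
  (∃ ψ : F, ∀ M, Mod2 M → ∀ v V, (∀ i, V i ∈ M) → (V 0 ∈ CM M ↔ eval M ∅ ψ v V)) ∧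
  (∃ ψ : F, ∀ M, Mod2 M → ∀ v V, (∀ i, V i ∈ M) → (V 0 ∈ UM M ↔ eval M ∅ ψ v V)) ∧
  ∀ φ : F, ∃ ψ : F, ∀ M, Mod2 M → ∀ v V, (∀ i, V i ∈ UM M) →
    (eval (UM M) (CM M) φ v V ↔ eval M ∅ ψ v V)

/-- C5b. Consequences: definable sets of numbers are in `M`, definable classes of codes have least
elements.
PROOF. C5 and `DefClosed M ∅`. Least elements: C2 with `A = {c ∈ C | φ(c)}`; for `Z ∈ M` the set
`{i ∈ fld Z | Y_i ∈ C ∧ φ(Y_i)}` is definable over `M` (formulas of C5 with the set term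
`sec Z (i+1)` substituted, `UD.subst` over the good structure `(M, ∅)`). -/
def S_C5b : Prop := ∀ M, Mod2 M → ∀ (φ : F) (v : ℕ → ℕ) (V : ℕ → Set ℕ), (∀ i, V i ∈ UM M) →
  {n | eval (UM M) (CM M) φ (nc n v) V} ∈ M ∧
  ((∃ c ∈ CM M, eval (UM M) (CM M) φ v (sc c V)) →
    ∃ c ∈ CM M, eval (UM M) (CM M) φ v (sc c V) ∧
      ∀ d ∈ CM M, eval (UM M) (CM M) φ v (sc d V) → d = c ∨ c ∈ Ss d)

/-- least indices -/
def KL (E K : Set ℕ) : Set ℕ := {a | a ∈ K ∧ ∀ b < a, b ∈ K → sec E b ≠ sec E a}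
/-- the hierarchy code on the indices `K` of sections of `E` -/
def Zof (E K : Set ℕ) : Set ℕ :=
  {x | (x.unpair.1 = 0 ∧ x.unpair.2.unpair.1 ∈ KL E K ∧ x.unpair.2.unpair.2 ∈ KL E K ∧
      (x.unpair.2.unpair.1 = x.unpair.2.unpair.2 ∨
        sec E x.unpair.2.unpair.1 ∈ Ss (sec E x.unpair.2.unpair.2))) ∨
    (0 < x.unpair.1 ∧ x.unpair.2 ∈ sec E (x.unpair.1 - 1))}

/-- C6a. Hierarchy codes from enumerations.
PROOF. `Zof` is an arithmetical set term. Its field is `KL E K`, every member of `S` has exactly one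
index in `KL E K`; `Y_a = sec E a`. Linear order: C1. `Prd (Zof E K) a = {X ∈ S | X ∈ Ss (sec E a)} =
Lseg C (sec E a)` (`S` is closed downwards), so the steps are correct by C1. No descending sequence
`f ∈ M`: apply C2 to `A = {sec E x | ∃ k, ⟨k,x⟩ ∈ f} ⊆ S` (arithmetical in `E, f`): its least element
`sec E x`, `⟨k,x⟩ ∈ f`, is beaten by `sec E y` for `⟨k+1,y⟩ ∈ f`. -/
def S_C6a : Prop := AS (fun _ V => Zof (V 0) (V 1)) ∧
  ∀ M, Mod2 M → ∀ E ∈ M, ∀ K ∈ M, ∀ S ⊆ CM M, (∀ c ∈ S, ∀ d ∈ CM M, d ∈ Ss c → d ∈ S) →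
  (∀ X, X ∈ S ↔ ∃ a ∈ K, X = sec E a) → Zof E K ∈ M ∧ HCin M (Zof E K) ∧ Ent (Zof E K) = S

/-- C6. `U` has no parameter-free definable enumeration.
PROOF. Let `k` be least with `Enu C k`, `E = pf C k ∈ M` (C5b, parameters `∅`), `K = {a | sec E a ∈ C}
∈ M` (C5). `c = Cmp E K ∈ M` (L7), and `Step C c` (third case; C3 for the limit condition). By C6a
with `S = C` there is an `M`-hierarchy code with entries `C`; L5 gives one with entry `c`, so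
`c ∈ C ⊆ U = Secs E ⊆ Ss c` (C4, T9), contradiction to T9. -/
def S_C6 : Prop := ∀ M, Mod2 M → ¬ ∃ k, Enu (CM M) k

/-- C7. Definable selection of least witnesses.
PROOF. `θ(X)`: there is `c ∈ C` which is least with `∃ Y ∈ Ss c, φ(Y)`, and there is `n` with
`X = sec (sec c 0) n`, `φ(X)`, `¬ φ(sec (sec c 0) m)` for all `m < n`. It is `UD` (substitute the set
term `sec (sec c 0) m` with `UD.subst`), one formula for all good structures. Existence of the least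
`c`: C5b; it depends on `φ` only through the class of `X`, so `θ` selects at most one `X`. -/
def S_C7 : Prop := ∀ φ : F, ∃ θ : F, ∀ M, Mod2 M → ∀ v V, (∀ i, V i ∈ UM M) →
  (∀ X ∈ UM M, eval (UM M) (CM M) θ v (sc X V) → eval (UM M) (CM M) φ v (sc X V)) ∧
  (∀ X ∈ UM M, ∀ Y ∈ UM M, eval (UM M) (CM M) θ v (sc X V) →
    eval (UM M) (CM M) θ v (sc Y V) → X = Y) ∧
  ((∃ X ∈ UM M, eval (UM M) (CM M) φ v (sc X V)) →
    ∃ X ∈ UM M, eval (UM M) (CM M) θ v (sc X V))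

/-- C8. (DB) definable partial functions from `ℕ` to `C` are bounded.
PROOF. Suppose `φ` with `v, V` is an unbounded one: for all `d ∈ C` there are `n`, `c ∈ C` with
`φ(n,c)` and not `c ∈ Ss d`. For `W ∈ U` let `φ_W(n,c)` be `φ` with the numbers
`fun i => get i (sInf (sec W 0))` and the sets `fun j => sec W (j+1)`. `BAD(W)`: `φ_W` is functional
on `C` and unbounded; it is `UD` without parameters, and holds for some `W ∈ U` (finitely many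
variables T2, stacks T3, finite joins: `W = {x | x.1 = 0 ∧ x.2 = m ∨ ∃ j < b, x.1 = j+1 ∧ x.2 ∈ V j}`
is arithmetical in the `V j`, `j < b`). Let `θ` select the least such `W` (C7), `W₀`. Let
`E = {x | ∃ W ∈ U, θ(W) ∧ ∃ c ∈ C, φ_W(x.1.1, c) ∧ x.2 ∈ sec (sec c 0) x.1.2}`. It is parameter-free
definable, `E = pf C k` (T1). Every section of `E` is `∅` or in some `Ss c`, so in `U`; every
`X ∈ Ss d` is in `Ss c` for a value `c` not in `Ss d` (linearity), so a section of `E`. Hence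
`Enu C k`, contradiction to C6. -/
def S_C8 : Prop := ∀ M, Mod2 M → ∀ (φ : F) (v : ℕ → ℕ) (V : ℕ → Set ℕ), (∀ i, V i ∈ UM M) →
  (∀ n, ∀ c ∈ CM M, ∀ d ∈ CM M, eval (UM M) (CM M) φ (nc n v) (sc c V) →
    eval (UM M) (CM M) φ (nc n v) (sc d V) → c = d) →
  ∃ d ∈ CM M, ∀ n, ∀ c ∈ CM M, eval (UM M) (CM M) φ (nc n v) (sc c V) → c ∈ Ss d

/-- C9. Bounds for counterexamples.
PROOF. Apply C8 (parameter `c`) to the functional relation `Φ(x, c')`: `c'` is the least code such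
that `∃ X ∈ Ss c'`, not `φ` with numbers `get · x.1`, first set `X`, other sets
`sec (sec c 0) (get · x.2)`. Let `d` be a bound and `c'` the larger one of `d` and
`Cmp (cst c) ∅` (C3). Any `v`, `V` with all `V i ∈ Ss c` are coded by some `x` up to the finitely many
variables which matter (T2, T3); least codes exist by C5b. -/
def S_C9 : Prop := ∀ M, Mod2 M → ∀ φ : F, ∀ c ∈ CM M, ∃ c' ∈ CM M, c ∈ Ss c' ∧
  ∀ v V, (∀ i, V i ∈ Ss c) → (∃ X ∈ UM M, ¬ eval (UM M) (CM M) φ v (sc X V)) →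
    ∃ X ∈ Ss c', ¬ eval (UM M) (CM M) φ v (sc X V)

/-- C10. Limits closed under a definable relation.
PROOF. Write `φ(c,c')`. Let `Nx(c,c')`: `c'` is the least code with `c < c'` and `φ(c,c')`; it is
definable and for every `c ∈ C` there is exactly one such `c' ∈ C` (C5b). `It(n,c)`: there is `Z ∈ U`
with `sec Z 0 = c₀`, `sec Z n = c`, and for all `i < n`: `sec Z i ∈ C`, `sec Z (i+1) ∈ C`,
`Nx(sec Z i, sec Z (i+1))`. By induction on `n` there is exactly one such `c = cⁿ ∈ C` (existence: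
change the section `n+1` of `Z`; `U` is arithmetically closed). `cⁿ < cⁿ⁺¹`. By C8 the class of
`d ∈ C` with `cⁿ < d` for all `n` is not empty, let `d` be its least element (C5b). `c₀ < d`. If
`c ∈ C`, `c < d` then `c` is not in the class, so `cⁿ ≮ c` for some `n`, i.e. `c = cⁿ` or `c < cⁿ`;
then `c < cⁿ⁺¹ < d`, and `φ(cⁿ,cⁿ⁺¹)` gives `φ(c,cⁿ⁺¹)` by monotonicity. -/
def S_C10 : Prop := ∀ M, Mod2 M → ∀ (φ : F) (v : ℕ → ℕ) (V : ℕ → Set ℕ), (∀ i, V i ∈ UM M) →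
  (∀ c ∈ CM M, ∃ c' ∈ CM M, c ∈ Ss c' ∧ eval (UM M) (CM M) φ v (sc c (sc c' V))) →
  (∀ b ∈ CM M, ∀ c ∈ CM M, ∀ c' ∈ CM M, b ∈ Ss c →
    eval (UM M) (CM M) φ v (sc c (sc c' V)) → eval (UM M) (CM M) φ v (sc b (sc c' V))) →
  ∀ c₀ ∈ CM M, ∃ d, Lim (CM M) d ∧ c₀ ∈ Ss d ∧
    ∀ c ∈ CM M, c ∈ Ss d → ∃ c' ∈ CM M, c' ∈ Ss d ∧ c ∈ Ss c' ∧
      eval (UM M) (CM M) φ v (sc c (sc c' V))

/-- C11a. Every formula has a definable witness relation `W = χ` (no parameters).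
PROOF. Induction on `φ`. Atoms: `χ` = true (`neg fls`). (`cc j`: for `X ∈ U_d`, i.e. `X ∈ Ss c`,
`c < d`: `X ∈ C ↔ X ∈ Lseg C d`.) `neg φ`, `allN φ`: same `χ`. `and φ ψ`: conjunction of the two; for
totality take the larger one of the two `c'` (property (up)). `allS φ`: `χ_φ(c,c')` and: for all `x`,
if there is `X ∈ U` with not `φ(get · x.1; X, sec (sec c 0) (get · x.2))` then there is one in `Ss c'`.
Totality: C9 (and `sec (sec c 0) n ∈ Ss c`); (mono): parameters in `Ss b ⊆ Ss c` (T2, T3 to find the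
new `x`); (up) clear. Elementarity for `allS φ`: if `allS φ` fails in `(U,C)` for `v, V` (`V i ∈ U_d`)
choose `c < d` with `V i ∈ Ss c` for the finitely many variables `i` which matter (C4 for
`S = Lseg C d`), then `c' < d` with `χ(c,c')`; so a counterexample lies in `Ss c' ⊆ U_d`. -/
def S_C11a : Prop := ∀ φ : F, ∃ χ : F, ∀ M, Mod2 M → ∀ W : Set ℕ → Set ℕ → Prop,
  (∀ c c', W c c' ↔ eval (UM M) (CM M) χ (fun _ => 0) (sc c (sc c' fun _ => ∅))) →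
  (∀ c ∈ CM M, ∃ c' ∈ CM M, c ∈ Ss c' ∧ W c c') ∧
  (∀ b ∈ CM M, ∀ c ∈ CM M, ∀ c' ∈ CM M, b ∈ Ss c → W c c' → W b c') ∧
  (∀ c ∈ CM M, ∀ c' ∈ CM M, ∀ c'' ∈ CM M, c' ∈ Ss c'' → W c c' → W c c'') ∧
  (∀ d, Lim (CM M) d → (∀ c ∈ CM M, c ∈ Ss d → ∃ c' ∈ CM M, c' ∈ Ss d ∧ W c c') →
    ∀ v V, (∀ i, V i ∈ UU (Lseg (CM M) d)) →
      (eval (UM M) (CM M) φ v V ↔ eval (UU (Lseg (CM M) d)) (Lseg (CM M) d) φ v V))

/-- C11. (Refl). PROOF. `X ∈ Ss c₀`; C10 for the formula `χ` of C11a and `c₀`. -/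
def S_C11 : Prop := ∀ M, Mod2 M → ∀ φ : F, ∀ X ∈ UM M, ∃ d, Lim (CM M) d ∧
  X ∈ UU (Lseg (CM M) d) ∧ ∀ v V, (∀ i, V i ∈ UU (Lseg (CM M) d)) →
    (eval (UM M) (CM M) φ v V ↔ eval (UU (Lseg (CM M) d)) (Lseg (CM M) d) φ v V)

/-- C12. Limit codes.
PROOF. `Step (Lseg C d) d` (C1); `Lim` excludes the first two cases, so `d = Cmp (pf S k) {a | …}`
with `S = Lseg C d`, `Secs (pf S k) = UU S`, `sec d 1 = pf S k`, `sec d 2 = {a | sec (sec d 1) a ∈ S}`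
(T9). Good: C4. `Ss d = DefS`: T11. `Ud d ⊆ Ss d`: T9. -/
def S_C12 : Prop := ∀ M, Mod2 M → ∀ d, Lim (CM M) d →
  Ud d = UU (Lseg (CM M) d) ∧ Good (Ud d) (Lseg (CM M) d) ∧
  Ss d = DefS (Ud d) (Lseg (CM M) d) ∧ Ud d ⊆ Ss d ∧
  (∀ X, X ∈ Lseg (CM M) d ↔ ∃ a ∈ sec d 2, X = sec (sec d 1) a) ∧
  (∀ c ∈ CM M, c ∈ Ud d ↔ c ∈ Ss d)

/-- C13. (Claim A).
PROOF. Let `X = {n | φ(n, V)}`. Only `V i`, `i < b`, matter (T2); let `W ∈ U` have sections `V i`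
(`i < b`). C11 for `φ` and `W`: `d` limit, `W ∈ U_d`, hence `V i ∈ U_d` (`i < b`), replace the other
parameters by `∅`. `X = {n | (U_d, C_d) ⊨ φ(n, V)} ∈ DefS = Ss d ⊆ U` (C12). -/
def S_C13 : Prop := ∀ M, Mod2 M → DefClosed (UM M) (CM M)

/-- C14. Every code is an entry of a hierarchy code in `U`.
PROOF. C11 (any formula, `X = c`): limit `d` with `c ∈ U_d`, so `c ∈ Lseg C d` (C12). `Zof (sec d 1)
(sec d 2)` is arithmetical in `d`, so in `U`; it is an `M`-hierarchy code with entries `Lseg C d` by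
C6a and C12 (`Lseg C d` is closed downwards by T10). -/
def S_C14 : Prop := ∀ M, Mod2 M → ∀ c ∈ CM M, ∃ Z ∈ UM M, HCin M Z ∧ c ∈ Ent Z

/-- C15. Definable choice in `U`.
PROOF. `θ` from C7 (the number `n` is the first number variable); `Z = {x | ∃ X ∈ U, θ(x.1, X) ∧
x.2 ∈ X} ∈ U` by C13. -/
def S_C15 : Prop := ∀ M, Mod2 M → ∀ (φ : F) (v : ℕ → ℕ) (V : ℕ → Set ℕ), (∀ i, V i ∈ UM M) →
  (∀ n, ∃ X ∈ UM M, eval (UM M) (CM M) φ (nc n v) (sc X V)) →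
  ∃ Z ∈ UM M, ∀ n, eval (UM M) (CM M) φ (nc n v) (sc (sec Z n) V)

/-- C16. The fields of `Univ` which only use the order of the codes.
PROOF. `limX`: C11. `limC, limSub`: C12. `mg1, mg2`: G4. `ssPrim`: primitive recursive predicates are
arithmetical (Br1: `Nat.Partrec.Code` of the characteristic function), T8. `uSs, ssU`: definition of
`UM`. `entM`: definition of `CM`. `hc`: C14. -/
def S_C16 : Prop := ∀ M, Mod2 M →
  (∀ c ∈ CM M, c ∉ Ss c) ∧ (∀ c ∈ CM M, ∀ d ∈ CM M, c ∈ Ss d → Ss c ⊆ Ss d) ∧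
  (∀ X ∈ UM M, ∃ d, Lim (CM M) d ∧ X ∈ Ud d) ∧
  (∀ c ∈ CM M, ArClosed (Ss c)) ∧
  (∀ c ∈ CM M, ∀ p : ℕ → Prop, PrimrecPred p → {n | p n} ∈ Ss c) ∧
  (∀ d ∈ CM M, ∀ F : Set (Set ℕ), F.Finite → F ⊆ CM M → (∀ c ∈ F, c = d ∨ d ∈ Ss c) →
    (∀ B ∈ Ss d, (∀ L, ∃ e ∈ B, ∀ i ∈ Fs e, L ≤ i) → ∃ e ∈ B, ∀ c ∈ F, ∀ i ∈ Fs e, i ∉ Gam c) ∧
    (∀ B ∈ Ss d, (∀ L, ∃ e w, Nat.pair e w ∈ B ∧ L ≤ w ∧ w ∉ Fs e ∧ ∀ i ∈ Fs e, L ≤ i) →
      ∃ e w, Nat.pair e w ∈ B ∧ w ∈ Gam d ∧ ∀ c ∈ F, ∀ i ∈ Fs e, i ∉ Gam c))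

/-! ## E: Lemma E -/

/-- E0. Restriction of a hierarchy to `≤ i` and to `< i`.
PROOF. `Z₁ = {x | x.1 = 0 ∧ x.2 ∈ sec Z 0 ∧ ⟨x.2.2, i⟩ ∈ sec Z 0 ∨ 0 < x.1 ∧ x ∈ Z}`; for `j ≤ i`:
`Prd Z₁ j = Prd Z j`. For `< i` add the condition `x.2.2 ≠ i`. -/
def S_E0 : Prop := ∀ K : Set (Set ℕ), ArClosed K → ∀ Z ∈ K, Local Z → ∀ i ∈ fld Z,
  (∃ Z₁ ∈ K, Local Z₁ ∧ sec Z₁ 0 = {x | x ∈ sec Z 0 ∧ Nat.pair x.unpair.2 i ∈ sec Z 0} ∧
    ∀ j, sec Z₁ (j + 1) = sec Z (j + 1)) ∧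
  (∃ Z₂ ∈ K, Local Z₂ ∧
    sec Z₂ 0 = {x | x ∈ sec Z 0 ∧ x.unpair.2 ≠ i ∧ Nat.pair x.unpair.2 i ∈ sec Z 0} ∧
    ∀ j, sec Z₂ (j + 1) = sec Z (j + 1))

/-- E1. Uniqueness of hierarchies along an order without descending sequence in `K`.
PROOF. The set of `i ∈ fld Z` with `Y_i ≠ Y'_i` is in `K`; at its least element (L1) the sets of
predecessors agree, so `Y_i = Y'_i` by St3 (entries are completions, L2). -/
def S_E1 : Prop := ∀ K : Set (Set ℕ), ArClosed K → ∀ Z ∈ K, ∀ Z' ∈ K, Local Z → Local Z' →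
  sec Z 0 = sec Z' 0 → (∀ f ∈ K, ¬ Desc f (sec Z 0)) → ∀ i ∈ fld Z, sec Z (i + 1) = sec Z' (i + 1)

/-- E2. Union of hierarchies.
PROOF. `Z* = {x | x.1 = 0 ∧ x.2 ∈ R ∨ 0 < x.1 ∧ ∃ Z ∈ K, Local Z ∧ sec Z 0 = R≤(x.1 - 1) ∧
x.2 ∈ sec Z x.1 ∧ ⟨x.1-1, x.1-1⟩ ∈ R}`, where `R≤n = {x ∈ R | ⟨x.2, n⟩ ∈ R}`, is in `K` (`UD` over the
good structure `(K, ∅)`, `Mod2 K`). Let `Zⁱ` be a hierarchy along `R≤i`; by E0, E1
`sec Zⁱ (j+1) = sec Zʲ (j+1)` for `j ≤ i` (descending sequences of `R≤j` are descending sequences of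
`R`). So `sec Z* (j+1) = sec Zⁱ (j+1)` for `j ≤ i` and `Prd Z* i = Prd Zⁱ i`. -/
def S_E2 : Prop := ∀ K : Set (Set ℕ), Mod2 K → ∀ R ∈ K, LinO R → (∀ f ∈ K, ¬ Desc f R) →
  (∀ n, Nat.pair n n ∈ R → ∃ Z ∈ K, Local Z ∧
    sec Z 0 = {x | x ∈ R ∧ Nat.pair x.unpair.2 n ∈ R}) →
  ∃ Z ∈ K, Local Z ∧ sec Z 0 = R

/-- the hypotheses on `K` in Lemma E -/
def KH (M U C K : Set (Set ℕ)) : Prop := Univ M U C ∧ U ⊆ K ∧ Mod2 K ∧
  (∀ R ∈ U, (∀ f ∈ U, ¬ Desc f R) → ∀ f ∈ K, ¬ Desc f R) ∧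
  (¬ ∃ L ∈ K, ∀ c ∈ C, ∃ n, c = sec L n)

/-- E3. Part 1.
PROOF. `M`-hierarchy codes `Z' ∈ U` are `K`-hierarchy codes: no descending sequence in `M ⊇ U`, hence
none in `K` (hypothesis). Compare `Z` and `Z'` in `K` (L4). If `Ent Z' ⊆ Ent Z` for all
`M`-hierarchy codes `Z' ∈ U`, then by `Univ.hc` every `c ∈ C` is an entry of `Z`, i.e. a section of
`Z ∈ K`: contradiction. -/
def S_E3 : Prop := ∀ M U C K, KH M U C K → ∀ Z ∈ K, HCin K Z → ∃ Z' ∈ U, HCin M Z' ∧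
  (Ent Z = Ent Z' ∨ ∃ i' ∈ fld Z', Ent Z = Prd Z' i')

/-- E4. Part 2: along every order without descending sequence in `K` there is a hierarchy in `K`.
PROOF. `S' = {n | ⟨n,n⟩ ∈ R ∧ ∃ Z ∈ K, Local Z ∧ sec Z 0 = R≤n} ∈ K`. If it is the whole field use E2.
Otherwise let `n` be the least element of the complement (L1), `R' = {x ∈ R | ⟨x.2,n⟩ ∈ R, x.2 ≠ n}`.
By E2 for `R'` there is a hierarchy `Z ∈ K` along `R'`. E3 gives `Z' ∈ U`, `HCin M Z'`. In the case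
`Ent Z = Prd Z' i'` put `c = sec Z' (i'+1)`. In the case `Ent Z = Ent Z'`: some `c₁ ∈ C` is not a
section of `Z'` (hypothesis), so not an entry; let `Z'' ∈ U` be an `M`-hierarchy code with entry `c₁`
(`Univ.hc`); L4 in `K` and `c₁ ∉ Ent Z'` give `Ent Z' = Prd Z'' i''` for some `i''` (not
`Ent Z'' ⊆ Ent Z'`); put `c = sec Z'' (i''+1)`. In both cases `Step (Ent Z) c` and `c ∈ K`. Put `c` at
the point `n`: `Z₂ = {x | x.1 = 0 ∧ x.2 ∈ R≤n ∨ x.1 = n + 1 ∧ x.2 ∈ c ∨ 0 < x.1 ∧ x.1 ≠ n+1 ∧ x ∈ Z}`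
is a hierarchy along `R≤n` in `K`: contradiction. -/
def S_E4 : Prop := ∀ M U C K, KH M U C K → ∀ R ∈ K, LinO R → (∀ f ∈ K, ¬ Desc f R) →
  ∃ Z ∈ K, Local Z ∧ sec Z 0 = R

/-- E5. LEMMA E.
PROOF. E4 gives `Z ∈ K`, `Local Z`, `sec Z 0 = R`, so `HCin K Z`. E3 gives `Z' ∈ U`, `HCin M Z'`. If
`Ent Z = Prd Z' i'` replace `Z'` by its restriction to `< i'` (E0 for the class `U`, which is
arithmetically closed: `Univ`/framework 2 `GoodS` and S_E5U below); its order is a part of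
`sec Z' 0`, so it has no descending sequence in `M`. So we may assume `Ent Z = Ent Z'`. For `i` in the
field of `R` let `h i` be the unique `i' ∈ fld Z'` with `Y_i = Y'_i'` (L2), `h i = 0` outside. The graph
of `h` is arithmetical in `Z, Z'`, so in `K`. `h` is onto `fld Z'`, and preserves the order because
`i < j ↔ Y_i ∈ Ss Y_j` in both (L2). -/
def S_E5 : Prop := S_LemE

/-- E5U. `U` is arithmetically closed. PROOF. `Univ.uSs`, `Univ.lin`, `Univ.trans`, `Univ.ssAr`: by T2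
only finitely many parameters matter, they lie in one `Ss c`; `Univ.ssU`. -/
def S_E5U : Prop := ∀ M U C, Univ M U C → ArClosed U ∧ U.Nonempty

/-- E6. PROOF. (→) `Univ.hc`: `Z ∈ U ⊆ K`; no descending sequence in `M ⊇ U`, so none in `K`. (←) E3:
`Ent Z ⊆ Ent Z' ⊆ C` (`Univ.entM`, `Univ.um`). -/
def S_E6 : Prop := S_LemEC

/-- LS. Countable elementary submodels.
PROOF. Fix `X₀ ∈ M`. For `φ : F`, `m : ℕ`, a list `L` of members of `M` choose `w(φ,m,L) ∈ M` with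
not `eval M ∅ φ (fun i => get i m) (sc w (fun j => L.getD j X₀))` if there is one, else `X₀`. Let
`A₀ = {X₀}`, `A_{n+1} = A_n ∪ {w(φ,m,L) | L a list of members of A_n}`, `M' = ⋃ A_n`: countable (there are
countably many formulas by T1). By T2, T3 and induction on `φ`: `eval M' ∅ φ v V ↔ eval M ∅ φ v V` for
`V i ∈ M'`. Comprehension in `M'`: the set `Y = {n | eval M ∅ φ (nc n v) V} ∈ M` is the only set with
`∀ n (n ∈ Y ↔ φ(n,V))`; this is a formula (rename `φ` to make room for `Y`), so it has a witness in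
`M'`. `BetaI`: an arithmetical formula with a true witness has one in `M`, so one in `M'`
(`eval_arith`). -/
def S_LS : Prop := ∀ M, Mod2 M → ∃ M' ⊆ M, M'.Countable ∧ Mod2 M' ∧ (BetaI M → BetaI M')

/-- C17. THE HIERARCHY THEOREM.
PROOF. `um, lin`: C1. `good`: Br5 and C4 for `S = C` (C3). `comp`: Br6, C13. `ac`: Br6, C15. `noSurj`:
Br6, C8: a bound `d` and `Cmp (cst d) ∅` (C3) contradict. `inh`: C3. `irr, trans, limX, ssAr, ssPrim,
mg1, mg2`: C16. `ssU, uSs`: definition of `UM`. `least`: Br6, C5b. `limGood`: Br5, C12. `limComp`: Br6,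
C12. `limSub, limC`: C12. `hc`: C14. `entM`: definition of `CM`. -/
def S_C17 : Prop := S_Univ

end B8d
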