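import Pool.Agent.Lib.MP_8dbd20_lc.Hi.Spec1

/-!
# MP_8dbd20_lc, `Hi/St2`: the next code lists the old ones
-/

namespace B8d

private theorem St2_cst (d : Set ℕ) : d ∈ Secs (cst d) := by
  refine ⟨0, ?_⟩
  ext m
  simp [cst]

theorem pSt2 (h9 : S_T9) (h10 : S_T10) : S_St1 ∧ S_St2 := by
  constructor
  · rintro S c (⟨-, rfl⟩ | ⟨d, -, -, rfl⟩ | ⟨-, -, k, -, -, rfl⟩)
    · exact ⟨_, _, rfl⟩
    · exact ⟨_, _, rfl⟩
    · exact ⟨_, _, rfl⟩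
  · rintro S c hS (⟨rfl, -⟩ | ⟨d, hd, hmax, rfl⟩ | ⟨-, hlim, k, hk, -, rfl⟩) e he
    · exact he.elim
    · have h1 : d ∈ Ss (Cmp (cst d) ∅) := (h9 (cst d) ∅).2.1 (St2_cst d)
      rcases hmax e he with rfl | h2
      · exact h1
      · exact h10 d _ ⟨_, _, rfl⟩ h1 h2
    · obtain ⟨e', he', h1⟩ := hlim e he
      have h2 : e ∈ UU S := ⟨e', he', h1⟩
      have h3 : Secs (pf S k) = UU S := hk
      rw [← h3] at h2
      exact (h9 _ _).2.1 h2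

end B8d
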