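import Pool.Agent.Lib.MP_8dbd20_lc.Hi.Spec1

/-!
# MP_8dbd20_lc, `Hi/St3`: the next code is unique
-/

namespace B8d

private theorem St3_irr (h9 : S_T9) {d : Set ℕ} (hd : IsCmp d) : d ∉ Ss d := by
  obtain ⟨E, K, rfl⟩ := hd
  exact (h9 E K).1

private theorem St3_23 (h9 : S_T9) (h10 : S_T10) {S : Set (Set ℕ)} (hS : ∀ e ∈ S, IsCmp e)
    {d : Set ℕ} (hd : d ∈ S) (hmax : ∀ e ∈ S, e = d ∨ e ∈ Ss d)
    (hlim : ∀ d ∈ S, ∃ e ∈ S, d ∈ Ss e) : False := by
  obtain ⟨e, he, hde⟩ := hlim d hd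
  rcases hmax e he with rfl | h
  · exact St3_irr h9 (hS _ hd) hde
  · exact St3_irr h9 (hS _ hd) (h10 e d (hS d hd) h hde)

theorem pSt3 (h9 : S_T9) (h10 : S_T10) : S_St3 := by
  rintro S c c' hS (⟨hS0, rfl⟩ | ⟨d, hd, hmax, rfl⟩ | ⟨hne, hlim, k, hk, hmin, rfl⟩)
    (⟨hS0', rfl⟩ | ⟨d', hd', hmax', rfl⟩ | ⟨hne', hlim', k', hk', hmin', rfl⟩)
  · rfl
  · rw [hS0] at hd'
    exact hd'.elim
  · rw [hS0] at hne'
    exact absurd hne' Set.not_nonempty_empty
  · rw [hS0'] at hd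
    exact hd.elim
  · have : d = d' := by
      rcases hmax d' hd' with h | h
      · exact h.symm
      · rcases hmax' d hd with h' | h'
        · exact h'
        · exact absurd (h10 d' d (hS d hd) h h') (St3_irr h9 (hS _ hd))
    rw [this]
  · exact (St3_23 h9 h10 hS hd hmax hlim').elim
  · rw [hS0'] at hne
    exact absurd hne Set.not_nonempty_empty
  · exact (St3_23 h9 h10 hS hd' hmax' hlim).elim
  · have : k = k' := by
      rcases lt_trichotomy k k' with h | h | h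
      · exact absurd hk (hmin' k h)
      · exact h
      · exact absurd hk' (hmin k' h)
    rw [this]

end B8d
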