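import Pool.Agent.Lib.MP_8dbd20_lc.Hi.Spec1

/-!
# MP_8dbd20_lc, `Hi/St4`: what the code tells about the predecessors
-/

namespace B8d

private theorem St4_cst {d : Set ℕ} {n : ℕ} : Nat.pair 0 n ∈ cst d ↔ n ∈ d := by
  simp [cst]

private theorem St4_desc (h9 : S_T9) {S : Set (Set ℕ)} {c : Set ℕ} (hS : ∀ e ∈ S, IsCmp e)
    (h : Step S c) : (S = ∅ ∧ sec c 1 = ∅ ∧ sec c 2 = ∅) ∨
    (∃ d ∈ S, (∀ e ∈ S, e = d ∨ e ∈ Ss d) ∧ sec c 1 = cst d ∧ d.Nonempty ∧ sec c 2 = ∅) ∨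
    ((sec c 2).Nonempty ∧ S = {X | ∃ a ∈ sec c 2, X = sec (sec c 1) a}) := by
  rcases h with ⟨hS0, rfl⟩ | ⟨d, hd, hmax, rfl⟩ | ⟨hne, hlim, k, hk, hmin, rfl⟩
  · exact Or.inl ⟨hS0, (h9 _ _).2.2.1, (h9 _ _).2.2.2.1⟩
  · refine Or.inr (Or.inl ⟨d, hd, hmax, (h9 _ _).2.2.1, ?_, (h9 _ _).2.2.2.1⟩)
    obtain ⟨E, K, rfl⟩ := hS d hd
    exact Set.nonempty_iff_ne_empty.mpr (h9 E K).2.2.2.2
  · right
    right
    rw [(h9 _ _).2.2.1, (h9 _ _).2.2.2.1]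
    have h1 : ∀ e ∈ S, ∃ a, e = sec (pf S k) a := by
      intro e he
      obtain ⟨e', he', h1⟩ := hlim e he
      have h2 : e ∈ UU S := ⟨e', he', h1⟩
      have h3 : Secs (pf S k) = UU S := hk
      rw [← h3] at h2
      exact h2
    constructor
    · obtain ⟨e, he⟩ := hne
      obtain ⟨a, rfl⟩ := h1 e he
      exact ⟨a, he⟩
    · ext X
      constructor
      · intro hX
        obtain ⟨a, rfl⟩ := h1 X hX
        exact ⟨a, hX, rfl⟩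
      · rintro ⟨a, ha, rfl⟩
        exact ha

theorem pSt4 (h9 : S_T9) : S_St4 := by
  intro S S' c hS hS' h h'
  rcases St4_desc h9 hS h with ⟨a1, a2, a3⟩ | ⟨d, a1, a2, a3, a4, a5⟩ | ⟨a1, a2⟩
  · rcases St4_desc h9 hS' h' with ⟨b1, b2, b3⟩ | ⟨d', b1, b2, b3, b4, b5⟩ | ⟨b1, b2⟩
    · exact Or.inl (a1.trans b1.symm)
    · obtain ⟨n, hn⟩ := b4
      rw [a2] at b3
      rw [← St4_cst, ← b3] at hn
      exact hn.elim
    · rw [a3] at b1
      exact absurd b1 Set.not_nonempty_empty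
  · rcases St4_desc h9 hS' h' with ⟨b1, b2, b3⟩ | ⟨d', b1, b2, b3, b4, b5⟩ | ⟨b1, b2⟩
    · obtain ⟨n, hn⟩ := a4
      rw [b2] at a3
      rw [← St4_cst, ← a3] at hn
      exact hn.elim
    · have h1 : d = d' := by
        ext n
        rw [← St4_cst, ← St4_cst (d := d'), ← a3, ← b3]
      subst h1
      exact Or.inr ⟨d, a1, b1, a2, b2⟩
    · rw [a5] at b1
      exact absurd b1 Set.not_nonempty_empty
  · rcases St4_desc h9 hS' h' with ⟨b1, b2, b3⟩ | ⟨d', b1, b2, b3, b4, b5⟩ | ⟨b1, b2⟩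
    · rw [b3] at a1
      exact absurd a1 Set.not_nonempty_empty
    · rw [b5] at a1
      exact absurd a1 Set.not_nonempty_empty
    · exact Or.inl (a2.trans b2.symm)

end B8d
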