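import Pool.Agent.Lib.MP_8dbd20_lc.Hi.Spec1

namespace B8d

theorem pT1 : S_T1 := by
  intro φ
  induction φ with
  | fls => exact ⟨0, by rw [dec]⟩
  | add i j k =>
    exact ⟨Nat.pair 0 (Nat.pair i (Nat.pair j k)) + 1, by rw [dec]; simp [Nat.unpair_pair]⟩
  | mul i j k =>
    exact ⟨Nat.pair 1 (Nat.pair i (Nat.pair j k)) + 1, by rw [dec]; simp [Nat.unpair_pair]⟩
  | mem i j =>
    exact ⟨Nat.pair 2 (Nat.pair i j) + 1, by rw [dec]; simp [Nat.unpair_pair]⟩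
  | cc j =>
    exact ⟨Nat.pair 3 j + 1, by rw [dec]; simp [Nat.unpair_pair]⟩
  | neg φ ih =>
    obtain ⟨k, hk⟩ := ih
    exact ⟨Nat.pair 4 k + 1, by rw [dec]; simp [Nat.unpair_pair, hk]⟩
  | and φ ψ ih1 ih2 =>
    obtain ⟨k, hk⟩ := ih1
    obtain ⟨l, hl⟩ := ih2
    exact ⟨Nat.pair 5 (Nat.pair k l) + 1, by rw [dec]; simp [Nat.unpair_pair, hk, hl]⟩
  | allN φ ih =>
    obtain ⟨k, hk⟩ := ih
    exact ⟨Nat.pair 6 k + 1, by rw [dec]; simp [Nat.unpair_pair, hk]⟩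
  | allS φ ih =>
    obtain ⟨k, hk⟩ := ih
    exact ⟨Nat.pair 7 k + 1, by rw [dec]; simp [Nat.unpair_pair, hk]⟩

end B8d
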