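import Pool.Agent.Lib.MP_8dbd20_lc.Hi.Spec1

/-!
# MP_8dbd20_lc, block Hi, T10: transitivity
-/

namespace B8d

theorem T10_as : AS (fun v V => sec (sec (V 0) 0) (v 0)) := by
  aesop (config := { enableSimp := false })

theorem pT10 (h8 : S_T8) : S_T10 := by
  rintro c d ⟨E, K, rfl⟩ hc X ⟨a, rfl⟩
  exact T10_as.closed (h8 E K).1 (fun _ => a) (fun _ => c) (fun _ => hc)

end B8d
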