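import Pool.Agent.Lib.MP_8dbd20_lc.Hi.Spec1

/-! # MP_8dbd20_lc, block Hi: the completion at a limit step -/

set_option linter.unusedVariables false

namespace B8d

theorem pT11 (h6 : S_T6) : S_T11 := by
  intro S k hE hS h0
  have hE' : Secs (pf S k) = UU S := hE
  have hC : CK (pf S k) {a | sec (pf S k) a ∈ S} = S := by
    ext X
    constructor
    · rintro ⟨a, ha, rfl⟩
      exact ha
    · intro hX
      have h1 : X ∈ Secs (pf S k) := by
        rw [hE']
        exact hS hX
      obtain ⟨a, ha⟩ := h1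
      refine ⟨a, ?_, ha⟩
      change sec (pf S k) a ∈ S
      rw [← ha]
      exact hX
  ext X
  rw [h6, hC, hE']
  constructor
  · rintro ⟨φ, v, V, hV, hX⟩
    refine ⟨φ, v, V, fun i => ?_, hX⟩
    rcases hV i with h | h
    · exact h
    · rw [h]
      exact h0
  · rintro ⟨φ, v, V, hV, hX⟩
    exact ⟨φ, v, V, fun i => Or.inl (hV i), hX⟩

end B8d
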