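import Pool.Agent.Lib.MP_8dbd20_lc.Hi.Spec1

namespace B8d

private theorem T2_nc {b n : ℕ} {v v' : ℕ → ℕ} (h : ∀ i < b, v i = v' i) :
    ∀ i < b + 1, nc n v i = nc n v' i := by
  intro i hi
  cases i with
  | zero => rfl
  | succ i => exact h i (by omega)

private theorem T2_sc {b : ℕ} {X : Set ℕ} {V V' : ℕ → Set ℕ} (h : ∀ i < b, V i = V' i) :
    ∀ i < b + 1, sc X V i = sc X V' i := by
  intro i hi
  cases i with
  | zero => rfl
  | succ i => exact h i (by omega)

theorem pT2 : S_T2 := by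
  intro φ
  induction φ with
  | fls => exact ⟨0, fun _ _ _ _ _ _ _ _ => Iff.rfl⟩
  | add i j k =>
    refine ⟨i + j + k + 1, fun U C v v' V V' h1 h2 => ?_⟩
    simp only [eval]
    rw [h1 i (by omega), h1 j (by omega), h1 k (by omega)]
  | mul i j k =>
    refine ⟨i + j + k + 1, fun U C v v' V V' h1 h2 => ?_⟩
    simp only [eval]
    rw [h1 i (by omega), h1 j (by omega), h1 k (by omega)]
  | mem i j =>
    refine ⟨i + j + 1, fun U C v v' V V' h1 h2 => ?_⟩
    simp only [eval]
    rw [h1 i (by omega), h2 j (by omega)]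
  | cc j =>
    refine ⟨j + 1, fun U C v v' V V' h1 h2 => ?_⟩
    simp only [eval]
    rw [h2 j (by omega)]
  | neg φ ih =>
    obtain ⟨b, hb⟩ := ih
    refine ⟨b, fun U C v v' V V' h1 h2 => ?_⟩
    simp only [eval]
    rw [hb U C v v' V V' h1 h2]
  | and φ ψ ih1 ih2 =>
    obtain ⟨b, hb⟩ := ih1
    obtain ⟨b', hb'⟩ := ih2
    refine ⟨b + b', fun U C v v' V V' h1 h2 => ?_⟩
    simp only [eval]
    rw [hb U C v v' V V' (fun i hi => h1 i (by omega)) (fun i hi => h2 i (by omega)),
      hb' U C v v' V V' (fun i hi => h1 i (by omega)) (fun i hi => h2 i (by omega))]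
  | allN φ ih =>
    obtain ⟨b, hb⟩ := ih
    refine ⟨b, fun U C v v' V V' h1 h2 => ?_⟩
    simp only [eval]
    exact forall_congr' fun n => hb U C (nc n v) (nc n v') V V'
      (fun i hi => T2_nc h1 i (by omega)) h2
  | allS φ ih =>
    obtain ⟨b, hb⟩ := ih
    refine ⟨b, fun U C v v' V V' h1 h2 => ?_⟩
    simp only [eval]
    exact forall_congr' fun X => forall_congr' fun _ => hb U C v v' (sc X V) (sc X V') h1
      (fun i hi => T2_sc h2 i (by omega))

end B8d
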