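import Pool.Agent.Lib.MP_8dbd20_lc.Hi.Spec1

namespace B8d

theorem pT3 : S_T3 := by
  intro f b
  induction b generalizing f with
  | zero => exact ⟨0, fun i hi => absurd hi (Nat.not_lt_zero i)⟩
  | succ b ih =>
    obtain ⟨m, hm⟩ := ih (fun i => f (i + 1))
    refine ⟨Nat.pair (f 0) m, fun i hi => ?_⟩
    cases i with
    | zero => exact get_zero_pair _ _
    | succ i =>
      rw [get_succ_pair]
      exact hm i (by omega)

end B8d
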