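import Pool.Agent.Lib.MP_8dbd20_lc.Hi.Spec1

/-!
# MP_8dbd20_lc, `Hi/T4`: the Tarski clauses
-/

namespace B8d

private theorem T4_tru (E K : Set ℕ) (k m S : ℕ) : Nat.pair k (Nat.pair m S) ∈ Tru E K ↔
    eval (Secs E) (CK E K) (dec k) (fun i => get i m) (fun j => ix E (get j S)) := by
  simp only [Tru, Set.mem_setOf_eq, Nat.unpair_pair]

private theorem T4_ix (E : Set ℕ) (a : ℕ) : ix E (a + 1) = sec E a := by
  ext m
  simp [ix]

private theorem T4_sc (E : Set ℕ) (a S : ℕ) : sc (sec E a) (fun j => ix E (get j S)) =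
    fun j => ix E (get j (Nat.pair (a + 1) S)) := by
  funext j
  cases j with
  | zero => rw [sc_zero, get_zero_pair, T4_ix]
  | succ j => rw [sc_succ, get_succ_pair]

private theorem T4_key (E K T : Set ℕ) (k m S : ℕ)
    (h : ∀ k' < k, ∀ m S, Nat.pair k' (Nat.pair m S) ∈ T ↔ Nat.pair k' (Nat.pair m S) ∈ Tru E K) :
    TarC T E K k m S ↔ Nat.pair k (Nat.pair m S) ∈ Tru E K := by
  rw [T4_tru]
  rcases k with _ | k
  · rw [dec]
    simp [TarC, eval]
  · have h1 : k.unpair.2 < k + 1 := Nat.lt_succ_of_le (Nat.unpair_right_le k)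
    have h2 : k.unpair.2.unpair.1 < k + 1 :=
      Nat.lt_succ_of_le ((Nat.unpair_left_le _).trans (Nat.unpair_right_le k))
    have h3 : k.unpair.2.unpair.2 < k + 1 :=
      Nat.lt_succ_of_le ((Nat.unpair_right_le _).trans (Nat.unpair_right_le k))
    rw [dec]
    unfold TarC
    simp only [Nat.add_sub_cancel, Nat.succ_pos, true_and]
    generalize hp : k.unpair.1 = p
    rcases p with _ | _ | _ | _ | _ | _ | _ | _ | p
    · simp [eval]
    · simp [eval]
    · simp [eval]
    · simp only [eval, CK, Set.mem_setOf_eq]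
      simp
    · simp only [eval]
      rw [← T4_tru, ← h _ h1]
      simp
    · simp only [eval]
      rw [← T4_tru, ← T4_tru, ← h _ h2, ← h _ h3]
      simp
    · simp only [eval]
      have : (∀ n, eval (Secs E) (CK E K) (dec k.unpair.2) (nc n fun i => get i m)
          fun j => ix E (get j S)) ↔
          ∀ n, Nat.pair k.unpair.2 (Nat.pair (Nat.pair n m) S) ∈ T := by
        refine forall_congr' fun n => ?_
        rw [nc_get, ← T4_tru, ← h _ h1]
      rw [this]
      simp
    · simp only [eval]
      have : (∀ X ∈ Secs E, eval (Secs E) (CK E K) (dec k.unpair.2) (fun i => get i m)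
          (sc X fun j => ix E (get j S))) ↔
          ∀ a, Nat.pair k.unpair.2 (Nat.pair m (Nat.pair (a + 1) S)) ∈ T := by
        constructor
        · intro H a
          have h4 := H (sec E a) ⟨a, rfl⟩
          rwa [T4_sc, ← T4_tru, ← h _ h1] at h4
        · rintro H X ⟨a, rfl⟩
          rw [T4_sc, ← T4_tru, ← h _ h1]
          exact H a
      rw [this]
      simp
    · simp [eval]

theorem pT4 : S_T4 ∧ S_T4b := by
  refine ⟨fun E K T k hT k' => ?_, fun E K k m S => (T4_key E K (Tru E K) k m S
    (fun _ _ _ _ => Iff.rfl)).symm⟩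
  induction k' using Nat.strong_induction_on with
  | _ k' ih =>
    intro hk m S
    rw [hT k' hk m S]
    exact T4_key E K T k' m S fun k'' hk'' m S => ih k'' hk'' (hk''.le.trans hk) m S

end B8d
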