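import Pool.Agent.Lib.MP_8dbd20_lc.Hi.Spec1

/-!
# MP_8dbd20_lc, `Hi/T5`: the graphs of `Tru` and `Cmp` are arithmetical
-/

namespace B8d

private theorem T5_TarC : Ar (fun v V => TarC (V 0) (V 1) (V 2) (v 0) (v 1) (v 2)) := by
  have hix : AS (fun v V => ix (V 0) (v 0)) := by
    unfold ix
    aesop (config := { enableSimp := false })
  unfold TarC
  refine Ar.or ?_ (Ar.or ?_ (Ar.or ?_ (Ar.or ?_ (Ar.or ?_ (Ar.or ?_ (Ar.or ?_ ?_))))))
  · aesop (config := { enableSimp := false })
  · aesop (config := { enableSimp := false })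
  · refine Ar.and (by aesop (config := { enableSimp := false }))
      (Ar.and (by aesop (config := { enableSimp := false })) (Ar.mem ?_ ?_))
    · aesop (config := { enableSimp := false })
    · exact AS.s11 (R := fun n E => ix E n) hix (by aesop (config := { enableSimp := false }))
        (AS.var 1)
  · refine Ar.and (by aesop (config := { enableSimp := false }))
      (Ar.and (by aesop (config := { enableSimp := false })) ?_)
    refine Ar.exN (R := fun a v V => a ∈ V 2 ∧
      ix (V 1) (get (v 0 - 1).unpair.2 (v 2)) = sec (V 1) a) ?_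
    refine Ar.and (by aesop (config := { enableSimp := false })) (Ar.eqS ?_ ?_)
    · exact AS.s11 (R := fun n E => ix E n) hix (by aesop (config := { enableSimp := false }))
        (AS.var 1)
    · aesop (config := { enableSimp := false })
  · aesop (config := { enableSimp := false })
  · aesop (config := { enableSimp := false })
  · aesop (config := { enableSimp := false })
  · aesop (config := { enableSimp := false })

private theorem T5_tar (h4 : S_T4) (h4b : S_T4b) (T E K : Set ℕ) : T = Tru E K ↔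
    ∀ k m S, Nat.pair k (Nat.pair m S) ∈ T ↔ TarC T E K k m S := by
  constructor
  · rintro rfl k m S
    exact h4b E K k m S
  · intro h
    ext x
    have h1 := h4 E K T x.unpair.1 (fun k' _ => h k') x.unpair.1 le_rfl x.unpair.2.unpair.1
      x.unpair.2.unpair.2
    rwa [Nat.pair_unpair, Nat.pair_unpair] at h1

private theorem T5_AT (h4 : S_T4) (h4b : S_T4b) : Ar (fun _ V => V 0 = Tru (V 1) (V 2)) := by
  have h : Ar (fun v V => ∀ k m S, Nat.pair k (Nat.pair m S) ∈ V 0 ↔
      TarC (V 0) (V 1) (V 2) k m S) := by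
    refine Ar.allN (R := fun k v V => ∀ m S, Nat.pair k (Nat.pair m S) ∈ V 0 ↔
      TarC (V 0) (V 1) (V 2) k m S) ?_
    refine Ar.allN (R := fun m v V => ∀ S, Nat.pair (v 0) (Nat.pair m S) ∈ V 0 ↔
      TarC (V 0) (V 1) (V 2) (v 0) m S) ?_
    refine Ar.allN (R := fun S v V => Nat.pair (v 1) (Nat.pair (v 0) S) ∈ V 0 ↔
      TarC (V 0) (V 1) (V 2) (v 1) (v 0) S) ?_
    refine Ar.iff ?_ ?_
    · aesop (config := { enableSimp := false })
    · exact Ar.s33 (R := fun k m S T E K => TarC T E K k m S) T5_TarC (AN.var 2) (AN.var 1)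
        (AN.var 0) (AS.var 0) (AS.var 1) (AS.var 2)
  exact h.congr fun v V => T5_tar h4 h4b _ _ _

private theorem T5_j4 : AS (fun _ V => join4 (Wst (V 3)) (V 0) (V 1) (V 2)) := by
  unfold join4 Wst
  simp only [Set.mem_setOf_eq]
  aesop (config := { enableSimp := false })

private theorem T5_s (A B D H : Set ℕ) : sec (join4 A B D H) 0 = A ∧ sec (join4 A B D H) 1 = B ∧
    sec (join4 A B D H) 2 = D ∧ sec (join4 A B D H) 3 = H := by
  refine ⟨?_, ?_, ?_, ?_⟩ <;>
  · ext m
    simp [join4]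

private theorem T5_AC (h4 : S_T4) (h4b : S_T4b) : Ar (fun _ V => V 0 = Cmp (V 1) (V 2)) := by
  have h : Ar (fun v V => sec (V 0) 3 = Tru (V 1) (V 2) ∧
      V 0 = join4 (Wst (sec (V 0) 3)) (V 1) (V 2) (sec (V 0) 3)) := by
    refine Ar.and ?_ ?_
    · exact Ar.s03 (R := fun T E K => T = Tru E K) (T5_AT h4 h4b) (AS.sec (AS.var 0) (AN.const 3))
        (AS.var 1) (AS.var 2)
    · refine Ar.eqS (AS.var 0) ?_
      exact AS.s04 (R := fun A B D H => join4 (Wst H) A B D) T5_j4 (AS.var 1) (AS.var 2)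
        (AS.sec (AS.var 0) (AN.const 3)) (AS.sec (AS.var 0) (AN.const 3))
  refine h.congr fun v V => ?_
  constructor
  · intro h
    have h1 : sec (V 0) 3 = Tru (V 1) (V 2) := by
      rw [h]
      exact (T5_s _ _ _ _).2.2.2
    exact ⟨h1, by rw [h1]; exact h⟩
  · rintro ⟨h1, h2⟩
    rw [h1] at h2
    exact h2

theorem pT5 (h4 : S_T4) (h4b : S_T4b) : S_T5 := by
  refine ⟨T5_AT h4 h4b, T5_AC h4 h4b, ?_⟩
  have h : Ar (fun v V => V 0 = Cmp (sec (V 0) 1) (sec (V 0) 2)) :=
    Ar.s03 (R := fun c E K => c = Cmp E K) (T5_AC h4 h4b) (AS.var 0)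
      (AS.sec (AS.var 0) (AN.const 1)) (AS.sec (AS.var 0) (AN.const 2))
  refine h.congr fun v V => ?_
  constructor
  · rintro ⟨E, K, h⟩
    rw [h, show sec (Cmp E K) 1 = E from (T5_s _ _ _ _).2.1,
      show sec (Cmp E K) 2 = K from (T5_s _ _ _ _).2.2.1]
  · intro h
    exact ⟨_, _, h⟩

end B8d
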