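import Pool.Agent.Lib.MP_8dbd20_lc.Hi.Spec1

/-!
# MP_8dbd20_lc, `Hi/T6`: the sections of a completion
-/

namespace B8d

private theorem T6_mem (E K : Set ℕ) (a n : ℕ) : n ∈ sec (sec (Cmp E K) 0) a ↔
    eval (Secs E) (CK E K) (dec a.unpair.1) (nc n fun i => get i a.unpair.2.unpair.1)
      (fun j => ix E (get j a.unpair.2.unpair.2)) := by
  rw [nc_get]
  simp [Cmp, join4, Wst, Tru]

private theorem T6_ix (E : Set ℕ) (a : ℕ) : ix E a ∈ Secs E ∨ ix E a = ∅ := by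
  rcases a with _ | a
  · right
    ext m
    simp [ix]
  · left
    refine ⟨a, ?_⟩
    ext m
    simp [ix]

private theorem T6_xi (E V : Set ℕ) (h : V ∈ Secs E ∨ V = ∅) : ∃ a, ix E a = V := by
  rcases h with ⟨a, rfl⟩ | rfl
  · refine ⟨a + 1, ?_⟩
    ext m
    simp [ix]
  · refine ⟨0, ?_⟩
    ext m
    simp [ix]

theorem pT6 (h1 : S_T1) (h2 : S_T2) (h3 : S_T3) : S_T6 := by
  intro E K X
  constructor
  · rintro ⟨a, rfl⟩
    refine ⟨dec a.unpair.1, fun i => get i a.unpair.2.unpair.1,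
      fun j => ix E (get j a.unpair.2.unpair.2), fun j => T6_ix E _, ?_⟩
    ext n
    exact T6_mem E K a n
  · rintro ⟨φ, v, V, hV, rfl⟩
    obtain ⟨k, rfl⟩ := h1 φ
    obtain ⟨b, hb⟩ := h2 (dec k)
    choose a ha using fun j => T6_xi E (V j) (hV j)
    obtain ⟨m, hm⟩ := h3 v b
    obtain ⟨S, hS⟩ := h3 a b
    refine ⟨Nat.pair k (Nat.pair m S), ?_⟩
    ext n
    rw [T6_mem]
    simp only [Nat.unpair_pair, Set.mem_setOf_eq]
    refine hb _ _ _ _ _ _ (fun i hi => ?_) (fun j hj => ?_)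
    · rcases i with _ | i
      · rfl
      · rw [nc_succ, nc_succ, hm i (by omega)]
    · rw [hS j hj, ha]

end B8d
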