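import Pool.Agent.Lib.MP_8dbd20_lc.Hi.Spec1

/-!
# `Hi/T7`: substitution of number terms in arbitrary structures
-/

namespace B8d

private theorem T7_ar {R : (ℕ → ℕ) → (ℕ → Set ℕ) → Prop} (h : Ar R) :
    ∃ φ' : F, ∀ (U C : Set (Set ℕ)) (v : ℕ → ℕ) (V : ℕ → Set ℕ), eval U C φ' v V ↔ R v V := by
  obtain ⟨φ, ha, hφ⟩ := h
  exact ⟨φ, fun U C v V => (eval_arith ha U C ∅ ∅ v V).trans (hφ v V).symm⟩

theorem pT7 : S_T7 := by
  intro φ
  induction φ with
  | fls => intro f hf; exact ⟨.fls, fun _ _ _ _ => Iff.rfl⟩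
  | add i j k => intro f hf; exact T7_ar (Ar.addt (hf i) (hf j) (hf k))
  | mul i j k => intro f hf; exact T7_ar (Ar.mult (hf i) (hf j) (hf k))
  | mem i j => intro f hf; exact T7_ar (Ar.mem (hf i) (AS.var j))
  | cc j => intro f hf; exact ⟨.cc j, fun _ _ _ _ => Iff.rfl⟩
  | neg φ ih =>
      intro f hf
      obtain ⟨φ', h⟩ := ih f hf
      exact ⟨.neg φ', fun U C v V => not_congr (h U C v V)⟩
  | and φ ψ ih1 ih2 =>
      intro f hf
      obtain ⟨φ', h1⟩ := ih1 f hf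
      obtain ⟨ψ', h2⟩ := ih2 f hf
      exact ⟨.and φ' ψ', fun U C v V => and_congr (h1 U C v V) (h2 U C v V)⟩
  | allN φ ih =>
      intro f hf
      obtain ⟨φ', h⟩ := ih (fun i v => nc (v 0) (fun i => f i (fun j => v (j + 1))) i)
        (AN.comp_nc (f := fun i v _ => f i v) hf)
      exact ⟨.allN φ', fun U C v V => forall_congr' fun n => h U C (nc n v) V⟩
  | allS φ ih =>
      intro f hf
      obtain ⟨φ', h⟩ := ih f hf
      exact ⟨.allS φ', fun U C v V => forall_congr' fun X => forall_congr' fun _ =>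
        h U C v (sc X V)⟩

end B8d
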