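import Pool.Agent.Lib.MP_8dbd20_lc.Hi.Spec1

/-!
# MP_8dbd20_lc, `Hi/T8`: the reals listed by a completion are arithmetically closed
-/

namespace B8d

private theorem T8_key (h6 : S_T6) (h7 : S_T7) (E K : Set ℕ) (A : ℕ → Set ℕ)
    (hA : ∀ j, A j ∈ Ss (Cmp E K)) (ψ : F) (hψ : ψ.arith) :
    ∃ (φ : F) (W : ℕ → Set ℕ), (∀ j, W j ∈ Secs E ∨ W j = ∅) ∧
      ∀ v, eval ∅ ∅ ψ v A ↔ eval (Secs E) (CK E K) φ v W := by
  induction ψ with
  | fls => exact ⟨.fls, fun _ => ∅, fun _ => Or.inr rfl, fun v => Iff.rfl⟩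
  | add i j k => exact ⟨.add i j k, fun _ => ∅, fun _ => Or.inr rfl, fun v => Iff.rfl⟩
  | mul i j k => exact ⟨.mul i j k, fun _ => ∅, fun _ => Or.inr rfl, fun v => Iff.rfl⟩
  | mem i j =>
    obtain ⟨φ, u, W, hW, hAj⟩ := (h6 E K (A j)).1 (hA j)
    obtain ⟨φ', hφ'⟩ := h7 φ (fun l v => nc (v i) u l) (by
      intro l
      rcases l with _ | l
      · exact AN.var i
      · exact AN.const (u l))
    refine ⟨φ', W, hW, fun v => ?_⟩
    rw [hφ']
    show v i ∈ A j ↔ _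
    rw [hAj]
    exact Iff.rfl
  | cc j => exact hψ.elim
  | neg ψ ih =>
    obtain ⟨φ, W, hW, h⟩ := ih hψ
    exact ⟨.neg φ, W, hW, fun v => not_congr (h v)⟩
  | and ψ ψ' ih ih' =>
    obtain ⟨φ, W, hW, h⟩ := ih hψ.1
    obtain ⟨φ', W', hW', h'⟩ := ih' hψ.2
    refine ⟨.and (φ.ren id (fun j => 2 * j)) (φ'.ren id (fun j => 2 * j + 1)),
      fun j => if j % 2 = 0 then W (j / 2) else W' (j / 2), fun j => ?_, fun v => ?_⟩
    · dsimp only
      split_ifs
      · exact hW _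
      · exact hW' _
    · have e1 : (fun j => (fun j => if j % 2 = 0 then W (j / 2) else W' (j / 2)) (2 * j)) = W := by
        funext j
        simp
      have e2 : (fun j => (fun j => if j % 2 = 0 then W (j / 2) else W' (j / 2)) (2 * j + 1)) =
          W' := by
        funext j
        have h1 : (2 * j + 1) % 2 = 1 := by omega
        have h2 : (2 * j + 1) / 2 = j := by omega
        simp [h1, h2]
      refine and_congr ?_ ?_
      · rw [eval_ren, e1]
        exact h v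
      · rw [eval_ren, e2]
        exact h' v
  | allN ψ ih =>
    obtain ⟨φ, W, hW, h⟩ := ih hψ
    exact ⟨.allN φ, W, hW, fun v => forall_congr' fun n => h _⟩
  | allS ψ => exact hψ.elim

theorem pT8 (h2 : S_T2) (h6 : S_T6) (h7 : S_T7) : S_T8 := by
  intro E K
  constructor
  · rintro R ⟨ψ, hψ, hR⟩ v V hV
    obtain ⟨φ, W, hW, h⟩ := T8_key h6 h7 E K V hV ψ hψ
    refine (h6 E K _).2 ⟨φ, v, W, hW, ?_⟩
    ext n
    exact (hR _ _).trans (h _)
  · refine ⟨∅, (h6 E K _).2 ⟨.fls, fun _ => 0, fun _ => ∅, fun _ => Or.inr rfl, ?_⟩⟩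
    ext n
    simp [eval]

end B8d
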