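import Pool.Agent.Lib.MP_8dbd20_lc.Hi.Spec1

/-! # MP_8dbd20_lc, block Hi: diagonal argument -/

set_option linter.unusedVariables false

namespace B8d

private theorem T9_ar : Ar (fun v V => ¬ v 0 ∈ sec (sec (V 0) 0) (v 0)) := by
  aesop (config := { enableSimp := false })

private theorem T9_diag (h8 : S_T8) (E K : Set ℕ) : Cmp E K ∉ Ss (Cmp E K) := by
  intro hc
  have h1 := (h8 E K).1 (fun v V => ¬ v 0 ∈ sec (sec (V 0) 0) (v 0)) T9_ar (fun _ => 0)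
    (fun _ => Cmp E K) (fun _ => hc)
  obtain ⟨a, ha⟩ := h1
  have h2 : a ∈ {n | ¬ nc n (fun _ => 0) 0 ∈ sec (sec (Cmp E K) 0) (nc n (fun _ => 0) 0)} ↔
      a ∈ sec (sec (Cmp E K) 0) a := by rw [ha]
  rw [Set.mem_setOf_eq, nc_zero] at h2
  exact iff_not_self h2.symm

theorem pT9 (h6 : S_T6) (h8 : S_T8) : S_T9 := by
  intro E K
  refine ⟨T9_diag h8 E K, ?_, ?_, ?_, ?_⟩
  · intro X hX
    rw [h6]
    refine ⟨.mem 0 0, fun _ => 0, fun _ => X, fun _ => Or.inl hX, ?_⟩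
    ext n
    exact Iff.rfl
  · ext m
    change Nat.pair 1 m ∈ join4 _ _ _ _ ↔ m ∈ E
    unfold join4
    rw [Set.mem_setOf_eq, Nat.unpair_pair]
    simp
  · ext m
    change Nat.pair 2 m ∈ join4 _ _ _ _ ↔ m ∈ K
    unfold join4
    rw [Set.mem_setOf_eq, Nat.unpair_pair]
    simp
  · intro h
    apply T9_diag h8 E K
    refine ⟨0, ?_⟩
    rw [h]
    ext m
    simp [sec]

end B8d
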